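import Pool.Agent.LocG.LemR

/-!
# MP_230912_co, file Hilb: regular sequences and Hilbert functions

`dq A B n = dim A_n - dim B_n`, `psum f n = ∑_{i ≤ n} f i`, `RegSeq A B l`: the list `l` is a
regular
sequence for `A / B` (first `η` injective on `A / B`, then the rest for `B + ηA`),
`gl l A = ∑_{η ∈ l} η A`.

PROOFS.
`gl_cons`, `gl_append`, `gl_map`, `sh_gl`, `gl_le`: induction on the list.
`dq_step`: let `η` map `A n` to `A (n+1)` and `B n` to `B (n+1)`.  The linear map `A_n → A_{n+1} /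
B_{n+1}`
induced by `η` has kernel `N = {y ∈ A_n | η y ∈ B_{n+1}} ⊇ B_n` and image
`(B_{n+1} + η A_n) / B_{n+1}`, so
`dim (B + sh η A)_{n+1} - dim B_{n+1} = dim A_n - dim N ≤ dim A_n - dim B_n = dq A B n`, with
equality iff
`N = B_n`.  Hence `dq A (B ⊔ sh η A) (n+1) = dq A B (n+1) - (dim A_n - dim N)
≥ dq A B (n+1) - dq A B n`, equality iff for `y ∈ A_n`, `η y ∈ B_{n+1}` implies `y ∈ B_n`.
In degree `0`: `dq A (B ⊔ sh η A) 0 = dq A B 0`.
`dq_le`: sum `dq_step` over the degrees (induction on `n`).  `dq_eq_iff`: if all are equalities then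
all steps are equalities (compare `n` and `n + 1`).
`psum_mono`, `psum_inj`: `f (n+1) = psum f (n+1) - psum f n`, `f 0 = psum f 0`.
`regSeq_iff`.  Put `B_j = B + η_1 A + .. + η_j A`, `g_j = dq A B_j`.  All `B_j` are stable under the
operators of the list (`sh_comm`), `B_j ≤ A`, so `g_j ≤ psum g_{j+1}` (`dq_le`) with equality iff
`η_{j+1}` is injective on `A / B_j` (`dq_eq_iff`).  Induction on `l` (for all `B`):
(⇒) `dq A B = psum (dq A (B ⊔ sh η A)) = psum (psum^[l.length] ..)`
(`Function.iterate_succ_apply'`, `gl_cons`).  (⇐) `dq A B ≤ psum (dq A (B ⊔ sh η A))` and, iterating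
`dq_le` along `l` with `psum_mono`, `dq A (B ⊔ sh η A) ≤ psum^[l.length] (dq A (B ⊔ gl (η :: l)
A))`;
if `dq A B = psum^[l.length + 1] (..)` then both are equalities (`psum_mono` and `psum_inj`: from
`psum f = psum g` follows `f = g`); so `InjQ η A B` and by induction `RegSeq A (B ⊔ sh η A) l`.
`reg_of_regSeq`: by `regSeq_iff`, `dq A B = psum^[P.card] (dq A (B ⊔ gn θ P A))`.  Let `Q ⊆ P`,
`e ∈ P \ Q`; put `l' = Q.toList ++ [e] ++ (P \ (insert e Q)).toList`, a list without repetition
with the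
elements of `P`, so `l'.length = P.card` and `gl (l'.map θ) A = gn θ P A`.  By `regSeq_iff` (⇐)
`RegSeq A B (l'.map θ)`, and by `regSeq_append` `InjQ (θ e) A (B ⊔ gl (Q.toList.map θ) A)`, and
`gl (Q.toList.map θ) A = gn θ Q A`.
`reg_regSeq`: for a list without repetition with elements in `P`, `Reg` gives `RegSeq` (induction
with
`regSeq_append` or from the definition, for all `Q` already used).
`reg_dq`: `reg_regSeq` for `P.toList` and `regSeq_iff`.
`reg_insert`: `RegSeq A B (P.toList.map θ ++ [θ c])`, `reg_of_regSeq`.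
-/

set_option autoImplicit false

namespace Pool.Agent.LocG

open Finset

section

variable {K E ι : Type} [Field K] [AddCommGroup E] [Module K E] [DecidableEq ι]

theorem gl_nil (A : Fam K E) : gl [] A = ⊥ := rfl

theorem gl_cons (η : E →ₗ[K] E) (l : List (E →ₗ[K] E)) (A : Fam K E) :
    gl (η :: l) A = sh η A ⊔ gl l A := rfl

theorem gl_append (l l' : List (E →ₗ[K] E)) (A : Fam K E) :
    gl (l ++ l') A = gl l A ⊔ gl l' A := by
  induction l with
  | nil => rw [List.nil_append, gl_nil, bot_sup_eq]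
  | cons η l ih => rw [List.cons_append, gl_cons, gl_cons, ih, sup_assoc]

private theorem gl_toFinset (θ : ι → E →ₗ[K] E) (l : List ι) (A : Fam K E) :
    gl (l.map θ) A = gn θ l.toFinset A := by
  induction l with
  | nil => rw [List.map_nil, gl_nil, List.toFinset_nil, gn_empty]
  | cons c l ih => rw [List.map_cons, gl_cons, ih, List.toFinset_cons, gn_insert]

theorem gl_toList (θ : ι → E →ₗ[K] E) (P : Finset ι) (A : Fam K E) :
    gl (P.toList.map θ) A = gn θ P A := by
  rw [gl_toFinset, Finset.toList_toFinset]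

theorem psum_mono {f g : ℕ → ℤ} (h : ∀ n, f n ≤ g n) (n : ℕ) : psum f n ≤ psum g n :=
  Finset.sum_le_sum fun i _ => h i

private theorem psum_zero (f : ℕ → ℤ) : psum f 0 = f 0 := by
  unfold psum
  rw [zero_add, Finset.sum_range_one]

private theorem psum_succ (f : ℕ → ℤ) (n : ℕ) : psum f (n + 1) = psum f n + f (n + 1) := by
  unfold psum
  rw [Finset.sum_range_succ]

theorem psum_inj {f g : ℕ → ℤ} (h : ∀ n, psum f n = psum g n) (n : ℕ) : f n = g n := by
  cases n with
  | zero =>
    have h0 := h 0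
    rwa [psum_zero, psum_zero] at h0
  | succ n =>
    have h0 := h n
    have h1 := h (n + 1)
    rw [psum_succ, psum_succ, h0] at h1
    exact add_left_cancel h1

theorem psum_iter_inj {f g : ℕ → ℤ} (k : ℕ) (h : ∀ n, (psum^[k] f) n = (psum^[k] g) n) (n : ℕ) :
    f n = g n := by
  induction k with
  | zero => exact h n
  | succ k ih =>
    refine ih fun m => psum_inj (fun j => ?_) m
    have h1 := h j
    rwa [Function.iterate_succ_apply', Function.iterate_succ_apply'] at h1

/-- dimension formula for the image of a subspace -/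
private theorem fin_map (η : E →ₗ[K] E) (S : Submodule K E) [FiniteDimensional K S] :
    Module.finrank K (S.map η) + Module.finrank K (S ⊓ LinearMap.ker η : Submodule K E) =
      Module.finrank K S := by
  have h1 := LinearMap.finrank_range_add_finrank_ker (η.domRestrict S)
  have h2 : LinearMap.range (η.domRestrict S) = S.map η := LinearMap.range_domRestrict S η
  have h3 : LinearMap.ker (η.domRestrict S) = (LinearMap.ker η).comap S.subtype := rfl
  have h4 : Module.finrank K ((LinearMap.ker η).comap S.subtype) =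
      Module.finrank K (S ⊓ LinearMap.ker η : Submodule K E) := by
    rw [← Submodule.map_comap_subtype, Submodule.finrank_map_subtype_eq]
  rw [h2, h3, h4] at h1
  exact h1

private theorem dq_zero (η : E →ₗ[K] E) (A B : Fam K E) : dq A (B ⊔ sh η A) 0 = dq A B 0 := by
  have h : (B ⊔ sh η A) 0 = B 0 := by
    change B 0 ⊔ ⊥ = B 0
    rw [sup_bot_eq]
  unfold dq
  rw [h]

private theorem dq_step {η : E →ₗ[K] E} {A B : Fam K E} (hf : Fd A) (hA : sh η A ≤ A)
    (hB : sh η B ≤ B) (hBA : B ≤ A) (n : ℕ) :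
    dq A B (n + 1) - dq A B n ≤ dq A (B ⊔ sh η A) (n + 1) ∧
      (dq A (B ⊔ sh η A) (n + 1) = dq A B (n + 1) - dq A B n ↔
        ∀ y ∈ A n, η y ∈ B (n + 1) → y ∈ B n) := by
  have := hf n
  have := hf (n + 1)
  have hBf : FiniteDimensional K (B (n + 1)) := Submodule.finiteDimensional_of_le (hBA (n + 1))
  have hηA : (A n).map η ≤ A (n + 1) := hA (n + 1)
  have hηB : (B n).map η ≤ B (n + 1) := hB (n + 1)
  have hif : FiniteDimensional K ((A n).map η) := Submodule.finiteDimensional_of_le hηA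
  let N : Submodule K E := A n ⊓ (B (n + 1)).comap η
  have hNA : N ≤ A n := inf_le_left
  have hNf : FiniteDimensional K N := Submodule.finiteDimensional_of_le hNA
  have hBN : B n ≤ N := le_inf (hBA n) (Submodule.map_le_iff_le_comap.1 hηB)
  have h1 := fin_map η (A n)
  have h2 := fin_map η N
  have h3 : N.map η = B (n + 1) ⊓ (A n).map η := by
    ext y
    constructor
    · rintro ⟨x, hx, rfl⟩
      exact ⟨hx.2, x, hx.1, rfl⟩
    · rintro ⟨hy, x, hx, rfl⟩
      exact ⟨x, ⟨hx, hy⟩, rfl⟩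
  have h4 : N ⊓ LinearMap.ker η = A n ⊓ LinearMap.ker η := by
    ext y
    constructor
    · rintro ⟨hy, hy'⟩
      exact ⟨hy.1, hy'⟩
    · rintro ⟨hy, hy'⟩
      refine ⟨⟨hy, ?_⟩, hy'⟩
      change η y ∈ B (n + 1)
      rw [LinearMap.mem_ker.1 hy']
      exact zero_mem _
  rw [h3, h4] at h2
  have h5 := Submodule.finrank_sup_add_finrank_inf_eq (B (n + 1)) ((A n).map η)
  have h6 : (B ⊔ sh η A) (n + 1) = B (n + 1) ⊔ (A n).map η := rfl
  have h7 : Module.finrank K (B n) ≤ Module.finrank K N := Submodule.finrank_mono hBN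
  have h8 : dq A (B ⊔ sh η A) (n + 1) =
      dq A B (n + 1) - ((Module.finrank K (A n) : ℤ) - Module.finrank K N) := by
    unfold dq
    rw [h6]
    omega
  refine ⟨?_, ?_⟩
  · rw [h8]
    unfold dq
    omega
  · rw [h8]
    constructor
    · intro h9 y hy hy'
      have h10 : Module.finrank K (B n) = Module.finrank K N := by
        unfold dq at h9
        omega
      have h11 : B n = N := Submodule.eq_of_le_of_finrank_eq hBN h10
      rw [h11]
      exact ⟨hy, hy'⟩
    · intro h9
      have h10 : N = B n := le_antisymm (fun y hy => h9 y hy.1 hy.2) hBN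
      rw [h10]
      rfl

theorem dq_le {η : E →ₗ[K] E} {A B : Fam K E} (hf : Fd A) (hA : sh η A ≤ A) (hB : sh η B ≤ B)
    (hBA : B ≤ A) (n : ℕ) : dq A B n ≤ psum (dq A (B ⊔ sh η A)) n := by
  induction n with
  | zero => rw [psum_zero, dq_zero]
  | succ n ih =>
    rw [psum_succ]
    have h := (dq_step hf hA hB hBA n).1
    linarith

theorem dq_eq_iff {η : E →ₗ[K] E} {A B : Fam K E} (hf : Fd A) (hA : sh η A ≤ A)
    (hB : sh η B ≤ B) (hBA : B ≤ A) :
    (∀ n, dq A B n = psum (dq A (B ⊔ sh η A)) n) ↔ InjQ η A B := by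
  constructor
  · intro h n
    refine (dq_step hf hA hB hBA n).2.1 ?_
    have h1 := h n
    have h2 := h (n + 1)
    rw [psum_succ, ← h1] at h2
    linarith
  · intro h n
    induction n with
    | zero => rw [psum_zero, dq_zero]
    | succ n ih =>
      rw [psum_succ, ← ih, (dq_step hf hA hB hBA n).2.2 (h n)]
      ring

theorem regSeq_append (A B : Fam K E) (l l' : List (E →ₗ[K] E)) :
    RegSeq A B (l ++ l') ↔ RegSeq A B l ∧ RegSeq A (B ⊔ gl l A) l' := by
  induction l generalizing B with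
  | nil =>
    rw [List.nil_append, gl_nil, sup_bot_eq]
    exact ⟨fun h => ⟨trivial, h⟩, fun h => h.2⟩
  | cons η l ih =>
    rw [List.cons_append, gl_cons, ← sup_assoc]
    change InjQ η A B ∧ RegSeq A (B ⊔ sh η A) (l ++ l') ↔
      (InjQ η A B ∧ RegSeq A (B ⊔ sh η A) l) ∧ _
    rw [ih, and_assoc]

private theorem stable_sup {η η' : E →ₗ[K] E} (h : η' ∘ₗ η = η ∘ₗ η') {A B : Fam K E}
    (hA : sh η' A ≤ A) (hB : sh η' B ≤ B) : sh η' (B ⊔ sh η A) ≤ B ⊔ sh η A := by
  rw [sh_sup, sh_comm h]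
  exact sup_le_sup hB (sh_mono η hA)

private theorem regSeq_le {A B : Fam K E} {l : List (E →ₗ[K] E)} (hf : Fd A)
    (hl : ∀ η ∈ l, ∀ η' ∈ l, η ∘ₗ η' = η' ∘ₗ η) (hA : ∀ η ∈ l, sh η A ≤ A)
    (hB : ∀ η ∈ l, sh η B ≤ B) (hBA : B ≤ A) (n : ℕ) :
    dq A B n ≤ (psum^[l.length] (dq A (B ⊔ gl l A))) n := by
  induction l generalizing B n with
  | nil =>
    rw [gl_nil, sup_bot_eq]
    exact le_rfl
  | cons η l ih =>
    have h1 := dq_le hf (hA η List.mem_cons_self) (hB η List.mem_cons_self) hBA n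
    rw [List.length_cons, Function.iterate_succ_apply', gl_cons, ← sup_assoc]
    refine h1.trans (psum_mono (fun m => ?_) n)
    refine ih (fun a ha b hb => hl a (List.mem_cons_of_mem _ ha) b (List.mem_cons_of_mem _ hb))
      (fun a ha => hA a (List.mem_cons_of_mem _ ha)) (fun a ha => ?_)
      (sup_le hBA (hA η List.mem_cons_self)) m
    exact stable_sup (hl a (List.mem_cons_of_mem _ ha) η List.mem_cons_self)
      (hA a (List.mem_cons_of_mem _ ha)) (hB a (List.mem_cons_of_mem _ ha))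

theorem regSeq_iff {A B : Fam K E} {l : List (E →ₗ[K] E)} (hf : Fd A)
    (hl : ∀ η ∈ l, ∀ η' ∈ l, η ∘ₗ η' = η' ∘ₗ η) (hA : ∀ η ∈ l, sh η A ≤ A)
    (hB : ∀ η ∈ l, sh η B ≤ B) (hBA : B ≤ A) :
    RegSeq A B l ↔ ∀ n, dq A B n = (psum^[l.length] (dq A (B ⊔ gl l A))) n := by
  induction l generalizing B with
  | nil =>
    refine ⟨fun _ n => ?_, fun _ => trivial⟩
    rw [gl_nil, sup_bot_eq]
    rfl
  | cons η l ih =>
    have hl' : ∀ a ∈ l, ∀ b ∈ l, a ∘ₗ b = b ∘ₗ a := fun a ha b hb =>
      hl a (List.mem_cons_of_mem _ ha) b (List.mem_cons_of_mem _ hb)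
    have hA' : ∀ a ∈ l, sh a A ≤ A := fun a ha => hA a (List.mem_cons_of_mem _ ha)
    have hB' : ∀ a ∈ l, sh a (B ⊔ sh η A) ≤ B ⊔ sh η A := fun a ha =>
      stable_sup (hl a (List.mem_cons_of_mem _ ha) η List.mem_cons_self) (hA' a ha)
        (hB a (List.mem_cons_of_mem _ ha))
    have hηA := hA η List.mem_cons_self
    have hηB := hB η List.mem_cons_self
    have hBA' : B ⊔ sh η A ≤ A := sup_le hBA hηA
    have h1 := ih (B := B ⊔ sh η A) hl' hA' hB' hBA'
    have h2 := dq_eq_iff hf hηA hηB hBA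
    rw [List.length_cons, gl_cons, ← sup_assoc]
    change InjQ η A B ∧ RegSeq A (B ⊔ sh η A) l ↔ _
    rw [h1, ← h2]
    constructor
    · rintro ⟨h3, h4⟩ n
      rw [Function.iterate_succ_apply', h3 n]
      exact Finset.sum_congr rfl fun i _ => h4 i
    · intro h3
      have h5 : ∀ n, dq A (B ⊔ sh η A) n ≤
          (psum^[l.length] (dq A (B ⊔ sh η A ⊔ gl l A))) n :=
        regSeq_le hf hl' hA' hB' hBA'
      have h6 : ∀ n, psum (dq A (B ⊔ sh η A)) n =
          psum (psum^[l.length] (dq A (B ⊔ sh η A ⊔ gl l A))) n := by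
        intro n
        have h7 := h3 n
        rw [Function.iterate_succ_apply'] at h7
        have h8 := dq_le hf hηA hηB hBA n
        exact le_antisymm (psum_mono h5 n) (h7.ge.trans h8)
      refine ⟨fun n => ?_, fun n => psum_inj h6 n⟩
      rw [h3 n, Function.iterate_succ_apply', h6 n]

theorem reg_of_regSeq {θ : ι → E →ₗ[K] E} (hθ : ∀ i j, θ i ∘ₗ θ j = θ j ∘ₗ θ i)
    {A B : Fam K E} {P : Finset ι} {l : List (E →ₗ[K] E)} (hf : Fd A)
    (hl : ∀ η ∈ l, ∀ η' ∈ l, η ∘ₗ η' = η' ∘ₗ η) (hlA : ∀ η ∈ l, sh η A ≤ A)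
    (hlB : ∀ η ∈ l, sh η B ≤ B) (hA : ∀ c ∈ P, sh (θ c) A ≤ A) (hB : ∀ c ∈ P, sh (θ c) B ≤ B)
    (hBA : B ≤ A) (hlen : l.length = P.card) (hs : gl l A = gn θ P A) (hr : RegSeq A B l) :
    Reg θ P A B := by
  intro Q hQ e he heQ
  have h1 := (regSeq_iff hf hl hlA hlB hBA).1 hr
  rw [hlen, hs] at h1
  let R : Finset ι := P \ insert e Q
  have hsub : insert e Q ⊆ P := Finset.insert_subset he hQ
  let L : List ι := Q.toList ++ (e :: R.toList)
  have hL : ∀ c ∈ L, c ∈ P := by
    intro c hc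
    rcases List.mem_append.1 hc with h | h
    · exact hQ (Finset.mem_toList.1 h)
    · rcases List.mem_cons.1 h with h | h
      · rw [h]
        exact he
      · exact (Finset.mem_sdiff.1 (Finset.mem_toList.1 h)).1
  have hm : ∀ η ∈ L.map θ, ∃ c ∈ P, θ c = η := by
    intro η hη
    obtain ⟨c, hc, rfl⟩ := List.mem_map.1 hη
    exact ⟨c, hL c hc, rfl⟩
  have hlen' : (L.map θ).length = P.card := by
    have h2 : (insert e Q).card = Q.card + 1 := Finset.card_insert_of_notMem heQ
    have h3 := Finset.card_sdiff_add_card_eq_card hsub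
    have h4 : L.length = Q.card + (R.card + 1) := by
      simp only [L, List.length_append, List.length_cons, Finset.length_toList]
    rw [List.length_map, h4]
    change Q.card + ((P \ insert e Q).card + 1) = P.card
    omega
  have hgl : gl (L.map θ) A = gn θ P A := by
    have h2 : L.map θ = Q.toList.map θ ++ (θ e :: R.toList.map θ) := by
      simp only [L, List.map_append, List.map_cons]
    rw [h2, gl_append, gl_cons, gl_toList, gl_toList]
    refine le_antisymm ?_ ?_
    · exact sup_le (gn_mono θ hQ le_rfl)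
        (sup_le (sh_le_gn he) (gn_mono θ Finset.sdiff_subset le_rfl))
    · refine gn_le fun c hc => ?_
      by_cases h3 : c ∈ Q
      · exact (sh_le_gn h3).trans le_sup_left
      · by_cases h4 : c = e
        · rw [h4]
          exact le_sup_left.trans le_sup_right
        · have h5 : c ∈ R := Finset.mem_sdiff.2 ⟨hc, fun h => (Finset.mem_insert.1 h).elim h4 h3⟩
          exact (sh_le_gn h5).trans (le_sup_right.trans le_sup_right)
  have h2 : RegSeq A B (L.map θ) := by
    refine (regSeq_iff hf ?_ ?_ ?_ hBA).2 ?_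
    · intro a ha b hb
      obtain ⟨c, -, rfl⟩ := hm a ha
      obtain ⟨d, -, rfl⟩ := hm b hb
      exact hθ c d
    · intro a ha
      obtain ⟨c, hc, rfl⟩ := hm a ha
      exact hA c hc
    · intro a ha
      obtain ⟨c, hc, rfl⟩ := hm a ha
      exact hB c hc
    · rw [hlen', hgl]
      exact h1
  have h3 : L.map θ = Q.toList.map θ ++ (θ e :: R.toList.map θ) := by
    simp only [L, List.map_append, List.map_cons]
  rw [h3, regSeq_append, gl_toList] at h2
  exact h2.2.1

private theorem reg_regSeq {θ : ι → E →ₗ[K] E} {A B : Fam K E} {P : Finset ι}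
    (hr : Reg θ P A B) (l : List ι) (hn : l.Nodup) (hP : ∀ c ∈ l, c ∈ P) :
    RegSeq A B (l.map θ) := by
  induction l using List.reverseRecOn with
  | nil => exact trivial
  | append_singleton l e ih =>
    rw [List.map_append, regSeq_append, gl_toFinset]
    have hn' := List.nodup_append.1 hn
    refine ⟨ih hn'.1 fun c hc => hP c (List.mem_append_left _ hc), ?_, trivial⟩
    refine hr l.toFinset ?_ e (hP e (List.mem_append_right _ (List.mem_singleton_self e))) ?_
    · intro c hc
      exact hP c (List.mem_append_left _ (List.mem_toFinset.1 hc))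
    · intro h
      exact hn'.2.2 e (List.mem_toFinset.1 h) e (List.mem_singleton_self e) rfl

theorem reg_dq {θ : ι → E →ₗ[K] E} (hθ : ∀ i j, θ i ∘ₗ θ j = θ j ∘ₗ θ i) {A B : Fam K E}
    {P : Finset ι} (hf : Fd A) (hA : ∀ c ∈ P, sh (θ c) A ≤ A) (hB : ∀ c ∈ P, sh (θ c) B ≤ B)
    (hBA : B ≤ A) (hr : Reg θ P A B) (n : ℕ) :
    dq A B n = (psum^[P.card] (dq A (B ⊔ gn θ P A))) n := by
  have h1 := reg_regSeq hr P.toList (Finset.nodup_toList P) fun c hc => Finset.mem_toList.1 hc
  have hm : ∀ η ∈ P.toList.map θ, ∃ c ∈ P, θ c = η := by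
    intro η hη
    obtain ⟨c, hc, rfl⟩ := List.mem_map.1 hη
    exact ⟨c, Finset.mem_toList.1 hc, rfl⟩
  have h2 := (regSeq_iff (l := P.toList.map θ) hf (by
    intro a ha b hb
    obtain ⟨c, -, rfl⟩ := hm a ha
    obtain ⟨d, -, rfl⟩ := hm b hb
    exact hθ c d) (by
    intro a ha
    obtain ⟨c, hc, rfl⟩ := hm a ha
    exact hA c hc) (by
    intro a ha
    obtain ⟨c, hc, rfl⟩ := hm a ha
    exact hB c hc) hBA).1 h1 n
  rwa [List.length_map, Finset.length_toList, gl_toList] at h2

theorem reg_insert {θ : ι → E →ₗ[K] E} (hθ : ∀ i j, θ i ∘ₗ θ j = θ j ∘ₗ θ i) {A B : Fam K E}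
    {P : Finset ι} {c : ι} (hc : c ∉ P) (hf : Fd A) (hA : ∀ b ∈ insert c P, sh (θ b) A ≤ A)
    (hB : ∀ b ∈ insert c P, sh (θ b) B ≤ B) (hBA : B ≤ A) (hr : Reg θ P A B)
    (hi : InjQ (θ c) A (B ⊔ gn θ P A)) : Reg θ (insert c P) A B := by
  have h1 := reg_regSeq hr P.toList (Finset.nodup_toList P) fun c hc => Finset.mem_toList.1 hc
  have h2 : RegSeq A B (P.toList.map θ ++ [θ c]) := by
    rw [regSeq_append, gl_toList]
    exact ⟨h1, hi, trivial⟩
  have hm : ∀ η ∈ P.toList.map θ ++ [θ c], ∃ b ∈ insert c P, θ b = η := by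
    intro η hη
    rcases List.mem_append.1 hη with h | h
    · obtain ⟨b, hb, rfl⟩ := List.mem_map.1 h
      exact ⟨b, Finset.mem_insert_of_mem (Finset.mem_toList.1 hb), rfl⟩
    · rw [List.mem_singleton.1 h]
      exact ⟨c, Finset.mem_insert_self c P, rfl⟩
  refine reg_of_regSeq hθ hf ?_ ?_ ?_ hA hB hBA ?_ ?_ h2
  · intro a ha b hb
    obtain ⟨c, -, rfl⟩ := hm a ha
    obtain ⟨d, -, rfl⟩ := hm b hb
    exact hθ c d
  · intro a ha
    obtain ⟨c, hc, rfl⟩ := hm a ha
    exact hA c hc
  · intro a ha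
    obtain ⟨c, hc, rfl⟩ := hm a ha
    exact hB c hc
  · rw [List.length_append, List.length_map, Finset.length_toList, List.length_singleton,
      Finset.card_insert_of_notMem hc]
  · rw [gl_append, gl_toList, gl_cons, gl_nil, sup_bot_eq, gn_insert, sup_comm]

end

end Pool.Agent.LocG
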