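import Pool.Agent.LocG.Mono
import Pool.Agent.LocG.Hilb

/-!
# MP_230912_co, file Cnt: counting monomials

`psum f n = ∑_{i ≤ n} f i`; `psum^[m]` is the iterate.

PROOFS.
`psum_coeff`: for a polynomial `P`, `psum (coeff ((1 - X) * P)) n = coeff P n`: the coefficients of
`(1 - X) P` are `p_n - p_{n-1}`, the sum telescopes (induction on `n`, `Polynomial.coeff_X_mul`).
`psum_iter_coeff`: iterate: `psum^[k] (coeff ((1 - X)^k * P)) = coeff P`.
`card_supp`: the number of the `m : Nd →₀ ℕ` with support exactly `F` and degree `n` is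
`psum^[F.card] (coeff (X ^ F.card)) n`.  Induction on `F` (`Finset.induction_on`) for all `n`:
`F = ∅`: `m = 0`, the number is `1` for `n = 0` and `0` otherwise, `coeff 1`.
`insert v F`: the number `N(insert v F, n)` is `∑_{i = 1}^{n} N(F, n - i)` (value `i ≥ 1` of `m`
at `v`),
i.e. `N(insert v F, n) = psum N(F, ·) (n - 1)` for `n ≥ 1` and `0` for `n = 0`.  On the other side
with
`k = F.card`: `psum^[k+1] (coeff X^{k+1}) n = psum^[k+1] (coeff X^k shifted by one)`, and `psum`
commutes
with the shift `(f 0 := 0, f (n+1) := g n)`.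
(Alternatively: both sides are `choose (n - 1) (k - 1)` for `k ≥ 1`, `n ≥ 1`.)
`card_mono`: `mf_finrank`, the monomials of degree `n` with `p m.support` are the disjoint union
over
the `F` with `p F` of those with support `F`; for `F.card ≤ m`,
`psum^[F.card] (coeff (X^F.card)) = psum^[m] (coeff (X^F.card * (1 - X)^(m - F.card)))`
(`psum_iter_coeff`: `psum^[m] = psum^[F.card] ∘ psum^[m - F.card]`, `Function.iterate_add_apply`);
`psum^[m]` is additive in the function (`psum_iter_sum`).
-/

set_option autoImplicit false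

namespace Pool.Agent.LocG

open Finset

private theorem psum_zero (f : ℕ → ℤ) : psum f 0 = f 0 := by
  simp [psum]

private theorem psum_succ (f : ℕ → ℤ) (n : ℕ) : psum f (n + 1) = psum f n + f (n + 1) := by
  rw [psum, sum_range_succ, ← psum]

theorem psum_coeff (P : Polynomial ℤ) (n : ℕ) :
    psum (fun k => ((1 - Polynomial.X) * P).coeff k) n = P.coeff n := by
  induction n with
  | zero => rw [psum_zero, sub_mul, one_mul, Polynomial.coeff_sub, Polynomial.coeff_X_mul_zero,
      sub_zero]
  | succ n ih => rw [psum_succ, ih, sub_mul, one_mul, Polynomial.coeff_sub,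
      Polynomial.coeff_X_mul, add_sub_cancel]

theorem psum_iter_coeff (P : Polynomial ℤ) (m n : ℕ) :
    (psum^[m] fun k => ((1 - Polynomial.X) ^ m * P).coeff k) n = P.coeff n := by
  induction m generalizing P n with
  | zero => simp
  | succ m ih =>
    rw [Function.iterate_succ_apply']
    have h1 : (psum^[m] fun k => ((1 - Polynomial.X) ^ (m + 1) * P).coeff k) =
        fun k => ((1 - Polynomial.X) * P).coeff k := by
      funext k
      rw [← ih ((1 - Polynomial.X) * P) k, pow_succ, mul_assoc]
    rw [h1, psum_coeff]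

theorem psum_iter_sum {ι : Type} (s : Finset ι) (f : ι → ℕ → ℤ) (m n : ℕ) :
    (psum^[m] fun k => ∑ i ∈ s, f i k) n = ∑ i ∈ s, (psum^[m] (f i)) n := by
  induction m generalizing n with
  | zero => rfl
  | succ m ih =>
    rw [Function.iterate_succ_apply']
    have h1 : (psum^[m] fun k => ∑ i ∈ s, f i k) = fun k => ∑ i ∈ s, (psum^[m] (f i)) k :=
      funext ih
    rw [h1, psum, sum_comm]
    refine sum_congr rfl fun i _ => ?_
    rw [Function.iterate_succ_apply', psum]

/-- the shift by one -/
private def shf (f : ℕ → ℤ) : ℕ → ℤ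
  | 0 => 0
  | n + 1 => f n

private theorem psum_shf (f : ℕ → ℤ) : psum (shf f) = shf (psum f) := by
  funext n
  cases n with
  | zero => rw [psum_zero]; rfl
  | succ n =>
    rw [psum, sum_range_succ']
    change ∑ i ∈ range (n + 1), f i + 0 = psum f n
    rw [add_zero, psum]

private theorem iter_shf (f : ℕ → ℤ) (k : ℕ) : psum^[k] (shf f) = shf (psum^[k] f) := by
  induction k with
  | zero => rfl
  | succ k ih => rw [Function.iterate_succ_apply', ih, psum_shf, Function.iterate_succ_apply']

private theorem shf_coeff (k : ℕ) :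
    (fun i => ((Polynomial.X : Polynomial ℤ) ^ (k + 1)).coeff i) =
      shf (fun i => ((Polynomial.X : Polynomial ℤ) ^ k).coeff i) := by
  funext i
  cases i with
  | zero =>
    rw [pow_succ', Polynomial.coeff_X_mul_zero]
    rfl
  | succ i =>
    rw [pow_succ', Polynomial.coeff_X_mul]
    rfl

section

variable {Nd V K : Type} [Fintype Nd] [DecidableEq Nd] [Fintype V] [DecidableEq V] [Field K]

private instance fin_deg (q : Finset Nd → Prop) (n : ℕ) :
    Finite {m : Nd →₀ ℕ // m.degree = n ∧ q m.support} := by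
  have h : ∀ m : {m : Nd →₀ ℕ // m.degree = n ∧ q m.support}, ∀ v, m.1 v < n + 1 := by
    intro m v
    have h1 := Finsupp.le_degree v m.1
    rw [m.2.1] at h1
    omega
  refine Finite.of_injective
    (fun m : {m : Nd →₀ ℕ // m.degree = n ∧ q m.support} =>
      (fun v => (⟨m.1 v, h m v⟩ : Fin (n + 1)))) fun m m' he => ?_
  refine Subtype.ext (Finsupp.ext fun v => ?_)
  exact congrArg Fin.val (congrFun he v)

private instance fin_supp (F : Finset Nd) (n : ℕ) :
    Finite {m : Nd →₀ ℕ // m.degree = n ∧ m.support = F} :=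
  fin_deg (fun G => G = F) n

omit [Fintype Nd] in
private theorem supp_add (m : Nd →₀ ℕ) (v : Nd) :
    (m + Finsupp.single v 1).support = insert v m.support := by
  ext w
  rw [Finsupp.mem_support_iff, Finsupp.add_apply, mem_insert, Finsupp.mem_support_iff]
  by_cases h : w = v
  · subst h
    simp
  · rw [Finsupp.single_eq_of_ne h, add_zero]
    simp [h]

omit [Fintype Nd] [DecidableEq Nd] in
private theorem card_zero {F : Finset Nd} (hF : F.Nonempty) :
    Nat.card {m : Nd →₀ ℕ // m.degree = 0 ∧ m.support = F} = 0 := by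
  rw [Nat.card_eq_zero]
  left
  refine ⟨fun m => ?_⟩
  obtain ⟨h1, h2⟩ := m.2
  rw [Finsupp.degree_eq_zero_iff] at h1
  rw [h1, Finsupp.support_zero] at h2
  rw [← h2] at hF
  exact not_nonempty_empty hF

private theorem card_succ {F : Finset Nd} {v : Nd} (hv : v ∉ F) (n : ℕ) :
    Nat.card {m : Nd →₀ ℕ // m.degree = n + 1 ∧ m.support = insert v F} =
      Nat.card {m : Nd →₀ ℕ // m.degree = n ∧ m.support = insert v F} +
        Nat.card {m : Nd →₀ ℕ // m.degree = n ∧ m.support = F} := by
  have hdeg : ∀ m : Nd →₀ ℕ, (m + Finsupp.single v 1).degree = m.degree + 1 := by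
    intro m
    rw [map_add, Finsupp.degree_single]
  rw [← Nat.card_sum]
  symm
  refine Nat.card_congr (Equiv.ofBijective (fun x => ?_) ⟨?_, ?_⟩)
  · exact x.elim (fun m => ⟨m.1 + Finsupp.single v 1, by rw [hdeg, m.2.1], by
      rw [supp_add, m.2.2, insert_idem]⟩) (fun m => ⟨m.1 + Finsupp.single v 1, by
      rw [hdeg, m.2.1], by rw [supp_add, m.2.2]⟩)
  · rintro (m | m) (m' | m') he
    · have h1 : m.1 = m'.1 := add_right_cancel (congrArg Subtype.val he)
      rw [Subtype.ext h1]
    · exfalso
      have h1 : m.1 = m'.1 := add_right_cancel (congrArg Subtype.val he)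
      have h2 := m.2.2
      rw [h1, m'.2.2] at h2
      exact hv (h2 ▸ mem_insert_self v F)
    · exfalso
      have h1 : m.1 = m'.1 := add_right_cancel (congrArg Subtype.val he)
      have h2 := m'.2.2
      rw [← h1, m.2.2] at h2
      exact hv (h2 ▸ mem_insert_self v F)
    · have h1 : m.1 = m'.1 := add_right_cancel (congrArg Subtype.val he)
      rw [Subtype.ext h1]
  · rintro ⟨m, h1, h2⟩
    have hmv : m v ≠ 0 := by
      rw [← Finsupp.mem_support_iff, h2]
      exact mem_insert_self v F
    have h3 : m - Finsupp.single v 1 + Finsupp.single v 1 = m := by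
      refine tsub_add_cancel_of_le ?_
      rw [Finsupp.single_le_iff]
      omega
    have h4 : (m - Finsupp.single v 1).degree = n := by
      have := hdeg (m - Finsupp.single v 1)
      rw [h3, h1] at this
      omega
    have h5 : insert v (m - Finsupp.single v 1).support = insert v F := by
      rw [← supp_add, h3, h2]
    by_cases hc : v ∈ (m - Finsupp.single v 1).support
    · rw [insert_eq_of_mem hc] at h5
      exact ⟨Sum.inl ⟨m - Finsupp.single v 1, h4, h5⟩, Subtype.ext h3⟩
    · have h6 : (m - Finsupp.single v 1).support = F := by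
        rw [← erase_insert hc, h5, erase_insert hv]
      exact ⟨Sum.inr ⟨m - Finsupp.single v 1, h4, h6⟩, Subtype.ext h3⟩

theorem card_supp (F : Finset Nd) (n : ℕ) :
    (Nat.card {m : Nd →₀ ℕ // m.degree = n ∧ m.support = F} : ℤ) =
      (psum^[F.card] fun k => ((Polynomial.X : Polynomial ℤ) ^ F.card).coeff k) n := by
  induction F using Finset.induction_on generalizing n with
  | empty =>
    rw [card_empty, Function.iterate_zero, id_eq, pow_zero, Polynomial.coeff_one]
    by_cases h : n = 0
    · rw [if_pos h, h]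
      have : Unique {m : Nd →₀ ℕ // m.degree = 0 ∧ m.support = ∅} :=
        ⟨⟨⟨0, by simp, by simp⟩⟩, fun m => Subtype.ext (Finsupp.support_eq_empty.1 m.2.2)⟩
      rw [Nat.card_unique, Nat.cast_one]
    · rw [if_neg h, Nat.cast_eq_zero, Nat.card_eq_zero]
      left
      refine ⟨fun m => h ?_⟩
      rw [← m.2.1, Finsupp.support_eq_empty.1 m.2.2, map_zero]
  | insert v F hv ih =>
    rw [card_insert_of_notMem hv, shf_coeff, iter_shf, Function.iterate_succ_apply']
    have h1 : (psum^[F.card] fun k => ((Polynomial.X : Polynomial ℤ) ^ F.card).coeff k) =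
        fun n => (Nat.card {m : Nd →₀ ℕ // m.degree = n ∧ m.support = F} : ℤ) :=
      funext fun n => (ih n).symm
    rw [h1]
    induction n with
    | zero =>
      rw [card_zero (insert_nonempty v F)]
      rfl
    | succ n ihn =>
      rw [card_succ hv, Nat.cast_add, ihn]
      cases n with
      | zero =>
        change (0 : ℤ) + _ = psum _ 0
        rw [psum_zero, zero_add]
      | succ n =>
        change psum _ n + _ = psum _ (n + 1)
        rw [psum_succ]

private theorem iter_term (m c : ℕ) (h : c ≤ m) (n : ℕ) :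
    (psum^[m] fun k => ((Polynomial.X : Polynomial ℤ) ^ c * (1 - Polynomial.X) ^ (m - c)).coeff k)
      n = (psum^[c] fun k => ((Polynomial.X : Polynomial ℤ) ^ c).coeff k) n := by
  obtain ⟨d, rfl⟩ := Nat.exists_eq_add_of_le h
  rw [Nat.add_sub_cancel_left, Function.iterate_add_apply]
  have h1 : (psum^[d] fun k =>
      ((Polynomial.X : Polynomial ℤ) ^ c * (1 - Polynomial.X) ^ d).coeff k) =
      fun k => ((Polynomial.X : Polynomial ℤ) ^ c).coeff k := by
    funext k
    rw [mul_comm]
    exact psum_iter_coeff _ _ _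
  rw [h1]

omit [DecidableEq Nd] in
private theorem card_split (p : Finset Nd → Prop) [DecidablePred p] (n : ℕ) :
    Nat.card {m : Nd →₀ ℕ // m.degree = n ∧ p m.support} =
      ∑ F ∈ univ.filter p, Nat.card {m : Nd →₀ ℕ // m.degree = n ∧ m.support = F} := by
  have e : {m : Nd →₀ ℕ // m.degree = n ∧ p m.support} ≃
      Σ F : {F : Finset Nd // p F}, {m : Nd →₀ ℕ // m.degree = n ∧ m.support = F.1} :=
    { toFun := fun m => ⟨⟨m.1.support, m.2.2⟩, ⟨m.1, m.2.1, rfl⟩⟩
      invFun := fun x => ⟨x.2.1, x.2.2.1, by rw [x.2.2.2]; exact x.1.2⟩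
      left_inv := fun m => rfl
      right_inv := by
        rintro ⟨⟨F, hF⟩, ⟨m, h1, h2⟩⟩
        change m.support = F at h2
        subst h2
        rfl }
  rw [Nat.card_congr e, Nat.card_sigma,
    ← Finset.sum_subtype (univ.filter p) (fun F => by simp)
      (fun F => Nat.card {m : Nd →₀ ℕ // m.degree = n ∧ m.support = F})]

theorem card_mono (p : Finset Nd → Prop) [DecidablePred p] (m : ℕ)
    (h : ∀ F, p F → F.card ≤ m) (n : ℕ) :
    (Module.finrank K (mf K p n) : ℤ) =
      (psum^[m] fun k => (∑ F ∈ univ.filter p, (Polynomial.X : Polynomial ℤ) ^ F.card *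
        (1 - Polynomial.X) ^ (m - F.card)).coeff k) n := by
  rw [mf_finrank, card_split, Nat.cast_sum]
  have h1 : (fun k => (∑ F ∈ univ.filter p, (Polynomial.X : Polynomial ℤ) ^ F.card *
      (1 - Polynomial.X) ^ (m - F.card)).coeff k) =
      fun k => ∑ F ∈ univ.filter p, ((Polynomial.X : Polynomial ℤ) ^ F.card *
        (1 - Polynomial.X) ^ (m - F.card)).coeff k := by
    funext k
    rw [Polynomial.finsetSum_coeff]
  rw [h1, psum_iter_sum]
  refine sum_congr rfl fun F hF => ?_
  rw [card_supp, iter_term m F.card (h F (mem_filter.1 hF).2)]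

end

end Pool.Agent.LocG
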