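import Pool.Agent.LocG.Reso
import Pool.Agent.LocG.Cnt

/-!
# MP_230912_co, file PolyR: regular sequences of linear forms in `K[σ]` and in direct sums

`opS σ l`: multiplication by the linear form `lf l` followed by the restriction to `K[σ]`.

PROOFS.
`opS_comm`, `sh_opS`: as in Reso.lean (`coeff_rs`, `sh_lf`).
`regSeq_poly`.  Put `A = mf K (· ⊆ σ)`, `s = σ.card`, the list has length `s`.  By `regSeq_iff`
(Hilb.lean; `mf_fd`, `opS_comm`, `sh_opS`) it is enough to show
`dq A ⊥ n = psum^[s] (dq A (⊥ ⊔ gl l A)) n`.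
(i) The restrictions to `σ` of `l 0, .., l (s-1)` are `s` independent vectors of `σ → K`, so a basis; for
`v ∈ σ` there are `κ_j` with `∑_j κ_j l_j u = if u = v then 1 else 0` for `u ∈ σ`; so for a monomial `m'`
with support `⊆ σ`, `X v * m' = ∑_j κ_j • opS σ (l_j) m'` (`rs σ (lf l_j) = ∑_{u ∈ σ} C (l_j u) * X u`).
Every monomial of degree `n + 1` with support `⊆ σ` is `X v * m'` with `v ∈ σ`; hence
`gl l A (n+1) = A (n+1)`, and `gl l A 0 = ⊥`, `A 0` is spanned by `1`: so `dq A (gl l A) n` is `1` for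
`n = 0` and `0` otherwise, i.e. `coeff (1 : ℤ[X]) n`.
(ii) `dq A ⊥ n = finrank (A n) = psum^[s] (coeff (∑_{F ⊆ σ} X^|F| (1-X)^(s-|F|))) n` (`card_mono` with
`p F := F ⊆ σ`, `m = s`), and `∑_{F ⊆ σ} X^|F| (1-X)^(s-|F|) = (X + (1 - X))^s = 1`
(`Finset.sum_pow_mul_eq_add_pow`; `univ.filter (· ⊆ σ) = σ.powerset`).
`regSeq_bot`: `InjQ η ⊥ B` and `⊥ ⊔ ..` : every list is regular for `A = ⊥` (`y = 0`).
`regSeq_pi`: `piF A n = {z | ∀ i, z i ∈ A i n}`.  Induction on the list for all `B`: `InjQ` holds
componentwise; `piF B ⊔ sh (piOp η) (piF A) = piF (fun i => B i ⊔ sh (η i) (A i))`: in degree `0` clear;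
in degree `n + 1` choose for every `i` elements `b i ∈ B i (n+1)`, `x i ∈ A i n` with
`z i = b i + η i (x i)`.
`regSeq_Mk`: `S.Mk K W k = piF (fun σ => if S.int W σ ∧ σ.card + k = W.card then mf K (· ⊆ σ) else ⊥)`,
`op l = piOp (fun σ => opS σ l)`; `regSeq_pi` with `regSeq_poly` (`σ.card = W.card - k`) and
`regSeq_bot`; `⊥ = piF (fun _ => ⊥)`.
-/

set_option autoImplicit false

namespace Pool.Agent.LocG

open Finset

section

variable {ι K E : Type} [Field K] [AddCommGroup E] [Module K E]

/-- the product of graded families -/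
def piF (A : ι → Fam K E) : Fam K (ι → E) := fun n => Submodule.pi Set.univ fun i => A i n

/-- the product of operators -/
def piOp (η : ι → E →ₗ[K] E) : (ι → E) →ₗ[K] (ι → E) :=
  LinearMap.pi fun i => η i ∘ₗ LinearMap.proj i

theorem regSeq_bot (B : Fam K E) (l : List (E →ₗ[K] E)) : RegSeq (⊥ : Fam K E) B l := by
  induction l generalizing B with
  | nil => trivial
  | cons η l ih =>
    refine ⟨fun n y hy _ => ?_, ih _⟩
    have h : y = 0 := hy
    rw [h]
    exact zero_mem _

private theorem mem_piF {A : ι → Fam K E} {n : ℕ} {z : ι → E} :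
    z ∈ piF A n ↔ ∀ i, z i ∈ A i n := by
  unfold piF
  rw [Submodule.mem_pi]
  exact ⟨fun h i => h i trivial, fun h i _ => h i⟩

private theorem piF_step (A B : ι → Fam K E) (η : ι → E →ₗ[K] E) :
    piF B ⊔ sh (piOp η) (piF A) = piF fun i => B i ⊔ sh (η i) (A i) := by
  funext n
  cases n with
  | zero =>
    change piF B 0 ⊔ ⊥ = piF (fun i => B i ⊔ sh (η i) (A i)) 0
    rw [sup_bot_eq]
    ext z
    rw [mem_piF, mem_piF]
    refine forall_congr' fun i => ?_
    change z i ∈ B i 0 ↔ z i ∈ B i 0 ⊔ ⊥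
    rw [sup_bot_eq]
  | succ n =>
    change piF B (n + 1) ⊔ (piF A n).map (piOp η) = piF (fun i => B i ⊔ sh (η i) (A i)) (n + 1)
    ext z
    rw [mem_piF]
    constructor
    · intro hz i
      obtain ⟨b, hb, y, ⟨x, hx, rfl⟩, rfl⟩ := Submodule.mem_sup.1 hz
      change b i + η i (x i) ∈ B i (n + 1) ⊔ (A i n).map (η i)
      exact Submodule.add_mem_sup (mem_piF.1 hb i) (Submodule.mem_map_of_mem (mem_piF.1 hx i))
    · intro h
      have h' : ∀ i, ∃ b ∈ B i (n + 1), ∃ x ∈ A i n, b + η i x = z i := by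
        intro i
        obtain ⟨b, hb, y, ⟨x, hx, rfl⟩, hz⟩ := Submodule.mem_sup.1 (h i)
        exact ⟨b, hb, x, hx, hz⟩
      choose b hb x hx hz using h'
      refine Submodule.mem_sup.2 ⟨b, mem_piF.2 hb, piOp η x,
        Submodule.mem_map_of_mem (mem_piF.2 hx), ?_⟩
      funext i
      exact hz i

theorem regSeq_pi (A B : ι → Fam K E) (l : List (ι → E →ₗ[K] E))
    (h : ∀ i, RegSeq (A i) (B i) (l.map fun η => η i)) :
    RegSeq (piF A) (piF B) (l.map piOp) := by
  induction l generalizing B with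
  | nil => trivial
  | cons η l ih =>
    refine ⟨fun n y hy hy' => ?_, ?_⟩
    · rw [mem_piF] at hy hy' ⊢
      exact fun i => (h i).1 n (y i) (hy i) (hy' i)
    · rw [piF_step]
      exact ih _ fun i => (h i).2

end

section

variable {Nd V K : Type} [Fintype Nd] [DecidableEq Nd] [Fintype V] [DecidableEq V] [Field K]

/-- multiplication by a linear form in `K[σ]` -/
noncomputable def opS (σ : Finset Nd) (l : Nd → K) : MvPolynomial Nd K →ₗ[K] MvPolynomial Nd K :=
  (rs σ).toLinearMap ∘ₗ LinearMap.mulLeft K (lf l)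

private theorem opS_apply (σ : Finset Nd) (l : Nd → K) (f : MvPolynomial Nd K) :
    opS σ l f = rs σ (lf l * f) := rfl

theorem opS_comm (σ : Finset Nd) (l l' : Nd → K) : opS σ l ∘ₗ opS σ l' = opS σ l' ∘ₗ opS σ l := by
  refine LinearMap.ext fun f => ?_
  rw [LinearMap.comp_apply, LinearMap.comp_apply, opS_apply, opS_apply, opS_apply, opS_apply,
    map_mul, rs_rs subset_rfl, map_mul, map_mul, rs_rs subset_rfl, map_mul, mul_left_comm]

theorem sh_opS (σ : Finset Nd) (l : Nd → K) :
    sh (opS σ l) (mf K fun F => F ⊆ σ) ≤ mf K fun F => F ⊆ σ := by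
  intro n
  cases n with
  | zero => exact bot_le
  | succ n =>
    rintro _ ⟨f, hf, rfl⟩ m hm
    have h1 : lf l * f ∈ mf K (fun _ : Finset Nd => True) (n + 1) :=
      sh_lf (l := l) (p := fun F => F ⊆ σ) (q := fun _ => True) (fun _ _ _ _ => trivial) (n + 1)
        (mem_sh.2 ⟨f, hf, rfl⟩)
    rw [opS_apply, coeff_rs] at hm
    split_ifs at hm with h2
    · exact ⟨(h1 m hm).1, h2⟩
    · exact absurd rfl hm

private theorem gl_zero {E : Type} [AddCommGroup E] [Module K E] (L : List (E →ₗ[K] E))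
    (A : Fam K E) : gl L A 0 = ⊥ := by
  induction L with
  | nil => rfl
  | cons η L ih =>
    rw [gl_cons]
    change ⊥ ⊔ gl L A 0 = ⊥
    rw [ih, sup_bot_eq]

private theorem gl_le_of {E : Type} [AddCommGroup E] [Module K E] {L : List (E →ₗ[K] E)}
    {A : Fam K E} (h : ∀ η ∈ L, sh η A ≤ A) : gl L A ≤ A := by
  induction L with
  | nil => exact bot_le
  | cons η L ih =>
    rw [gl_cons]
    exact sup_le (h η List.mem_cons_self) (ih fun a ha => h a (List.mem_cons_of_mem _ ha))

private theorem sh_le_gl {E : Type} [AddCommGroup E] [Module K E] {L : List (E →ₗ[K] E)}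
    {A : Fam K E} {η : E →ₗ[K] E} (h : η ∈ L) : sh η A ≤ gl L A := by
  induction L with
  | nil => exact absurd h List.not_mem_nil
  | cons η' L ih =>
    rw [gl_cons]
    rcases List.mem_cons.1 h with rfl | h
    · exact le_sup_left
    · exact (ih h).trans le_sup_right

omit [Fintype Nd] in
private theorem rs_X (σ : Finset Nd) (u : Nd) :
    rs σ (MvPolynomial.X u : MvPolynomial Nd K) = if u ∈ σ then MvPolynomial.X u else 0 := by
  unfold rs
  rw [MvPolynomial.aeval_X]

private theorem rs_lf (σ : Finset Nd) (w : Nd → K) :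
    rs σ (lf w) = ∑ u ∈ σ, MvPolynomial.C (w u) * MvPolynomial.X u := by
  unfold lf
  rw [map_sum, ← Finset.sum_filter_add_sum_filter_not univ (fun u => u ∈ σ)]
  have h1 : ∑ u ∈ univ.filter (fun u => ¬ u ∈ σ),
      rs σ (MvPolynomial.C (w u) * MvPolynomial.X u) = 0 := by
    refine Finset.sum_eq_zero fun u hu => ?_
    rw [map_mul, rs_X, if_neg (Finset.mem_filter.1 hu).2, mul_zero]
  rw [h1, add_zero, Finset.filter_mem_eq_inter, Finset.univ_inter]
  refine Finset.sum_congr rfl fun u hu => ?_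
  rw [map_mul, rs_X, if_pos hu]
  congr 1
  exact MvPolynomial.algHom_C _ _

private theorem rs_mono (σ : Finset Nd) {m : Nd →₀ ℕ} (h : m.support ⊆ σ) :
    rs σ (MvPolynomial.monomial m (1 : K)) = MvPolynomial.monomial m 1 := by
  refine MvPolynomial.ext _ _ fun m' => ?_
  rw [coeff_rs]
  split_ifs with h1
  · rfl
  · rw [MvPolynomial.coeff_monomial, if_neg]
    rintro rfl
    exact h1 h

private theorem gl_succ (σ : Finset Nd) (l : ℕ → Nd → K)
    (hl : LinearIndependent K fun (j : Fin σ.card) (v : σ) => l j v) (n : ℕ) :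
    gl ((List.range σ.card).map fun j => opS σ (l j)) (mf K fun F => F ⊆ σ) (n + 1) =
      mf K (fun F => F ⊆ σ) (n + 1) := by
  refine le_antisymm ?_ ?_
  · refine gl_le_of (fun η hη => ?_) (n + 1)
    obtain ⟨j, -, rfl⟩ := List.mem_map.1 hη
    exact sh_opS σ (l j)
  · rw [mf_span, Submodule.span_le]
    rintro _ ⟨m, hm, hms, rfl⟩
    have hne : m.support.Nonempty := by
      rw [Finset.nonempty_iff_ne_empty]
      intro h
      rw [Finsupp.support_eq_empty] at h
      rw [h, map_zero] at hm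
      omega
    obtain ⟨v, hv⟩ := hne
    have hvσ : v ∈ σ := hms hv
    obtain ⟨m', rfl⟩ : ∃ m', m = m' + Finsupp.single v 1 := by
      refine ⟨m - Finsupp.single v 1, ?_⟩
      refine (tsub_add_cancel_of_le ?_).symm
      rw [Finsupp.single_le_iff]
      exact Nat.one_le_iff_ne_zero.2 (Finsupp.mem_support_iff.1 hv)
    have hm1 : m'.degree = n := by
      rw [map_add, Finsupp.degree_single] at hm
      omega
    have hms' : m'.support ⊆ σ := by
      intro u hu
      apply hms
      rw [Finsupp.mem_support_iff] at hu ⊢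
      rw [Finsupp.add_apply]
      omega
    have hspan := hl.span_eq_top_of_card_eq_finrank' (by
      rw [Fintype.card_fin, Module.finrank_fintype_fun_eq_card, Fintype.card_coe])
    have hmem : (Pi.single ⟨v, hvσ⟩ 1 : σ → K) ∈
        Submodule.span K (Set.range fun (j : Fin σ.card) (v : σ) => l j v) := by
      rw [hspan]
      trivial
    obtain ⟨κ, hκ⟩ := (Submodule.mem_span_range_iff_exists_fun K).1 hmem
    have hκ' : ∀ u ∈ σ, ∑ j, κ j * l j u = if u = v then 1 else 0 := by
      intro u hu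
      have h1 := congrFun hκ ⟨u, hu⟩
      rw [Finset.sum_apply] at h1
      simp only [Pi.smul_apply, smul_eq_mul] at h1
      rw [h1, Pi.single_apply]
      simp only [Subtype.mk.injEq]
    have hsum : MvPolynomial.monomial (m' + Finsupp.single v 1) (1 : K) =
        ∑ j, κ j • opS σ (l j) (MvPolynomial.monomial m' 1) := by
      have h1 : ∀ j : Fin σ.card, κ j • opS σ (l j) (MvPolynomial.monomial m' 1) =
          (∑ u ∈ σ, MvPolynomial.C (κ j * l j u) * MvPolynomial.X u) *
            MvPolynomial.monomial m' 1 := by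
        intro j
        rw [opS_apply, map_mul, rs_lf, rs_mono σ hms', MvPolynomial.smul_eq_C_mul, ← mul_assoc,
          Finset.mul_sum]
        congr 1
        refine Finset.sum_congr rfl fun u _ => ?_
        rw [MvPolynomial.C_mul, mul_assoc]
      rw [Finset.sum_congr rfl fun j _ => h1 j, ← Finset.sum_mul, Finset.sum_comm]
      have h2 : ∀ u ∈ σ, ∑ j : Fin σ.card, MvPolynomial.C (κ j * l j u) *
          (MvPolynomial.X u : MvPolynomial Nd K) = if u = v then MvPolynomial.X u else 0 := by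
        intro u hu
        rw [← Finset.sum_mul, ← map_sum, hκ' u hu]
        split_ifs with h3
        · rw [map_one, one_mul]
        · rw [map_zero, zero_mul]
      rw [Finset.sum_congr rfl h2, Finset.sum_ite_eq' σ v, if_pos hvσ, mul_comm,
        MvPolynomial.X, MvPolynomial.monomial_mul, one_mul]
    rw [hsum]
    refine Submodule.sum_mem _ fun j _ => Submodule.smul_mem _ _ ?_
    have h3 : sh (opS σ (l j)) (mf K fun F => F ⊆ σ) ≤
        gl ((List.range σ.card).map fun j => opS σ (l j)) (mf K fun F => F ⊆ σ) :=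
      sh_le_gl (List.mem_map.2 ⟨j, List.mem_range.2 j.2, rfl⟩)
    exact h3 (n + 1) (mem_sh.2 ⟨_, mono_mem hm1 hms' 1, rfl⟩)

theorem regSeq_poly (σ : Finset Nd) (l : ℕ → Nd → K)
    (hl : LinearIndependent K fun (j : Fin σ.card) (v : σ) => l j v) :
    RegSeq (mf K fun F => F ⊆ σ) ⊥ ((List.range σ.card).map fun j => opS σ (l j)) := by
  have hmem : ∀ η ∈ (List.range σ.card).map fun j => opS σ (l j), ∃ j, η = opS σ (l j) := by
    intro η hη
    obtain ⟨j, -, rfl⟩ := List.mem_map.1 hη
    exact ⟨j, rfl⟩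
  rw [regSeq_iff (mf_fd _)]
  · intro n
    rw [List.length_map, List.length_range, bot_sup_eq]
    have h1 : (dq (mf K fun F => F ⊆ σ)
        (gl ((List.range σ.card).map fun j => opS σ (l j)) (mf K fun F => F ⊆ σ))) =
        fun k => (1 : Polynomial ℤ).coeff k := by
      funext k
      cases k with
      | zero =>
        have h2 : Nat.card {m : Nd →₀ ℕ // m.degree = 0 ∧ m.support ⊆ σ} = 1 := by
          rw [Nat.card_eq_one_iff_unique]
          refine ⟨⟨fun a b => ?_⟩, ⟨⟨0, by simp⟩⟩⟩
          have ha := (Finsupp.degree_eq_zero_iff _).1 a.2.1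
          have hb := (Finsupp.degree_eq_zero_iff _).1 b.2.1
          exact Subtype.ext (ha.trans hb.symm)
        unfold dq
        rw [gl_zero, finrank_bot, mf_finrank, h2, Polynomial.coeff_one_zero]
        norm_num
      | succ k =>
        unfold dq
        rw [gl_succ σ l hl, sub_self, Polynomial.coeff_one, if_neg (by omega)]
    rw [h1]
    unfold dq
    have h3 : (⊥ : Fam K (MvPolynomial Nd K)) n = ⊥ := rfl
    rw [h3, finrank_bot, Nat.cast_zero, sub_zero,
      card_mono (fun F => F ⊆ σ) σ.card (fun F hF => Finset.card_le_card hF) n]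
    have h4 : ∑ F ∈ univ.filter (fun F => F ⊆ σ), (Polynomial.X : Polynomial ℤ) ^ F.card *
        (1 - Polynomial.X) ^ (σ.card - F.card) = 1 := by
      have h5 : univ.filter (fun F => F ⊆ σ) = σ.powerset := by
        ext F
        simp
      rw [h5, Finset.sum_pow_mul_eq_add_pow, add_sub_cancel, one_pow]
    rw [h4]
  · intro η hη η' hη'
    obtain ⟨j, rfl⟩ := hmem η hη
    obtain ⟨j', rfl⟩ := hmem η' hη'
    exact opS_comm σ _ _
  · intro η hη
    obtain ⟨j, rfl⟩ := hmem η hη
    exact sh_opS σ _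
  · intro η _
    rw [sh_bot]
  · exact bot_le

theorem regSeq_Mk (S : Sub Nd V) (W : Finset V) (k : ℕ) (l : ℕ → Nd → K)
    (hl : ∀ σ, S.int W σ → σ.card + k = W.card →
      LinearIndependent K fun (j : Fin (W.card - k)) (v : σ) => l j v) :
    RegSeq (S.Mk K W k) ⊥ ((List.range (W.card - k)).map fun j => op (l j)) := by
  have h1 : S.Mk K W k = piF fun σ =>
      if S.int W σ ∧ σ.card + k = W.card then mf K (fun F => F ⊆ σ) else ⊥ := by
    funext n
    ext z
    rw [mem_piF]
    change (∀ σ, _ ∧ _) ↔ _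
    refine forall_congr' fun σ => ?_
    by_cases h : S.int W σ ∧ σ.card + k = W.card
    · rw [if_pos h]
      exact ⟨fun h2 => h2.1 h, fun h2 => ⟨fun _ => h2, fun h3 => absurd h h3⟩⟩
    · rw [if_neg h]
      exact ⟨fun h2 => h2.2 h, fun h2 => ⟨fun h3 => absurd h3 h, fun _ => h2⟩⟩
  have h2 : (⊥ : Fam K (EE Nd K)) = piF fun _ => ⊥ := by
    funext n
    ext z
    rw [mem_piF]
    constructor
    · intro h i
      have h3 : z = 0 := h
      rw [h3]
      exact zero_mem _
    · intro h
      have h3 : z = 0 := funext fun i => h i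
      rw [h3]
      exact zero_mem _
  have h3 : ((List.range (W.card - k)).map fun j => op (l j)) =
      ((List.range (W.card - k)).map fun j σ => opS σ (l j)).map piOp := by
    rw [List.map_map]
    rfl
  rw [h1, h2, h3]
  refine regSeq_pi _ _ _ fun σ => ?_
  rw [List.map_map]
  by_cases h : S.int W σ ∧ σ.card + k = W.card
  · rw [if_pos h]
    have h4 := hl σ h.1 h.2
    have h5 : W.card - k = σ.card := by omega
    rw [h5] at h4 ⊢
    exact regSeq_poly σ l h4
  · rw [if_neg h]
    exact regSeq_bot _ _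

end

end Pool.Agent.LocG
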