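import Pool.Agent.LocG.Hilb

/-! # MP_230912_co, file Trans: transport of regular sequences; short exact sequences

PROOFS. `mapF f A n = (A n).map f`. `regSeq_map`: `B ≤ A`, `A` stable under the operators `θ i`, `i
∈ l`, and `f` intertwines `θ i` and `θ' i`.  Claim: `RegSeq (mapF f A) (mapF f B) (l.map θ') ↔
RegSeq A (B ⊔ (A ⊓ kerF f)) (l.map θ)`, where `kerF f n = ker f`.  Induction on `l` for all `B`.
For `y ∈ A n`: `θ' (f y) = f (θ y) ∈ f (B (n+1))` iff `θ y ∈ B (n+1) + ker f` iff (as `θ y ∈ A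
(n+1)` and `B ≤ A`, modular law) `θ y ∈ (B ⊔ (A ⊓ kerF f)) (n+1)`; the same in degree `n` for `y`.
So `InjQ (θ' i) (mapF f A) (mapF f B) ↔ InjQ (θ i) A (B ⊔ (A ⊓ kerF f))`.  Next `mapF f B ⊔ sh (θ'
i) (mapF f A) = mapF f (B ⊔ sh (θ i) A)` (degreewise, `Submodule.map_comp`, `Submodule.map_sup`)
and `B ⊔ (A ⊓ kerF f) ⊔ sh (θ i) A = (B ⊔ sh (θ i) A) ⊔ (A ⊓ kerF f)`; induction hypothesis for `B
⊔ sh (θ i) A ≤ A`. `regSeq_inf`: `RegSeq (A ⊔ X) X l → RegSeq A (A ⊓ X) l` if `A` and `X` are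
stable under `l`. More generally, by induction on `l`, for all `X ⊇ X₀`... use the statement: for
all stable `X`, `A'' = A ⊔ X`.  First operator: `y ∈ A n`, `η y ∈ (A ⊓ X)(n+1)` gives `y ∈ X n`, so
`y ∈ (A ⊓ X) n`.  Rest: `X₁ = X ⊔ sh η (A ⊔ X) = X ⊔ sh η A` (as `sh η X ≤ X`) is stable, `A ⊔ X₁ =
A ⊔ X`, and `A ⊓ X₁ = (A ⊓ X) ⊔ sh η A` (modular law, `sh η A ≤ A`); induction hypothesis for `X₁`.
`regSeq_N` (short exact sequences).  `B ≤ A' ≤ A`, all three stable under `l ++ [η]`, operators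
commute, `RegSeq A B (l ++ [η])`, `RegSeq A A' l`.  Then `RegSeq A' B (l ++ [η])`.  Induction on
`l` for all `A, A', B`.  `l = []`: `InjQ η A B` restricts to `A'`.  `l = η₁ :: l₁`: `InjQ η₁ A' B`
is clear. `A' ⊓ (B ⊔ sh η₁ A) = B ⊔ sh η₁ A'`: if `y = β + η₁ x ∈ A' (n+1)` with `β ∈ B`, `x ∈ A
n`, then `η₁ x ∈ A' (n+1)`, so `x ∈ A' n` because `InjQ η₁ A A'` (degree `0` is clear).  The
induction hypothesis for `(A, A' ⊔ sh η₁ A, B ⊔ sh η₁ A)`, `l₁` (`RegSeq A (B ⊔ sh η₁ A) (l₁ ++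
[η])` and `RegSeq A (A' ⊔ sh η₁ A) l₁` are given) gives `RegSeq (A' ⊔ sh η₁ A) (B ⊔ sh η₁ A) (l₁ ++
[η])`.  As `A' ⊔ sh η₁ A = A' ⊔ (B ⊔ sh η₁ A)`, `regSeq_inf` with `A := A'`, `X := B ⊔ sh η₁ A`
gives `RegSeq A' (B ⊔ sh η₁ A') (l₁ ++ [η])`. -/

set_option autoImplicit false

namespace Pool.Agent.LocG

open Finset

section

variable {K E E' ι : Type} [Field K] [AddCommGroup E] [Module K E] [AddCommGroup E'] [Module K E']

/-- the image of a family -/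
def mapF (f : E →ₗ[K] E') (A : Fam K E) : Fam K E' := fun n => (A n).map f

/-- the kernel as a constant family -/
def kerF (f : E →ₗ[K] E') : Fam K E := fun _ => LinearMap.ker f

private theorem mem_map_iff {f : E →ₗ[K] E'} {A B : Fam K E} (hBA : B ≤ A) {n : ℕ} {z : E}
    (hz : z ∈ A n) : f z ∈ mapF f B n ↔ z ∈ (B ⊔ (A ⊓ kerF f)) n := by
  constructor
  · rintro ⟨b, hb, hfb⟩
    refine Submodule.mem_sup.2 ⟨b, hb, z - b, ⟨(A n).sub_mem hz (hBA n hb), ?_⟩, by abel⟩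
    show f (z - b) = 0
    rw [map_sub, hfb, sub_self]
  · intro h
    obtain ⟨b, hb, k, ⟨-, hk⟩, rfl⟩ := Submodule.mem_sup.1 h
    refine ⟨b, hb, ?_⟩
    have hk' : f k = 0 := hk
    rw [map_add, hk', add_zero]

theorem regSeq_map {θ : ι → E →ₗ[K] E} {θ' : ι → E' →ₗ[K] E'} (f : E →ₗ[K] E')
    (hf : ∀ i, f ∘ₗ θ i = θ' i ∘ₗ f) {A B : Fam K E} (l : List ι)
    (hA : ∀ i ∈ l, sh (θ i) A ≤ A) (hBA : B ≤ A) :
    RegSeq (mapF f A) (mapF f B) (l.map θ') ↔ RegSeq A (B ⊔ (A ⊓ kerF f)) (l.map θ) := by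
  induction l generalizing B with
  | nil => exact Iff.rfl
  | cons i l ih =>
    have hAi : ∀ n, ∀ y ∈ A n, θ i y ∈ A (n + 1) := by
      intro n y hy
      exact hA i List.mem_cons_self (n + 1) (Submodule.mem_map_of_mem hy)
    have hfi : ∀ y, f (θ i y) = θ' i (f y) := fun y => LinearMap.congr_fun (hf i) y
    have e1 : InjQ (θ' i) (mapF f A) (mapF f B) ↔ InjQ (θ i) A (B ⊔ (A ⊓ kerF f)) := by
      constructor
      · intro h n y hy hy2
        have h2 := (mem_map_iff hBA (hAi n y hy)).2 hy2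
        rw [hfi] at h2
        exact (mem_map_iff hBA hy).1 (h n (f y) (Submodule.mem_map_of_mem hy) h2)
      · rintro h n _ ⟨y, hy, rfl⟩ h2
        rw [← hfi] at h2
        have h3 := (mem_map_iff hBA (hAi n y hy)).1 h2
        exact (mem_map_iff hBA hy).2 (h n y hy h3)
    have e2 : mapF f B ⊔ sh (θ' i) (mapF f A) = mapF f (B ⊔ sh (θ i) A) := by
      funext n
      cases n with
      | zero =>
        show (B 0).map f ⊔ ⊥ = (B 0 ⊔ ⊥).map f
        rw [sup_bot_eq, sup_bot_eq]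
      | succ n =>
        show (B (n + 1)).map f ⊔ ((A n).map f).map (θ' i) =
          (B (n + 1) ⊔ (A n).map (θ i)).map f
        rw [Submodule.map_sup, ← Submodule.map_comp, ← Submodule.map_comp, hf]
    have e3 : (B ⊔ sh (θ i) A) ⊔ (A ⊓ kerF f) = (B ⊔ (A ⊓ kerF f)) ⊔ sh (θ i) A :=
      sup_right_comm _ _ _
    have e4 := ih (B := B ⊔ sh (θ i) A) (fun j hj => hA j (List.mem_cons_of_mem _ hj))
      (sup_le hBA (hA i List.mem_cons_self))
    rw [← e2, e3] at e4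
    exact and_congr e1 e4

private theorem sh_stable {η η' : E →ₗ[K] E} {X A : Fam K E} (hc : η' ∘ₗ η = η ∘ₗ η')
    (hX : sh η' X ≤ X) (hA : sh η' A ≤ A) : sh η' (X ⊔ sh η A) ≤ X ⊔ sh η A := by
  rw [sh_sup, sh_comm hc]
  exact sup_le_sup hX (sh_mono η hA)

theorem regSeq_inf {A X : Fam K E} {l : List (E →ₗ[K] E)} (hA : ∀ η ∈ l, sh η A ≤ A)
    (hl : ∀ η ∈ l, ∀ η' ∈ l, η ∘ₗ η' = η' ∘ₗ η) (hX : ∀ η ∈ l, sh η X ≤ X)
    (hr : RegSeq (A ⊔ X) X l) : RegSeq A (A ⊓ X) l := by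
  induction l generalizing X with
  | nil => trivial
  | cons η l ih =>
    obtain ⟨h1, h2⟩ := hr
    refine ⟨?_, ?_⟩
    · intro n y hy hy2
      exact ⟨hy, h1 n y (Submodule.mem_sup_left hy) hy2.2⟩
    · have hηA : sh η A ≤ A := hA η List.mem_cons_self
      have hηX : sh η X ≤ X := hX η List.mem_cons_self
      have e1 : X ⊔ sh η (A ⊔ X) = X ⊔ sh η A := by
        rw [sh_sup, sup_comm (sh η A), ← sup_assoc, sup_eq_left.2 hηX]
      have e2 : A ⊔ (X ⊔ sh η A) = A ⊔ X := by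
        rw [sup_comm X, ← sup_assoc, sup_eq_left.2 hηA]
      have e3 : A ⊓ (X ⊔ sh η A) = (A ⊓ X) ⊔ sh η A := by
        funext n
        show A n ⊓ (X n ⊔ sh η A n) = (A n ⊓ X n) ⊔ sh η A n
        rw [sup_comm (X n), inf_comm (A n), sup_inf_assoc_of_le _ (hηA n), sup_comm, inf_comm]
      rw [e1] at h2
      have h3 := ih (X := X ⊔ sh η A) (fun η' h => hA η' (List.mem_cons_of_mem _ h))
        (fun α hα β hβ => hl α (List.mem_cons_of_mem _ hα) β (List.mem_cons_of_mem _ hβ))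
        (fun η' h => sh_stable (hl η' (List.mem_cons_of_mem _ h) η List.mem_cons_self)
          (hX η' (List.mem_cons_of_mem _ h)) (hA η' (List.mem_cons_of_mem _ h)))
        (by rw [e2]; exact h2)
      rw [e3] at h3
      exact h3

theorem regSeq_N {A A' B : Fam K E} {l : List (E →ₗ[K] E)} {η : E →ₗ[K] E}
    (hl : ∀ α ∈ l ++ [η], ∀ β ∈ l ++ [η], α ∘ₗ β = β ∘ₗ α) (hA : ∀ α ∈ l ++ [η], sh α A ≤ A)
    (hA' : ∀ α ∈ l ++ [η], sh α A' ≤ A') (hB : ∀ α ∈ l ++ [η], sh α B ≤ B) (h1 : B ≤ A')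
    (h2 : A' ≤ A) (hr : RegSeq A B (l ++ [η])) (hr' : RegSeq A A' l) :
    RegSeq A' B (l ++ [η]) := by
  induction l generalizing A A' B with
  | nil =>
    obtain ⟨h3, -⟩ := hr
    exact ⟨fun n y hy hy2 => h3 n y (h2 n hy) hy2, trivial⟩
  | cons η₁ l₁ ih =>
    obtain ⟨r1, r2⟩ := hr
    obtain ⟨r1', r2'⟩ := hr'
    have hm1 : η₁ ∈ η₁ :: l₁ ++ [η] := by simp
    have hms : ∀ α ∈ l₁ ++ [η], α ∈ η₁ :: l₁ ++ [η] := by
      intro α hα
      exact List.mem_cons_of_mem _ hα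
    have sA := hA η₁ hm1
    have sA' := hA' η₁ hm1
    have h3 := ih (A := A) (A' := A' ⊔ sh η₁ A) (B := B ⊔ sh η₁ A)
      (fun α hα β hβ => hl α (hms α hα) β (hms β hβ)) (fun α hα => hA α (hms α hα))
      (fun α hα => sh_stable (hl α (hms α hα) η₁ hm1) (hA' α (hms α hα)) (hA α (hms α hα)))
      (fun α hα => sh_stable (hl α (hms α hα) η₁ hm1) (hB α (hms α hα)) (hA α (hms α hα)))
      (sup_le_sup_right h1 _) (sup_le h2 sA) r2 r2'
    have e1 : A' ⊔ (B ⊔ sh η₁ A) = A' ⊔ sh η₁ A := by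
      rw [← sup_assoc, sup_eq_left.2 h1]
    have h4 := regSeq_inf (A := A') (X := B ⊔ sh η₁ A) (l := l₁ ++ [η])
      (fun α hα => hA' α (hms α hα)) (fun α hα β hβ => hl α (hms α hα) β (hms β hβ))
      (fun α hα => sh_stable (hl α (hms α hα) η₁ hm1) (hB α (hms α hα)) (hA α (hms α hα)))
      (by rw [e1]; exact h3)
    have e2 : A' ⊓ (B ⊔ sh η₁ A) = B ⊔ sh η₁ A' := by
      apply le_antisymm
      · intro n
        cases n with
        | zero =>
          rintro y ⟨-, hy⟩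
          exact hy
        | succ n =>
          rintro y ⟨hy, hy2⟩
          obtain ⟨β, hβ, z, ⟨x, hx, rfl⟩, rfl⟩ := Submodule.mem_sup.1 hy2
          have hz : η₁ x ∈ A' (n + 1) := by
            have := (A' (n + 1)).sub_mem hy (h1 (n + 1) hβ)
            rwa [add_sub_cancel_left] at this
          exact Submodule.mem_sup.2 ⟨β, hβ, η₁ x,
            Submodule.mem_map_of_mem (r1' n x hx hz), rfl⟩
      · exact le_inf (sup_le h1 sA') (sup_le_sup_left (sh_mono η₁ h2) _)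
    rw [e2] at h4
    exact ⟨fun n y hy hy2 => r1 n y (h2 n hy) hy2, h4⟩

end

end Pool.Agent.LocG
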