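import Pool.Agent.LocG.SubM
import Pool.Agent.LocG.Trans

/-!
# MP_230912_co, file Reso: the complex of the rings `K[σ]`

The ambient space is `EE = Finset Nd → MvPolynomial Nd K` (a polynomial for every set of vertices).
`rs σ` sets the variables outside `σ` to `0`; `op l` multiplies by the linear form `lf l` and restricts;
`Mk S W k` consists of the families `z` with `z σ ∈ K[σ]` (degree `n`) for the `W`-interior faces `σ`
with `|W| - k` vertices and `z σ = 0` otherwise; `dd S W` is the boundary map, `ff S W` sends `f` to the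
restrictions to the facets of `Γ_W`.

PROOFS.
`coeff_rs`: by linearity for monomials: `rs σ (monomial m r) = r ∏_{v} (if v ∈ σ then X v else 0)^{m v}`
is `monomial m r` if `m.support ⊆ σ` and `0` otherwise (`MvPolynomial.aeval_monomial`).
`rs_rs`: `coeff_rs`.
`op_comm`: `op l (op l' z) σ = rs σ (lf l * rs σ (lf l' * z σ)) = rs σ (lf l) * rs σ (lf l') * rs σ (z σ)`.
`dd_op`: for `τ ⊆ σ`, `rs τ (rs σ (lf l * z σ)) = rs τ (lf l) * rs τ (z σ)` (`rs_rs`) and
`rs τ (lf l * ∑ rs τ (z σ)) = rs τ (lf l) * ∑ rs τ (z σ)`.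
`ff_op`: `rs σ (lf l * f) = rs σ (lf l * rs σ f)`.
`sh_op_Mk`: multiplication by a linear form raises the degree by one; the support of a monomial of
`rs σ (..)` is in `σ` (`coeff_rs`, `sh_lf`).
`dd_Mk`: `S.int W τ` and `σ ∈ S.up W τ` imply `σ.card = τ.card + 1`; if `τ.card + (k + 1) ≠ W.card` then
`σ.card + k ≠ W.card` and `z σ = 0`.
`Mk_fd`: `Mk S W k n` embeds in the finite product of the finite dimensional spaces `mf K _ n`
(`mf_fd`); a submodule of a finite dimensional space
(`Submodule.pi` / `FiniteDimensional.of_injective` to `∀ σ, mf K (· ⊆ σ) n`).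
-/

set_option autoImplicit false

namespace Pool.Agent.LocG

open Finset

section

variable {Nd V K : Type} [Fintype Nd] [DecidableEq Nd] [Fintype V] [DecidableEq V] [Field K]

/-- the restriction to `K[σ]` -/
noncomputable def rs (σ : Finset Nd) : MvPolynomial Nd K →ₐ[K] MvPolynomial Nd K :=
  MvPolynomial.aeval fun v => if v ∈ σ then MvPolynomial.X v else 0

variable (Nd K) in
/-- families of polynomials -/
abbrev EE : Type := Finset Nd → MvPolynomial Nd K

/-- multiplication by a linear form and restriction -/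
noncomputable def op (l : Nd → K) : EE Nd K →ₗ[K] EE Nd K :=
  LinearMap.pi fun σ => (rs σ).toLinearMap ∘ₗ LinearMap.mulLeft K (lf l) ∘ₗ LinearMap.proj σ

theorem op_apply (l : Nd → K) (z : EE Nd K) (σ : Finset Nd) :
    op l z σ = rs σ (lf l * z σ) := rfl

namespace Sub

variable (S : Sub Nd V)

variable (K) in
/-- the direct sum of the `K[σ]`, `σ` interior with `|W| - k` vertices -/
noncomputable def Mk (W : Finset V) (k : ℕ) : Fam K (EE Nd K) := fun n =>
  { carrier := {z | ∀ σ, (S.int W σ ∧ σ.card + k = W.card → z σ ∈ mf K (fun F => F ⊆ σ) n) ∧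
      (¬(S.int W σ ∧ σ.card + k = W.card) → z σ = 0)}
    add_mem' := by
      intro z z' h h' σ
      refine ⟨fun hs => (mf K (fun F => F ⊆ σ) n).add_mem ((h σ).1 hs) ((h' σ).1 hs),
        fun hs => ?_⟩
      show z σ + z' σ = 0
      rw [(h σ).2 hs, (h' σ).2 hs, add_zero]
    zero_mem' := fun σ => ⟨fun _ => (mf K (fun F => F ⊆ σ) n).zero_mem, fun _ => rfl⟩
    smul_mem' := by
      intro r z h σ
      refine ⟨fun hs => (mf K (fun F => F ⊆ σ) n).smul_mem r ((h σ).1 hs), fun hs => ?_⟩
      show r • z σ = 0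
      rw [(h σ).2 hs, smul_zero] }

variable (K) in
/-- the boundary map -/
noncomputable def dd (W : Finset V) : EE Nd K →ₗ[K] EE Nd K :=
  LinearMap.pi fun τ => if S.int W τ then
    ∑ σ ∈ S.up W τ, (rs τ).toLinearMap ∘ₗ LinearMap.proj σ else 0

variable (K) in
/-- the restriction to the facets -/
noncomputable def ff (W : Finset V) : MvPolynomial Nd K →ₗ[K] EE Nd K :=
  LinearMap.pi fun σ => if S.int W σ ∧ σ.card = W.card then (rs σ).toLinearMap else 0

end Sub

private theorem rs_monomial (σ : Finset Nd) (u : Nd →₀ ℕ) (r : K) :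
    rs σ (MvPolynomial.monomial u r) =
      if u.support ⊆ σ then MvPolynomial.monomial u r else 0 := by
  unfold rs
  rw [MvPolynomial.aeval_monomial]
  split_ifs with h
  · rw [MvPolynomial.monomial_eq, MvPolynomial.algebraMap_eq]
    congr 1
    refine Finset.prod_congr rfl fun v hv => ?_
    beta_reduce
    rw [if_pos (h hv)]
  · obtain ⟨v, hv, hv'⟩ := Finset.not_subset.1 h
    have h0 : (u.prod fun i k => (if i ∈ σ then (MvPolynomial.X i : MvPolynomial Nd K) else 0) ^ k)
        = 0 := by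
      refine Finset.prod_eq_zero hv ?_
      beta_reduce
      rw [if_neg hv', zero_pow (Finsupp.mem_support_iff.1 hv)]
    rw [h0, mul_zero]

theorem coeff_rs (σ : Finset Nd) (f : MvPolynomial Nd K) (m : Nd →₀ ℕ) :
    (rs σ f).coeff m = if m.support ⊆ σ then f.coeff m else 0 := by
  induction f using MvPolynomial.induction_on' with
  | monomial u r =>
    rw [rs_monomial]
    by_cases hu : u.support ⊆ σ
    · rw [if_pos hu]
      split_ifs with hm
      · rfl
      · rw [MvPolynomial.coeff_monomial, if_neg]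
        rintro rfl
        exact hm hu
    · rw [if_neg hu, MvPolynomial.coeff_zero]
      split_ifs with hm
      · rw [MvPolynomial.coeff_monomial, if_neg]
        rintro rfl
        exact hu hm
      · rfl
  | add p q hp hq =>
    rw [map_add, MvPolynomial.coeff_add, hp, hq]
    split_ifs with hm
    · rw [MvPolynomial.coeff_add]
    · rw [add_zero]

theorem rs_rs {τ σ : Finset Nd} (h : τ ⊆ σ) (f : MvPolynomial Nd K) :
    rs τ (rs σ f) = rs τ f := by
  ext m
  rw [coeff_rs, coeff_rs, coeff_rs]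
  split_ifs with h1 h2
  · rfl
  · exact absurd (h1.trans h) h2
  · rfl

theorem op_comm (l l' : Nd → K) : op l ∘ₗ op l' = op l' ∘ₗ op l := by
  refine LinearMap.ext fun z => funext fun σ => ?_
  rw [LinearMap.comp_apply, LinearMap.comp_apply, op_apply, op_apply, op_apply, op_apply,
    map_mul, rs_rs (Subset.refl σ), map_mul, map_mul, rs_rs (Subset.refl σ), map_mul,
    mul_left_comm]

private theorem mf_rs {p : Finset Nd → Prop} {n : ℕ} {f : MvPolynomial Nd K} (σ : Finset Nd)
    (hf : f ∈ mf K p n) : rs σ f ∈ mf K (fun F => F ⊆ σ) n := by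
  intro m hm
  rw [coeff_rs] at hm
  by_cases h : m.support ⊆ σ
  · rw [if_pos h] at hm
    exact ⟨(hf m hm).1, h⟩
  · rw [if_neg h] at hm
    exact absurd rfl hm

namespace Sub

variable (S : Sub Nd V)

theorem dd_apply (W : Finset V) (z : EE Nd K) (τ : Finset Nd) :
    S.dd K W z τ = if S.int W τ then ∑ σ ∈ S.up W τ, rs τ (z σ) else 0 := by
  show (if S.int W τ then
    ∑ σ ∈ S.up W τ, (rs τ).toLinearMap ∘ₗ LinearMap.proj σ else 0 : EE Nd K →ₗ[K] _) z = _
  split_ifs with h
  · rw [LinearMap.sum_apply]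
    rfl
  · rfl

theorem ff_apply (W : Finset V) (f : MvPolynomial Nd K) (σ : Finset Nd) :
    S.ff K W f σ = if S.int W σ ∧ σ.card = W.card then rs σ f else 0 := by
  show (if S.int W σ ∧ σ.card = W.card then (rs σ).toLinearMap else 0 :
    MvPolynomial Nd K →ₗ[K] _) f = _
  split_ifs with h
  · rfl
  · rfl

private theorem mem_up {W : Finset V} {τ σ : Finset Nd} (h : σ ∈ S.up W τ) :
    S.int W σ ∧ τ ⊆ σ ∧ σ.card = τ.card + 1 := by
  obtain ⟨h1, h2, h3, h4⟩ := Finset.mem_filter.1 h
  exact ⟨⟨h1, h2⟩, h3, h4⟩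

theorem dd_op (W : Finset V) (l : Nd → K) : S.dd K W ∘ₗ op l = op l ∘ₗ S.dd K W := by
  refine LinearMap.ext fun z => funext fun τ => ?_
  rw [LinearMap.comp_apply, LinearMap.comp_apply, dd_apply, op_apply, dd_apply]
  split_ifs with h
  · rw [map_mul, map_sum, Finset.mul_sum]
    refine Finset.sum_congr rfl fun σ hσ => ?_
    have h1 := (S.mem_up hσ).2.1
    rw [op_apply, rs_rs h1, map_mul, rs_rs (Subset.refl τ)]
  · rw [mul_zero, map_zero]

theorem ff_op (W : Finset V) (l : Nd → K) :
    S.ff K W ∘ₗ LinearMap.mulLeft K (lf l) = op l ∘ₗ S.ff K W := by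
  refine LinearMap.ext fun f => funext fun σ => ?_
  rw [LinearMap.comp_apply, LinearMap.comp_apply, ff_apply, op_apply, ff_apply,
    LinearMap.mulLeft_apply]
  split_ifs with h
  · rw [map_mul, map_mul, rs_rs (Subset.refl σ)]
  · rw [mul_zero, map_zero]

private theorem Mk_mem {W : Finset V} {k n : ℕ} {z : EE Nd K} (hz : z ∈ S.Mk K W k n)
    (σ : Finset Nd) : z σ ∈ mf K (fun F => F ⊆ σ) n := by
  by_cases h : S.int W σ ∧ σ.card + k = W.card
  · exact (hz σ).1 h
  · rw [(hz σ).2 h]
    exact (mf K (fun F => F ⊆ σ) n).zero_mem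

theorem sh_op_Mk (W : Finset V) (k : ℕ) (l : Nd → K) : sh (op l) (S.Mk K W k) ≤ S.Mk K W k := by
  intro n
  rcases n with _ | n
  · exact bot_le
  · rintro _ ⟨z, hz, rfl⟩ σ
    refine ⟨fun _ => ?_, fun h => ?_⟩
    · rw [op_apply]
      have h1 : sh (LinearMap.mulLeft K (lf l)) (mf K (fun F => F ⊆ σ)) ≤
          mf K (fun _ => True) := sh_lf fun _ _ _ _ => trivial
      exact mf_rs σ (h1 (n + 1) ⟨z σ, S.Mk_mem hz σ, rfl⟩)
    · rw [op_apply, (hz σ).2 h, mul_zero, map_zero]

theorem dd_Mk (W : Finset V) (k : ℕ) : mapF (S.dd K W) (S.Mk K W k) ≤ S.Mk K W (k + 1) := by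
  intro n
  rintro _ ⟨z, hz, rfl⟩ τ
  refine ⟨fun h => ?_, fun h => ?_⟩
  · rw [dd_apply, if_pos h.1]
    exact Submodule.sum_mem _ fun σ _ => mf_rs τ (S.Mk_mem hz σ)
  · rw [dd_apply]
    split_ifs with h1
    · refine Finset.sum_eq_zero fun σ hσ => ?_
      have h2 := (S.mem_up hσ).2.2
      rw [(hz σ).2 fun h3 => h ⟨h1, by omega⟩, map_zero]
    · rfl

theorem Mk_fd (W : Finset V) (k : ℕ) : Fd (S.Mk K W k) := by
  intro n
  have hf : FiniteDimensional K (mf K (fun _ : Finset Nd => True) n) := mf_fd _ n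
  let φ : (S.Mk K W k n) →ₗ[K] (Finset Nd → mf K (fun _ : Finset Nd => True) n) :=
    LinearMap.pi fun σ => LinearMap.codRestrict (mf K (fun _ : Finset Nd => True) n)
      (LinearMap.proj σ ∘ₗ (S.Mk K W k n).subtype) fun z =>
        mf_mono (fun _ _ => trivial) n (S.Mk_mem z.2 σ)
  refine FiniteDimensional.of_injective φ fun x y hxy => Subtype.ext (funext fun σ => ?_)
  exact congrArg Subtype.val (congrFun hxy σ)

end Sub

end

end Pool.Agent.LocG
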