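import Pool.Agent.LocG.Reso

/-!
# MP_230912_co, file Exa: exactness of the complex of the `K[σ]` from (Top)

Definitions `rs`, `EE`, `Mk`, `dd`, `ff` in Reso.lean (`coeff_rs`, `dd_apply`, `ff_apply`); `Top` in
Defs.lean.  Everything is done coefficient by coefficient: for a monomial `μ` with support `G` the
coefficients of `μ` in a family `z ∈ Mk` form a function on the `W`-interior faces `σ ⊇ G`.

PROOFS.
`dd_dd` (characteristic 2).  At `ρ` with `S.int W ρ`:
`dd (dd z) ρ = ∑_{τ ∈ up ρ} ∑_{σ ∈ up τ} rs ρ (z σ)` (`rs_rs`, `S.int W τ` for `τ ∈ up ρ`).  For a fixed `σ`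
with `ρ ⊆ σ`, `σ.card = ρ.card + 2`, `S.int W σ`, there are exactly two `τ` with `ρ ⊂ τ ⊂ σ`, namely
`ρ ∪ {v}`, `v ∈ σ \ ρ`; both are `W`-interior faces (`S.down`, `S.c ρ = W ⊆ S.c τ ⊆ S.c σ = W`).  So every
term occurs twice: the sum is `0` (`CharTwo`).
`exact_Mk`.  Let `z ∈ Mk (k + 1) n`, `dd z = 0`, `k + 1 ≤ W.card`, `j = W.card - (k + 1)`.  For every monomial
`μ` of degree `n` with support `G`: if `S.inW W G` apply `hT.exact W G _ j _ (fun σ => (z σ).coeff μ)`: for
`τ ⊇ G` with `S.int W τ`, `τ.card + 1 = j`, the coefficient of `μ` in `dd z τ = 0` is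
`∑_{σ ∈ up τ} (rs τ (z σ)).coeff μ = ∑ (z σ).coeff μ` (`coeff_rs`, `G ⊆ τ`).  We get `y_μ` with
`(z σ).coeff μ = ∑_{ρ ∈ up σ} y_μ ρ` for `S.int W σ`, `G ⊆ σ`, `σ.card = j`.  (If not `S.inW W G`, take
`y_μ = 0`; there is no `W`-interior `σ ⊇ G`.)  Define `y ρ = ∑_μ monomial μ (y_μ ρ)` over the finitely many
`μ` of degree `n` with support `⊆ ρ`, if `S.int W ρ` and `ρ.card + k = W.card`, and `y ρ = 0` otherwise.
Then `y ∈ Mk k n` and `dd y = z`: at `σ` with `S.int W σ`, `σ.card = j`, the coefficient of `μ`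
(`μ.support ⊆ σ`) of `∑_{ρ ∈ up σ} rs σ (y ρ)` is `∑_{ρ ∈ up σ} y_μ ρ = (z σ).coeff μ`; if `μ.support` is not
contained in `σ` both coefficients vanish.  At other `σ` both sides are `0`.
(The finite set of the monomials of degree `n`: see `mf_finrank` in Mono.lean; or define `y ρ` through
`Finsupp.onFinset` / `Finsupp.ofSupportFinite`.)
`dd_ff`: at `τ` with `S.int W τ`, `τ.card + 1 = W.card`: the sum is `(up τ).card • rs τ f = 0`
(`hT.even`, characteristic 2); for other `τ` all terms are `0`.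
`ff_surj`.  Let `z ∈ Mk 0 n`, `dd z = 0`.  For a monomial `μ` of degree `n` with support `G`, `S.inW W G`: the
function `σ ↦ (z σ).coeff μ` satisfies the hypothesis of `hT.const`, so it is constant on the facets
`σ ⊇ G` (`S.int W σ`, `σ.card = W.card`); let `κ_μ` be the value (`hT.facet` gives a facet), and
`κ_μ = 0` if not `S.inW W G`.  `f = ∑_μ monomial μ κ_μ`.
`ff_ker`: for `f ∈ TT n`: `ff f = 0` iff for every facet `σ` and every `μ` with support `⊆ σ`,
`f.coeff μ = 0`, iff `f.coeff μ ≠ 0` implies `¬S.inW W μ.support` (`hT.facet`: a face of `Γ_W` is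
contained in a facet; conversely a subset of a facet is in `Γ_W`).
-/

set_option autoImplicit false

namespace Pool.Agent.LocG

open Finset

namespace Sub

variable {Nd V K : Type} [Fintype Nd] [DecidableEq Nd] [Fintype V] [DecidableEq V] [Field K]
  {S : Sub Nd V}

private theorem xa_up {W : Finset V} {τ σ : Finset Nd} :
    σ ∈ S.up W τ ↔ S.int W σ ∧ τ ⊆ σ ∧ σ.card = τ.card + 1 := by
  unfold Sub.up Sub.int
  rw [Finset.mem_filter]
  tauto

private theorem xa_inW {W : Finset V} {σ G : Finset Nd} (h : S.int W σ) (hG : G ⊆ σ) :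
    S.inW W G := by
  refine ⟨S.down σ h.1 G hG, ?_⟩
  have h1 : S.c G ⊆ S.c σ := Finset.biUnion_subset_biUnion_of_subset_left _ hG
  rw [h.2] at h1
  exact h1

private theorem xa_coeff_dd (W : Finset V) (z : EE Nd K) (τ : Finset Nd) (μ : Nd →₀ ℕ) :
    (S.dd K W z τ).coeff μ =
      if S.int W τ ∧ μ.support ⊆ τ then ∑ σ ∈ S.up W τ, (z σ).coeff μ else 0 := by
  rw [dd_apply]
  by_cases h1 : S.int W τ
  · rw [if_pos h1, MvPolynomial.coeff_sum]
    by_cases h2 : μ.support ⊆ τ
    · rw [if_pos ⟨h1, h2⟩]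
      refine Finset.sum_congr rfl fun σ _ => ?_
      rw [coeff_rs, if_pos h2]
    · rw [if_neg fun h => h2 h.2]
      refine Finset.sum_eq_zero fun σ _ => ?_
      rw [coeff_rs, if_neg h2]
  · rw [if_neg h1, if_neg fun h => h1 h.1, MvPolynomial.coeff_zero]

private theorem xa_even [CharP K 2] {m : ℕ} (h : Even m) (x : K) : m • x = 0 := by
  have h1 : (m : K) = 0 := (CharP.cast_eq_zero_iff K 2 m).2 (even_iff_two_dvd.1 h)
  rw [nsmul_eq_mul, h1, zero_mul]

private theorem xa_two {W : Finset V} {ρ : Finset Nd} (hρ : S.int W ρ) (σ : Finset Nd) :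
    Even ((S.up W ρ).filter fun τ => σ ∈ S.up W τ).card := by
  rcases ((S.up W ρ).filter fun τ => σ ∈ S.up W τ).eq_empty_or_nonempty with h | ⟨τ0, h0⟩
  · rw [h, Finset.card_empty]
    exact Even.zero
  · obtain ⟨h1, h2⟩ := Finset.mem_filter.1 h0
    obtain ⟨a1, a2, a3⟩ := xa_up.1 h1
    obtain ⟨b1, b2, b3⟩ := xa_up.1 h2
    have hρσ : ρ ⊆ σ := a2.trans b2
    have he : ((S.up W ρ).filter fun τ => σ ∈ S.up W τ) =
        (σ \ ρ).image fun v => insert v ρ := by
      ext τ
      rw [Finset.mem_filter, Finset.mem_image]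
      constructor
      · rintro ⟨h3, h4⟩
        obtain ⟨c1, c2, c3⟩ := xa_up.1 h3
        obtain ⟨d1, d2, d3⟩ := xa_up.1 h4
        have h5 : (τ \ ρ).card = 1 := by
          rw [Finset.card_sdiff_of_subset c2]
          omega
        obtain ⟨v, hv⟩ := Finset.card_eq_one.1 h5
        have h6 : v ∈ τ \ ρ := by rw [hv]; exact Finset.mem_singleton_self v
        obtain ⟨h7, h8⟩ := Finset.mem_sdiff.1 h6
        refine ⟨v, Finset.mem_sdiff.2 ⟨d2 h7, h8⟩, ?_⟩
        ext w
        rw [Finset.mem_insert]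
        constructor
        · rintro (rfl | hw)
          · exact h7
          · exact c2 hw
        · intro hw
          by_cases hwρ : w ∈ ρ
          · exact Or.inr hwρ
          · left
            have h9 : w ∈ τ \ ρ := Finset.mem_sdiff.2 ⟨hw, hwρ⟩
            rw [hv] at h9
            exact Finset.mem_singleton.1 h9
      · rintro ⟨v, hv, rfl⟩
        obtain ⟨h7, h8⟩ := Finset.mem_sdiff.1 hv
        have hs : insert v ρ ⊆ σ := Finset.insert_subset h7 hρσ
        have hc : (insert v ρ).card = ρ.card + 1 := Finset.card_insert_of_notMem h8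
        have hi : S.int W (insert v ρ) := by
          refine ⟨S.down σ b1.1 _ hs, le_antisymm ?_ ?_⟩
          · exact (xa_inW b1 hs).2
          · have h9 : S.c ρ ⊆ S.c (insert v ρ) :=
              Finset.biUnion_subset_biUnion_of_subset_left _ (Finset.subset_insert v ρ)
            rw [hρ.2] at h9
            exact h9
        exact ⟨xa_up.2 ⟨hi, Finset.subset_insert v ρ, hc⟩, xa_up.2 ⟨b1, hs, by omega⟩⟩
    rw [he, Finset.card_image_of_injOn, Finset.card_sdiff_of_subset hρσ]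
    · refine ⟨1, ?_⟩
      omega
    · intro v hv w hw hvw
      have h3 : v ∈ insert w ρ := by
        have h4 : v ∈ insert v ρ := Finset.mem_insert_self v ρ
        have h5 : insert v ρ = insert w ρ := hvw
        rwa [h5] at h4
      rcases Finset.mem_insert.1 h3 with h4 | h4
      · exact h4
      · exact absurd h4 (Finset.mem_sdiff.1 (Finset.mem_coe.1 hv)).2

private theorem xa_coeff_sum (n : ℕ) (g : (Nd →₀ ℕ) → K) (μ : Nd →₀ ℕ) :
    (∑ m ∈ Finset.univ.finsuppAntidiag n, MvPolynomial.monomial m (g m)).coeff μ =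
      if μ.degree = n then g μ else 0 := by
  classical
  rw [MvPolynomial.coeff_sum]
  simp only [MvPolynomial.coeff_monomial]
  rw [Finset.sum_ite_eq' _ μ g]
  refine if_congr ?_ rfl rfl
  rw [Finset.mem_finsuppAntidiag, Finsupp.degree_eq_sum]
  exact ⟨fun h => h.1, fun h => ⟨h, Finset.subset_univ _⟩⟩

theorem dd_dd [CharP K 2] (W : Finset V) (k n : ℕ) (z : EE Nd K) (hz : z ∈ S.Mk K W k n) :
    S.dd K W (S.dd K W z) = 0 := by
  funext ρ
  refine MvPolynomial.ext _ _ fun μ => ?_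
  show (S.dd K W (S.dd K W z) ρ).coeff μ = (0 : MvPolynomial Nd K).coeff μ
  rw [MvPolynomial.coeff_zero, xa_coeff_dd]
  split_ifs with h
  · have h1 : ∑ τ ∈ S.up W ρ, (S.dd K W z τ).coeff μ =
        ∑ τ ∈ S.up W ρ, ∑ σ ∈ S.up W τ, (z σ).coeff μ := by
      refine Finset.sum_congr rfl fun τ hτ => ?_
      obtain ⟨h2, h3, h4⟩ := xa_up.1 hτ
      rw [xa_coeff_dd, if_pos ⟨h2, h.2.trans h3⟩]
    rw [h1, Finset.sum_comm' (t' := univ)
      (s' := fun σ => (S.up W ρ).filter fun τ => σ ∈ S.up W τ)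
      (fun τ σ => by simp [Finset.mem_filter])]
    refine Finset.sum_eq_zero fun σ _ => ?_
    rw [Finset.sum_const]
    exact xa_even (xa_two h.1 σ) _
  · rfl

theorem exact_Mk (hT : S.Top K) (W : Finset V) {k : ℕ} (hk : k + 1 ≤ W.card) (n : ℕ)
    (z : EE Nd K) (hz : z ∈ S.Mk K W (k + 1) n) (h0 : S.dd K W z = 0) :
    ∃ y ∈ S.Mk K W k n, S.dd K W y = z := by
  classical
  obtain ⟨j, hj⟩ : ∃ j, j = W.card - (k + 1) := ⟨_, rfl⟩
  have hjW : j < W.card := by omega
  have hex : ∀ μ : Nd →₀ ℕ, ∃ y : Finset Nd → K, S.inW W μ.support → ∀ σ, S.int W σ →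
      μ.support ⊆ σ → σ.card = j → (z σ).coeff μ = ∑ ρ ∈ S.up W σ, y ρ := by
    intro μ
    by_cases hin : S.inW W μ.support
    · obtain ⟨y, hy⟩ := hT.exact W μ.support hin j hjW (fun σ => (z σ).coeff μ) (by
        intro τ hτ hs _
        have h1 := congrArg (fun f : EE Nd K => (f τ).coeff μ) h0
        simp only [xa_coeff_dd] at h1
        rw [if_pos ⟨hτ, hs⟩] at h1
        exact h1)
      exact ⟨y, fun _ => hy⟩
    · exact ⟨0, fun h => absurd h hin⟩
  choose y hy using hex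
  have hz1 : ∀ σ μ, (z σ).coeff μ ≠ 0 → σ.card = j ∧ S.int W σ ∧ μ.degree = n ∧
      μ.support ⊆ σ := by
    intro σ μ hne
    by_cases hc : S.int W σ ∧ σ.card + (k + 1) = W.card
    · have h1 := (hz σ).1 hc μ hne
      exact ⟨by omega, hc.1, h1.1, h1.2⟩
    · rw [(hz σ).2 hc, MvPolynomial.coeff_zero] at hne
      exact absurd rfl hne
  obtain ⟨Y, hY⟩ : ∃ Y : EE Nd K, ∀ ρ, Y ρ = if S.int W ρ ∧ ρ.card + k = W.card then
      ∑ μ ∈ Finset.univ.finsuppAntidiag n, MvPolynomial.monomial μ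
        (if μ.support ⊆ ρ then y μ ρ else 0) else 0 := ⟨_, fun _ => rfl⟩
  have hYc : ∀ ρ μ, (Y ρ).coeff μ = if (S.int W ρ ∧ ρ.card + k = W.card) ∧ μ.degree = n ∧
      μ.support ⊆ ρ then y μ ρ else 0 := by
    intro ρ μ
    rw [hY]
    by_cases hc : S.int W ρ ∧ ρ.card + k = W.card
    · rw [if_pos hc, xa_coeff_sum]
      by_cases hd : μ.degree = n
      · rw [if_pos hd]
        by_cases hs : μ.support ⊆ ρ
        · rw [if_pos hs, if_pos ⟨hc, hd, hs⟩]
        · rw [if_neg hs, if_neg fun h => hs h.2.2]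
      · rw [if_neg hd, if_neg fun h => hd h.2.1]
    · rw [if_neg hc, if_neg fun h => hc h.1, MvPolynomial.coeff_zero]
  refine ⟨Y, ?_, ?_⟩
  · intro σ
    refine ⟨fun hs m hm => ?_, fun hs => ?_⟩
    · rw [hYc] at hm
      have h1 : (S.int W σ ∧ σ.card + k = W.card) ∧ m.degree = n ∧ m.support ⊆ σ := by
        by_contra h
        exact hm (if_neg h)
      exact h1.2
    · rw [hY, if_neg hs]
  · funext σ
    refine MvPolynomial.ext _ _ fun μ => ?_
    show (S.dd K W Y σ).coeff μ = (z σ).coeff μ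
    rw [xa_coeff_dd]
    split_ifs with h
    · by_cases hc : σ.card = j
      · by_cases hd : μ.degree = n
        · have hin : S.inW W μ.support := xa_inW h.1 h.2
          rw [hy μ hin σ h.1 h.2 hc]
          refine Finset.sum_congr rfl fun ρ hρ => ?_
          obtain ⟨h2, h3, h4⟩ := xa_up.1 hρ
          rw [hYc, if_pos ⟨⟨h2, by omega⟩, hd, h.2.trans h3⟩]
        · have h1 : (z σ).coeff μ = 0 := by
            by_contra hne
            exact hd (hz1 σ μ hne).2.2.1
          rw [h1]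
          refine Finset.sum_eq_zero fun ρ _ => ?_
          rw [hYc, if_neg fun h => hd h.2.1]
      · have h1 : (z σ).coeff μ = 0 := by
          by_contra hne
          exact hc (hz1 σ μ hne).1
        rw [h1]
        refine Finset.sum_eq_zero fun ρ hρ => ?_
        obtain ⟨h2, h3, h4⟩ := xa_up.1 hρ
        rw [hYc, if_neg fun h => hc (by have := h.1.2; omega)]
    · by_contra hne
      obtain ⟨-, h2, -, h4⟩ := hz1 σ μ (Ne.symm hne)
      exact h ⟨h2, h4⟩

theorem dd_ff [CharP K 2] (hT : S.Top K) (W : Finset V) (f : MvPolynomial Nd K) :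
    S.dd K W (S.ff K W f) = 0 := by
  funext τ
  refine MvPolynomial.ext _ _ fun μ => ?_
  show (S.dd K W (S.ff K W f) τ).coeff μ = (0 : MvPolynomial Nd K).coeff μ
  rw [MvPolynomial.coeff_zero, xa_coeff_dd]
  split_ifs with h
  · by_cases hc : τ.card + 1 = W.card
    · have h1 : ∀ σ ∈ S.up W τ, (S.ff K W f σ).coeff μ = f.coeff μ := by
        intro σ hσ
        obtain ⟨h2, h3, h4⟩ := xa_up.1 hσ
        rw [ff_apply, if_pos ⟨h2, by omega⟩, coeff_rs, if_pos (h.2.trans h3)]
      rw [Finset.sum_congr rfl h1, Finset.sum_const]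
      exact xa_even (hT.even W τ h.1 hc) _
    · refine Finset.sum_eq_zero fun σ hσ => ?_
      obtain ⟨h2, h3, h4⟩ := xa_up.1 hσ
      rw [ff_apply, if_neg fun h => hc (by omega), MvPolynomial.coeff_zero]
  · rfl

theorem ff_mem (W : Finset V) (n : ℕ) (f : MvPolynomial Nd K) (hf : f ∈ TT K Nd n) :
    S.ff K W f ∈ S.Mk K W 0 n := by
  intro σ
  refine ⟨fun hs m hm => ?_, fun hs => ?_⟩
  · rw [ff_apply, if_pos ⟨hs.1, by omega⟩, coeff_rs] at hm
    by_cases h : m.support ⊆ σ
    · rw [if_pos h] at hm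
      exact ⟨(hf m hm).1, h⟩
    · rw [if_neg h] at hm
      exact absurd rfl hm
  · rw [ff_apply, if_neg fun h => hs ⟨h.1, by omega⟩]

theorem ff_surj (hT : S.Top K) (W : Finset V) (n : ℕ) (z : EE Nd K)
    (hz : z ∈ S.Mk K W 0 n) (h0 : S.dd K W z = 0) : ∃ f ∈ TT K Nd n, S.ff K W f = z := by
  classical
  have hz1 : ∀ σ μ, (z σ).coeff μ ≠ 0 → σ.card = W.card ∧ S.int W σ ∧ μ.degree = n ∧
      μ.support ⊆ σ := by
    intro σ μ hne
    by_cases hc : S.int W σ ∧ σ.card + 0 = W.card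
    · have h1 := (hz σ).1 hc μ hne
      exact ⟨by omega, hc.1, h1.1, h1.2⟩
    · rw [(hz σ).2 hc, MvPolynomial.coeff_zero] at hne
      exact absurd rfl hne
  have hex : ∀ μ : Nd →₀ ℕ, ∃ κ : K, S.inW W μ.support → ∀ σ, S.int W σ →
      μ.support ⊆ σ → σ.card = W.card → (z σ).coeff μ = κ := by
    intro μ
    by_cases hin : S.inW W μ.support
    · obtain ⟨σ0, h1, h2, h3⟩ := hT.facet W μ.support hin
      refine ⟨(z σ0).coeff μ, fun _ σ h4 h5 h6 => ?_⟩
      refine hT.const W μ.support hin (fun σ => (z σ).coeff μ) ?_ σ σ0 h4 h5 h6 h1 h2 h3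
      intro τ hτ hs _
      have h1 := congrArg (fun f : EE Nd K => (f τ).coeff μ) h0
      simp only [xa_coeff_dd] at h1
      rw [if_pos ⟨hτ, hs⟩] at h1
      exact h1
    · exact ⟨0, fun h => absurd h hin⟩
  choose κ hκ using hex
  refine ⟨∑ μ ∈ Finset.univ.finsuppAntidiag n, MvPolynomial.monomial μ (κ μ), ?_, ?_⟩
  · intro m hm
    rw [xa_coeff_sum] at hm
    by_cases hd : m.degree = n
    · exact ⟨hd, trivial⟩
    · rw [if_neg hd] at hm
      exact absurd rfl hm
  · funext σ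
    refine MvPolynomial.ext _ _ fun μ => ?_
    rw [ff_apply]
    by_cases hc : S.int W σ ∧ σ.card = W.card
    · rw [if_pos hc, coeff_rs]
      by_cases hs : μ.support ⊆ σ
      · rw [if_pos hs, xa_coeff_sum]
        by_cases hd : μ.degree = n
        · rw [if_pos hd]
          exact (hκ μ (xa_inW hc.1 hs) σ hc.1 hs hc.2).symm
        · rw [if_neg hd]
          by_contra hne
          exact hd (hz1 σ μ (Ne.symm hne)).2.2.1
      · rw [if_neg hs]
        by_contra hne
        exact hs (hz1 σ μ (Ne.symm hne)).2.2.2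
    · rw [if_neg hc, MvPolynomial.coeff_zero]
      by_contra hne
      obtain ⟨h1, h2, -⟩ := hz1 σ μ (Ne.symm hne)
      exact hc ⟨h2, h1⟩

theorem ff_ker (hT : S.Top K) (W : Finset V) (n : ℕ) (f : MvPolynomial Nd K)
    (hf : f ∈ TT K Nd n) : S.ff K W f = 0 ↔ f ∈ S.I K W n := by
  constructor
  · intro h m hm
    refine ⟨(hf m hm).1, fun hin => ?_⟩
    obtain ⟨σ, h1, h2, h3⟩ := hT.facet W m.support hin
    have h4 := congrArg (fun g : EE Nd K => (g σ).coeff m) h
    simp only [ff_apply] at h4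
    rw [if_pos ⟨h1, h3⟩, coeff_rs, if_pos h2] at h4
    exact hm h4
  · intro h
    funext σ
    refine MvPolynomial.ext _ _ fun μ => ?_
    show (S.ff K W f σ).coeff μ = (0 : MvPolynomial Nd K).coeff μ
    rw [ff_apply, MvPolynomial.coeff_zero]
    by_cases hc : S.int W σ ∧ σ.card = W.card
    · rw [if_pos hc, coeff_rs]
      by_cases hs : μ.support ⊆ σ
      · rw [if_pos hs]
        by_contra hne
        exact (h μ hne).2 (xa_inW hc.1 hs)
      · rw [if_neg hs]
    · rw [if_neg hc, MvPolynomial.coeff_zero]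

end Sub

end Pool.Agent.LocG
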