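import Pool.Agent.LocG.Defs

/-!
# MP_230912_co, file Eta: generic linear combinations (linear algebra only)

`Φ` is a finite set of finite sets `σ` of vertices; for `σ ∈ Φ` the vectors `a v` (`v ∈ σ`) of `V → K`
are linearly independent and vanish outside `W`.  The value of the functional `ω` at `a v` is
`∑ c, ω c * a v c`.

PROOF of `exists_eta`.  By recursion on `k` construct `ω_0, ω_1, ..`, all vanishing outside `W`, such that
for every `σ ∈ Φ` and `k ≤ σ.card` the restrictions of `ω_0, .., ω_{k-1}` to `σ`
(`v ↦ ∑ c, ω_j c * a v c`, `v ∈ σ`) are linearly independent.  Step: let `ω_0 .. ω_{k-1}` be given; for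
`σ ∈ Φ` with `k + 1 ≤ σ.card` let `P_σ` be the subspace of the `ω ∈ K^W` (vectors vanishing outside `W`)
whose restriction to `σ` is in the span of the restrictions of `ω_0 .. ω_{k-1}`.  The restriction map
`K^W → K^σ` is surjective (the vectors `a v`, `v ∈ σ`, are independent and lie in `K^W`: if the image were
contained in a hyperplane `∑_v x_v y_v = 0` then `∑_v x_v a v c = 0` for all `c ∈ W`), and
`dim K^σ = σ.card > k`, so `P_σ` is a proper subspace of `K^W`.  `K` is infinite, so the finitely many
`P_σ` do not cover `K^W` (`Subspace.biUnion_ne_univ_of_top_notMem`, or the statement for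
`Submodule` of the submodule `K^W`).  Take `ω_k` outside all of them
(`linearIndependent_fin_snoc` / `LinearIndependent.fin_cons'`, `Fin.snoc`).
(A convenient form for the recursion: for every `k` there is `ω : Fin k → V → K` with the property for
all `k' ≤ k`, and every such `ω` extends; or dependent choice with lists.)

PROOF of `eta_span`.  The vectors `ω_j`, `j < m = W.card`, are linearly independent, because their
restrictions to `σ` are; they lie in the subspace of the vectors vanishing outside `W`, which has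
dimension `m` (`finrank` of `W → K`); so they span it.
-/

set_option autoImplicit false

namespace Pool.Agent.LocG

open Finset

section

variable {Nd V K : Type} [DecidableEq Nd] [Fintype V] [DecidableEq V] [Field K]

private def rr (a : Nd → V → K) (σ : Finset Nd) : (V → K) →ₗ[K] (σ → K) where
  toFun x v := ∑ b, x b * a v b
  map_add' x y := by
    funext v
    simp only [Pi.add_apply, add_mul, sum_add_distrib]
  map_smul' r x := by
    funext v
    simp only [Pi.smul_apply, smul_eq_mul, RingHom.id_apply, mul_sum, mul_assoc]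

private def ew (K : Type) [Field K] (W : Finset V) : Submodule K (V → K) where
  carrier := {x | ∀ b, b ∉ W → x b = 0}
  add_mem' := by
    intro x y hx hy b hb
    rw [Pi.add_apply, hx b hb, hy b hb, add_zero]
  zero_mem' := by
    intro b hb
    rfl
  smul_mem' := by
    intro r x hx b hb
    rw [Pi.smul_apply, hx b hb, smul_zero]

private theorem rr_surj (a : Nd → V → K) (W : Finset V) (σ : Finset Nd)
    (h : LinearIndependent K fun v : σ => a v) (h0 : ∀ v ∈ σ, ∀ b, b ∉ W → a v b = 0)
    (y : σ → K) : ∃ x : ew K W, rr a σ x = y := by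
  classical
  obtain ⟨f, hf0⟩ := LinearMap.exists_extend ((Module.Basis.span h).constr K y)
  have hf : ∀ v : σ, f (a v) = y v := by
    intro v
    have h1 := LinearMap.congr_fun hf0 (Module.Basis.span h v)
    rw [Module.Basis.constr_basis] at h1
    rw [← h1]
    change f (a v) = f ((Module.Basis.span h v : Submodule.span K _) : V → K)
    rw [Module.Basis.span_apply]
  refine ⟨⟨fun b => if b ∈ W then f (Pi.single b 1) else 0, ?_⟩, ?_⟩
  · intro b hb
    exact if_neg hb
  · funext v
    change ∑ b, (if b ∈ W then f (Pi.single b 1) else 0) * a v b = y v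
    have h2 : a v = ∑ b, a v b • (Pi.single b 1 : V → K) := by
      funext c
      simp [Finset.sum_apply, Pi.single_apply]
    rw [← hf v]
    conv_rhs => rw [h2, map_sum]
    refine sum_congr rfl fun b _ => ?_
    rw [map_smul, smul_eq_mul, mul_comm]
    by_cases hb : b ∈ W
    · rw [if_pos hb]
    · rw [if_neg hb, h0 v v.2 b hb, zero_mul, zero_mul]

private theorem step [Infinite K] (a : Nd → V → K) (W : Finset V) (Φ : Finset (Finset Nd))
    (h : ∀ σ ∈ Φ, LinearIndependent K fun v : σ => a v)
    (h0 : ∀ σ ∈ Φ, ∀ v ∈ σ, ∀ b, b ∉ W → a v b = 0) (n : ℕ) (ω : ℕ → V → K) :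
    ∃ x : V → K, (∀ b, b ∉ W → x b = 0) ∧ ∀ σ ∈ Φ, n + 1 ≤ σ.card →
      rr a σ x ∉ Submodule.span K (Set.range fun j : Fin n => rr a σ (ω j)) := by
  classical
  let P : Finset Nd → Submodule K (ew K W) := fun σ =>
    (Submodule.span K (Set.range fun j : Fin n => rr a σ (ω j))).comap
      ((rr a σ).comp (ew K W).subtype)
  have hP : ∀ σ ∈ Φ, n + 1 ≤ σ.card → P σ ≠ ⊤ := by
    intro σ hσ hn ht
    have h1 : Submodule.span K (Set.range fun j : Fin n => rr a σ (ω j)) = ⊤ := by
      rw [eq_top_iff]
      intro y _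
      obtain ⟨x, hx⟩ := rr_surj a W σ (h σ hσ) (h0 σ hσ) y
      have h2 : x ∈ P σ := by
        rw [ht]
        exact Submodule.mem_top
      have h3 : rr a σ x ∈ Submodule.span K (Set.range fun j : Fin n => rr a σ (ω j)) := h2
      rw [hx] at h3
      exact h3
    have h4 := finrank_range_le_card (R := K) (fun j : Fin n => rr a σ (ω j))
    rw [Set.finrank, h1, finrank_top, Module.finrank_fintype_fun_eq_card, Fintype.card_fin,
      Fintype.card_coe] at h4
    omega
  let s : Finset (Subspace K (ew K W)) := (Φ.filter fun σ => n + 1 ≤ σ.card).image P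
  have hs : (⊤ : Subspace K (ew K W)) ∉ s := by
    intro ht
    obtain ⟨σ, hσ, he⟩ := mem_image.1 ht
    rw [mem_filter] at hσ
    exact hP σ hσ.1 hσ.2 he
  have h5 := Subspace.biUnion_ne_univ_of_top_notMem hs
  obtain ⟨x, hx⟩ := (Set.ne_univ_iff_exists_notMem _).1 h5
  refine ⟨x, x.2, ?_⟩
  intro σ hσ hn hc
  apply hx
  refine Set.mem_iUnion₂.2 ⟨P σ, mem_image.2 ⟨σ, mem_filter.2 ⟨hσ, hn⟩, rfl⟩, ?_⟩
  exact hc

private theorem aux [Infinite K] (a : Nd → V → K) (W : Finset V) (Φ : Finset (Finset Nd))
    (h : ∀ σ ∈ Φ, LinearIndependent K fun v : σ => a v)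
    (h0 : ∀ σ ∈ Φ, ∀ v ∈ σ, ∀ b, b ∉ W → a v b = 0) (n : ℕ) :
    ∃ ω : ℕ → V → K, (∀ j, ∀ b, b ∉ W → ω j b = 0) ∧
      ∀ σ ∈ Φ, ∀ k ≤ σ.card, k ≤ n →
        LinearIndependent K fun (j : Fin k) => rr a σ (ω j) := by
  classical
  induction n with
  | zero =>
    refine ⟨fun _ _ => 0, fun _ _ _ => rfl, ?_⟩
    intro σ _ k _ hk
    obtain rfl : k = 0 := by omega
    exact linearIndependent_empty_type
  | succ n ih =>
    obtain ⟨ω, hω, hi⟩ := ih
    obtain ⟨x, hx, hxs⟩ := step a W Φ h h0 n ω
    refine ⟨Function.update ω n x, ?_, ?_⟩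
    · intro j b hb
      by_cases hj : j = n
      · subst hj
        rw [Function.update_self]
        exact hx b hb
      · rw [Function.update_of_ne hj]
        exact hω j b hb
    · intro σ hσ k hk hkn
      have hlow : ∀ m, m ≤ n → (fun (j : Fin m) => rr a σ (Function.update ω n x j)) =
          fun (j : Fin m) => rr a σ (ω j) := by
        intro m hm
        funext j
        have : (j : ℕ) ≠ n := by
          have := j.2
          omega
        rw [Function.update_of_ne this]
      by_cases hkn' : k ≤ n
      · rw [hlow k hkn']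
        exact hi σ hσ k hk hkn'
      · obtain rfl : k = n + 1 := by omega
        rw [linearIndependent_finSucc']
        have he : (Fin.init fun (j : Fin (n + 1)) => rr a σ (Function.update ω n x j)) =
            fun (j : Fin n) => rr a σ (ω j) := hlow n le_rfl
        rw [he]
        refine ⟨hi σ hσ n (by omega) le_rfl, ?_⟩
        have h6 : Function.update ω n x ((Fin.last n : Fin (n + 1)) : ℕ) = x := by
          rw [Fin.val_last, Function.update_self]
        rw [h6]
        exact hxs σ hσ hk

theorem exists_eta [Infinite K] (a : Nd → V → K) (W : Finset V) (Φ : Finset (Finset Nd))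
    (h : ∀ σ ∈ Φ, LinearIndependent K fun v : σ => a v)
    (h0 : ∀ σ ∈ Φ, ∀ v ∈ σ, ∀ b, b ∉ W → a v b = 0) :
    ∃ ω : ℕ → V → K, (∀ j, ∀ b, b ∉ W → ω j b = 0) ∧
      ∀ σ ∈ Φ, ∀ k ≤ σ.card,
        LinearIndependent K fun (j : Fin k) (v : σ) => ∑ b, ω j b * a v b := by
  obtain ⟨ω, hω, hi⟩ := aux a W Φ h h0 (Φ.sup card)
  refine ⟨ω, hω, ?_⟩
  intro σ hσ k hk
  exact hi σ hσ k hk (hk.trans (le_sup (f := card) hσ))

theorem eta_span (a : Nd → V → K) (W : Finset V) {ω : ℕ → V → K} {σ : Finset Nd}
    (hω : ∀ j, ∀ b, b ∉ W → ω j b = 0)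
    (hi : LinearIndependent K fun (j : Fin W.card) (v : σ) => ∑ b, ω j b * a v b)
    (x : V → K) (hx : ∀ b, b ∉ W → x b = 0) :
    x ∈ Submodule.span K (Set.range fun j : Fin W.card => ω j) := by
  let e : Fin W.card → ew K W := fun j => ⟨ω j, hω j⟩
  have h1 : LinearIndependent K e := by
    refine LinearIndependent.of_comp ((rr a σ).comp (ew K W).subtype) ?_
    exact hi
  have h2 : Module.finrank K (ew K W) ≤ W.card := by
    let r : ew K W →ₗ[K] (W → K) :=
      { toFun := fun y b => (y : V → K) b
        map_add' := fun _ _ => rfl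
        map_smul' := fun _ _ => rfl }
    have hr : Function.Injective r := by
      intro y z hyz
      apply Subtype.ext
      funext b
      by_cases hb : b ∈ W
      · exact congrFun hyz ⟨b, hb⟩
      · rw [y.2 b hb, z.2 b hb]
    have h3 := LinearMap.finrank_le_finrank_of_injective hr
    rw [Module.finrank_fintype_fun_eq_card, Fintype.card_coe] at h3
    exact h3
  have h4 : Fintype.card (Fin W.card) = Module.finrank K (ew K W) := by
    rw [Fintype.card_fin]
    refine le_antisymm ?_ h2
    have h5 := h1.fintype_card_le_finrank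
    rwa [Fintype.card_fin] at h5
  have h6 := h1.span_eq_top_of_card_eq_finrank' h4
  have h7 : (⟨x, hx⟩ : ew K W) ∈ Submodule.span K (Set.range e) := by
    rw [h6]
    exact Submodule.mem_top
  have h8 := Submodule.mem_map_of_mem (f := (ew K W).subtype) h7
  rw [Submodule.map_span, ← Set.range_comp] at h8
  exact h8

end

end Pool.Agent.LocG
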