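import Pool.Agent.LocG.P3C
import Pool.Agent.LocG.P2

/-!
# MP_230912_co, file P3D: the induction, and the results (R), (S), (L) for every `W`

PROOFS.
`alpha_beta`: by induction on `U` (`Finset.induction_on`): for all `W ⊇ U`, `Alpha S a W U`, and for all
`W, Q, e` (`U ⊆ W`, `Q ⊆ W \ U`, `e ∈ W`, `e ∉ U`, `e ∉ Q`), `Beta S a W U Q e`.
`U = ∅`: `Alpha` is `reg_T` (P2.lean; `J_empty`, `KU_empty`, `W \ ∅ = W`); `Beta`: `KU W ∅ Q = I W` for all
`Q`.  Step `insert b U`: `Beta` by `beta_step`; `Alpha W (insert b U)` by `alpha_step` with `e = b`,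
from `Alpha W U`, `Alpha (W.erase b) U` (`U ⊆ W.erase b`) and `Beta W U ∅ b`.
`J_inf_X`: for `U ⊆ W`: `J W W ⊓ XU W ∅ ≤ XU W U`: induction on `U`:
`J W W ⊓ XU W ∅ ≤ J W (insert e U) ⊓ XU W U ≤ XU W (insert e U)` (`J_anti`, `inf_XU`).
`XU W ∅ = I W ⊔ gn W TT` and `XU W W = KU W W ∅` (`gn_empty`).
`J_inf_eq`: `≤` by `J_inf_X` with `U = W`; `≥`: `KU_le_J` and
`sh (mth a b) (J ..) ≤ sh (mth a b) TT ≤ gn (mth a) W TT` for `b ∈ W`.
`dq_rec`: for `U ⊆ W`:
`dq (J W U) (XU W U) n = ∑_{Y ∈ U.powerset} (-1)^Y.card * (S.hW (W \ Y)).coeff n`.  Induction on `U`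
for all `W`: `U = ∅`: `dq_T`.  `insert e U`: `dq_XU`, the induction hypotheses for `W` and `W.erase e`,
`Finset.sum_powerset_insert`, `(W.erase e) \ Y = W \ insert e Y`, `(insert e Y).card = Y.card + 1`.
`dq_L`: `J_inf_eq` and `dq_rec` for `U = W`; reindex `Y ↦ W \ Y`
(`(W \ Y).card = W.card - Y.card`; `Finset.sum_bij`, or `sum_nbij'`).
`reg_JI`: for `U ⊆ W`, `Reg (mth a) W (J W U) (I W)`, by induction on `U` for all `W`.  `U = ∅`: `reg_T`.
Step `insert e U`, `e ∈ W`, `e ∉ U`: `A = J W U`, `A' = J W (insert e U)`, `B = I W`.  The induction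
hypothesis for `W.erase e`: `Reg (W.erase e) (J (W.erase e) U) (I (W.erase e))`,
`J (W.erase e) U = A ⊔ J W {e}`, `I (W.erase e) = J W {e}`, `A ⊓ J W {e} = A'`; `reg_inf` gives
`Reg (W.erase e) A A'`.  `lemN` with `P = W.erase e` (`Reg P A B` from `Reg W A B`: restriction to a
subset) gives `A' ⊓ (B ⊔ gn Q A) ≤ B ⊔ gn Q A'` for `Q ⊆ P` and `Reg P A' B`.  Moreover
`InjQ (θ e) A' (B ⊔ gn P A')`: if `y ∈ A' n`, `θ_e y ∈ B ⊔ gn P A' ≤ B ⊔ gn P A` then
`y ∈ (B ⊔ gn P A) n` (`Reg W A B` with `Q = P`), so `y ∈ B ⊔ gn P A'`.  `reg_insert` (Hilb.lean) with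
`insert e (W.erase e) = W`.
`dq_JI`: `reg_JI` for `U = W`, `reg_dq`, `dq_mf` (`J W W` and `I W`:
`(S.inW W F → W ⊆ S.c F) ∧ ¬¬S.inW W F ↔ S.int W F`), `card_mono` with `p = S.int W`, `m = W.card`,
`psum_iter_inj`.
-/

set_option autoImplicit false

namespace Pool.Agent.LocG

open Finset

namespace Sub

variable {Nd V K : Type} [Fintype Nd] [DecidableEq Nd] [Fintype V] [DecidableEq V] [Field K]

/-- the local h-polynomial of `Γ_W` -/
noncomputable def lW (S : Sub Nd V) (W : Finset V) : Polynomial ℤ :=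
  ∑ Y ∈ W.powerset, (-1) ^ (W.card - Y.card) * S.hW Y

/-- the polynomial `∑ x^|F| (1-x)^(|W| - |F|)` over the `W`-interior faces -/
noncomputable def hI (S : Sub Nd V) (W : Finset V) : Polynomial ℤ :=
  ∑ F ∈ S.faces.filter (fun F => S.c F = W),
    Polynomial.X ^ F.card * (1 - Polynomial.X) ^ (W.card - F.card)

variable {S : Sub Nd V} {a : Nd → V → K}

omit [Fintype V] in
private theorem sub_erase {W U : Finset V} {e : V} (hU : U ⊆ W) (he : e ∉ U) :
    U ⊆ W.erase e := fun _ hx =>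
  Finset.mem_erase.2 ⟨fun h => he (h ▸ hx), hU hx⟩

private theorem XU_empty (S : Sub Nd V) (a : Nd → V → K) (W : Finset V) :
    S.XU a W ∅ = S.I K W ⊔ gn (mth a) W (TT K Nd) := by
  unfold XU
  rw [Finset.sdiff_empty, J_empty, KU_empty]

omit [Fintype V] in
private theorem XU_self (S : Sub Nd V) (a : Nd → V → K) (W : Finset V) :
    S.XU a W W = S.KU a W W ∅ := by
  unfold XU
  rw [Finset.sdiff_self, gn_empty, sup_bot_eq]

theorem alpha_beta [CharP K 2] [Infinite K] (hT : S.Top K) (hg : S.Gen a) (U : Finset V) :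
    (∀ W, U ⊆ W → S.Alpha a W U) ∧
      ∀ W Q e, U ⊆ W → Q ⊆ W \ U → e ∈ W → e ∉ U → e ∉ Q → S.Beta a W U Q e := by
  induction U using Finset.induction_on with
  | empty =>
    refine ⟨fun W _ => ?_, fun W Q e _ _ _ _ _ => ?_⟩
    · unfold Alpha
      rw [Finset.sdiff_empty, J_empty, KU_empty]
      exact reg_T hT hg W
    · unfold Beta
      rw [KU_empty, KU_empty]
      exact inf_le_right
  | insert b U hb ih =>
    obtain ⟨hα, hβ⟩ := ih
    refine ⟨fun W hW => ?_,
      fun W Q e hW hQ he heU heQ => beta_step hg hb hα hβ hW hQ he heU heQ⟩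
    have hbW : b ∈ W := hW (Finset.mem_insert_self b U)
    have hUW : U ⊆ W := (Finset.subset_insert b U).trans hW
    exact alpha_step hg hUW hbW hb (hα W hUW) (hα (W.erase b) (sub_erase hUW hb))
      (hβ W ∅ b hUW (Finset.empty_subset _) hbW hb (Finset.notMem_empty b))

theorem J_inf_X [CharP K 2] [Infinite K] (hT : S.Top K) (hg : S.Gen a) {W U : Finset V}
    (hU : U ⊆ W) : S.J K W W ⊓ (S.I K W ⊔ gn (mth a) W (TT K Nd)) ≤ S.XU a W U := by
  induction U using Finset.induction_on with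
  | empty =>
    rw [XU_empty]
    exact inf_le_right
  | insert e U he ih =>
    have heW : e ∈ W := hU (Finset.mem_insert_self e U)
    have hUW : U ⊆ W := (Finset.subset_insert e U).trans hU
    obtain ⟨hα, hβ⟩ := alpha_beta hT hg U
    have h1 := inf_XU hg hUW heW he (hα W hUW) (hα (W.erase e) (sub_erase hUW he))
      (hβ W ∅ e hUW (Finset.empty_subset _) heW he (Finset.notMem_empty e))
    refine le_trans (le_inf ?_ (ih hUW)) h1
    exact inf_le_left.trans (S.J_anti W hU)

theorem J_inf_eq [CharP K 2] [Infinite K] (hT : S.Top K) (hg : S.Gen a) (W : Finset V) :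
    S.J K W W ⊓ (S.I K W ⊔ gn (mth a) W (TT K Nd)) = S.KU a W W ∅ := by
  refine le_antisymm ?_ (le_inf ?_ ?_)
  · have h := J_inf_X hT hg (subset_refl W)
    rwa [XU_self] at h
  · have h := KU_le_J hg W W ∅
    rwa [Finset.union_empty] at h
  · unfold KU
    refine sup_le_sup_left ?_ _
    refine Finset.sup_le fun b hb => ?_
    exact (sh_mono _ (S.J_le_T W _)).trans (sh_le_gn hb)

theorem dq_rec [CharP K 2] [Infinite K] (hT : S.Top K) (hg : S.Gen a) {W U : Finset V}
    (hU : U ⊆ W) (n : ℕ) : dq (S.J K W U) (S.XU a W U) n =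
      ∑ Y ∈ U.powerset, (-1) ^ Y.card * (S.hW (W \ Y)).coeff n := by
  induction U using Finset.induction_on generalizing W with
  | empty =>
    rw [XU_empty, J_empty, dq_T hT hg, Finset.powerset_empty, Finset.sum_singleton,
      Finset.card_empty, pow_zero, one_mul, Finset.sdiff_empty]
  | insert e U he ih =>
    have heW : e ∈ W := hU (Finset.mem_insert_self e U)
    have hUW : U ⊆ W := (Finset.subset_insert e U).trans hU
    obtain ⟨hα, hβ⟩ := alpha_beta hT hg U
    rw [dq_XU hg hUW heW he (hα W hUW) (hα (W.erase e) (sub_erase hUW he))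
      (hβ W ∅ e hUW (Finset.empty_subset _) heW he (Finset.notMem_empty e)), ih hUW,
      ih (sub_erase hUW he), Finset.sum_powerset_insert he, sub_eq_add_neg,
      ← Finset.sum_neg_distrib]
    congr 1
    refine Finset.sum_congr rfl fun Y hY => ?_
    have h1 : e ∉ Y := fun h => he (Finset.mem_powerset.1 hY h)
    have h2 : W \ insert e Y = W.erase e \ Y := by
      ext x
      simp only [Finset.mem_sdiff, Finset.mem_insert, Finset.mem_erase, not_or]
      tauto
    rw [Finset.card_insert_of_notMem h1, pow_succ, h2]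
    ring

/-- (L) -/
theorem dq_L [CharP K 2] [Infinite K] (hT : S.Top K) (hg : S.Gen a) (W : Finset V) (n : ℕ) :
    dq (S.J K W W) (S.J K W W ⊓ (S.I K W ⊔ gn (mth a) W (TT K Nd))) n = (S.lW W).coeff n := by
  rw [J_inf_eq hT hg, ← XU_self, dq_rec hT hg (subset_refl W)]
  unfold lW
  rw [Polynomial.finsetSum_coeff]
  refine Finset.sum_nbij' (fun Y => W \ Y) (fun Y => W \ Y) ?_ ?_ ?_ ?_ ?_
  · intro Y _
    exact Finset.mem_powerset.2 Finset.sdiff_subset
  · intro Y _
    exact Finset.mem_powerset.2 Finset.sdiff_subset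
  · intro Y hY
    exact Finset.sdiff_sdiff_eq_self (Finset.mem_powerset.1 hY)
  · intro Y hY
    exact Finset.sdiff_sdiff_eq_self (Finset.mem_powerset.1 hY)
  · intro Y hY
    have hYW := Finset.mem_powerset.1 hY
    have h1 : W.card - (W \ Y).card = Y.card := by
      have h2 := Finset.card_sdiff_add_card_eq_card hYW
      omega
    rw [h1]
    have h3 : ((-1 : Polynomial ℤ)) ^ Y.card = Polynomial.C ((-1 : ℤ) ^ Y.card) := by
      rw [Polynomial.C_pow, Polynomial.C_neg, Polynomial.C_1]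
    rw [h3, Polynomial.coeff_C_mul]

theorem reg_JI [CharP K 2] [Infinite K] (hT : S.Top K) (hg : S.Gen a) {W U : Finset V}
    (hU : U ⊆ W) : Reg (mth a) W (S.J K W U) (S.I K W) := by
  induction U using Finset.induction_on generalizing W with
  | empty =>
    rw [J_empty]
    exact reg_T hT hg W
  | insert e U he ih =>
    have heW : e ∈ W := hU (Finset.mem_insert_self e U)
    have hUW : U ⊆ W := (Finset.subset_insert e U).trans hU
    have hs : ∀ (U' : Finset V) (b : V), sh (mth a b) (S.J K W U') ≤ S.J K W U' := fun U' b =>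
      (S.sh_J hg W U' b).trans (S.J_anti W (Finset.subset_insert b U'))
    have ih1 := ih hUW
    have ih2 := ih (sub_erase hUW he)
    rw [J_erase, I_erase] at ih2
    have h1 := reg_inf (fun b _ => hs U b) (fun b _ => hs {e} b) ih2
    rw [J_inf, Finset.union_comm, ← Finset.insert_eq] at h1
    have hrP : Reg (mth a) (W.erase e) (S.J K W U) (S.I K W) := fun Q hQ b hb hbQ =>
      ih1 Q (hQ.trans (Finset.erase_subset e W)) b (Finset.mem_of_mem_erase hb) hbQ
    obtain ⟨h2, h3⟩ := lemN (mth_comm a) (fun b _ => hs U b) (fun b _ => hs (insert e U) b)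
      (S.I_le_J W (insert e U)) (S.J_anti W (Finset.subset_insert e U)) hrP h1
    have h4 : InjQ (mth a e) (S.J K W (insert e U))
        (S.I K W ⊔ gn (mth a) (W.erase e) (S.J K W (insert e U))) := by
      intro n y hy hy1
      refine h2 (W.erase e) (subset_refl _) n ⟨hy, ?_⟩
      refine ih1 (W.erase e) (Finset.erase_subset e W) e heW (Finset.notMem_erase e W) n y
        (S.J_anti W (Finset.subset_insert e U) n hy) ?_
      exact sup_le_sup_left (gn_mono (mth a) (subset_refl (W.erase e))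
        (S.J_anti W (Finset.subset_insert e U))) (S.I K W) (n + 1) hy1
    have h5 := reg_insert (mth_comm a) (Finset.notMem_erase e W) (mf_fd _)
      (fun b _ => hs (insert e U) b) (fun b _ => S.sh_I a W b) (S.I_le_J W (insert e U)) h3 h4
    rwa [Finset.insert_erase heW] at h5

/-- (S) -/
theorem dq_JI [CharP K 2] [Infinite K] (hT : S.Top K) (hg : S.Gen a) (W : Finset V) (n : ℕ) :
    dq (S.J K W W) (S.I K W ⊔ gn (mth a) W (S.J K W W)) n = (S.hI W).coeff n := by
  have hs : ∀ (b : V), sh (mth a b) (S.J K W W) ≤ S.J K W W := fun b =>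
    (S.sh_J hg W W b).trans (S.J_anti W (Finset.subset_insert b W))
  refine psum_iter_inj W.card (fun m => ?_) n
  have hfd : Fd (S.J K W W) := mf_fd _
  rw [← reg_dq (mth_comm a) hfd (fun b _ => hs b) (fun b _ => S.sh_I a W b)
    (S.I_le_J W W) (reg_JI hT hg (subset_refl W))]
  have h1 : ∀ F : Finset Nd, ((S.inW W F → W ⊆ S.c F) ∧ ¬¬S.inW W F) ↔ S.int W F := by
    intro F
    unfold inW int
    constructor
    · rintro ⟨h2, h3⟩
      rw [not_not] at h3
      exact ⟨h3.1, subset_antisymm h3.2 (h2 h3)⟩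
    · rintro ⟨h2, h3⟩
      exact ⟨fun _ => h3.ge, not_not.2 ⟨h2, h3.le⟩⟩
  have h2 : dq (S.J K W W) (S.I K W) m = Module.finrank K (mf K (S.int W) m) := by
    unfold J I
    rw [dq_mf (fun F hF h => absurd h hF), mf_congr h1]
  rw [h2, card_mono (S.int W) W.card]
  · have h3 : (univ : Finset (Finset Nd)).filter (S.int W) =
        S.faces.filter fun F => S.c F = W := by
      ext F
      simp only [Finset.mem_filter, Finset.mem_univ, true_and]
      rfl
    rw [h3]
    rfl
  · rintro F ⟨hF, hc⟩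
    rw [← hc]
    exact S.card_le F hF

end Sub

end Pool.Agent.LocG
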