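import Pool.Agent.LocG.Defs

/-!
# MP_230912_co, file Cons: consequences of (Top): ridges, boundary ridges, connectedness

`S.inW W F`: `F` is a face with carrier `⊆ W`.  `S.int W F`: a face with carrier `= W`.
`S.up W τ`: the `σ` with `S.int W σ`, `τ ⊆ σ`, `σ.card = τ.card + 1`.

PROOFS (write `m = W.card`).
`int_of_card`: `card_le` gives `m = F.card ≤ (S.c F).card`, and `S.c F ⊆ W`
(`Finset.eq_of_subset_of_card_le`).
`up_card_two`.  Apply (Top) with `G = τ`.  (i) `S.up W τ` is not empty: `hT.exact W τ _ (m - 1) _ z` for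
`z = fun _ => 1`: the hypothesis is vacuous (a `τ'` with `τ ⊆ τ'` and `τ'.card + 1 = m - 1 = τ.card` does
not exist), so there is `y` with `1 = z τ = ∑ ρ ∈ S.up W τ, y ρ`; an empty sum is `0 ≠ 1`.
(ii) It has at most two elements: suppose `ρ₁, ρ₂, ρ₃` are different elements.  Let
`z ρ = if ρ = ρ₁ ∨ ρ = ρ₂ then 1 else 0`.  For every `τ'` with `S.int W τ'`, `τ ⊆ τ'`,
`τ'.card + 1 = m` we have `τ' = τ` and `∑ ρ ∈ S.up W τ, z ρ = 1 + 1 = 0` (characteristic 2:
`CharTwo.add_self_eq_zero`).  By `hT.const`, `z ρ₁ = z ρ₃`, i.e. `1 = 0`.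
(iii) The cardinality is even (`hT.even`), not `0`, at most `2`.
`bdry_unique`.  Apply `hT.const` with `G = R`, `z ρ = if ρ = σ then 1 else 0`: there is no `τ` with
`S.int W τ`, `R ⊆ τ`, `τ.card + 1 = m = R.card + 1` (it would be `R`, but `S.c R ≠ W`), so the hypothesis is
vacuous and `z σ = z σ'`.
`connected`.  Let `z ρ = 1` if `ρ` is reachable from `σ` by the relation, `0` otherwise (classical).  For an
interior ridge `τ ⊇ G` the set `S.up W τ` has two elements (`up_card_two`) which are related to each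
other (in both directions), so both are reachable or none: the sum of `z` is `0` (characteristic 2).
By `hT.const`, `z σ' = z σ = 1`.
-/

set_option autoImplicit false

namespace Pool.Agent.LocG

open Finset

namespace Sub

variable {Nd V : Type} [DecidableEq Nd] [DecidableEq V] {S : Sub Nd V} {K : Type} [Field K]

theorem int_of_card {W : Finset V} {F : Finset Nd} (h : S.inW W F) (hc : F.card = W.card) :
    S.int W F := by
  refine ⟨h.1, Finset.eq_of_subset_of_card_le h.2 ?_⟩
  rw [← hc]
  exact S.card_le F h.1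

private theorem mem_up' {W : Finset V} {τ σ : Finset Nd} :
    σ ∈ S.up W τ ↔ S.int W σ ∧ τ ⊆ σ ∧ σ.card = τ.card + 1 := by
  unfold up int
  rw [Finset.mem_filter]
  tauto

private theorem inW_sub' {W : Finset V} {G σ : Finset Nd} (h : S.int W σ) (hs : G ⊆ σ) :
    S.inW W G := by
  refine ⟨S.down σ h.1 G hs, ?_⟩
  have h1 : S.c G ⊆ S.c σ := Finset.biUnion_subset_biUnion_of_subset_left _ hs
  rw [h.2] at h1
  exact h1

theorem up_card_two [CharP K 2] (hT : S.Top K) {W : Finset V} {τ : Finset Nd} (h : S.int W τ)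
    (hc : τ.card + 1 = W.card) : (S.up W τ).card = 2 := by
  have hin : S.inW W τ := inW_sub' h (Finset.Subset.refl _)
  have h1 : (S.up W τ).Nonempty := by
    obtain ⟨y, hy⟩ := hT.exact W τ hin τ.card (by omega) (fun _ => 1) (by
      intro τ' _ h2 h3
      have := Finset.card_le_card h2
      omega)
    have h2 := hy τ h (Finset.Subset.refl _) rfl
    by_contra h3
    rw [Finset.not_nonempty_iff_eq_empty] at h3
    rw [h3, Finset.sum_empty] at h2
    exact one_ne_zero h2
  have h2 : (S.up W τ).card ≤ 2 := by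
    by_contra h3
    rw [not_le, Finset.two_lt_card] at h3
    obtain ⟨a, ha, b, hb, d, hd, hab, had, hbd⟩ := h3
    have h4 := hT.const W τ hin
      (fun ρ => (if ρ = a then 1 else 0) + (if ρ = b then 1 else 0)) (by
        intro τ' _ h5 h6
        have h7 : τ = τ' := Finset.eq_of_subset_of_card_le h5 (by omega)
        subst h7
        rw [Finset.sum_add_distrib, Finset.sum_ite_eq', Finset.sum_ite_eq', if_pos ha, if_pos hb]
        exact CharTwo.add_self_eq_zero 1) a d
    obtain ⟨a1, a2, a3⟩ := mem_up'.1 ha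
    obtain ⟨d1, d2, d3⟩ := mem_up'.1 hd
    have h5 := h4 a1 a2 (by omega) d1 d2 (by omega)
    simp only [if_true, if_neg hab, if_neg had.symm, if_neg hbd.symm, add_zero] at h5
    exact one_ne_zero h5
  obtain ⟨r, hr⟩ := hT.even W τ h hc
  have h3 := h1.card_pos
  omega

theorem bdry_unique (hT : S.Top K) {W : Finset V} {R σ σ' : Finset Nd} (hR : S.inW W R)
    (hne : S.c R ≠ W) (hc : R.card + 1 = W.card) (h : S.int W σ) (hs : R ⊆ σ)
    (hσ : σ.card = W.card) (h' : S.int W σ') (hs' : R ⊆ σ') (hσ' : σ'.card = W.card) :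
    σ = σ' := by
  have h1 := hT.const W R hR (fun ρ => if ρ = σ then 1 else 0) (by
    intro τ ht h5 h6
    have h7 : R = τ := Finset.eq_of_subset_of_card_le h5 (by omega)
    subst h7
    exact absurd ht.2 hne) σ σ' h hs hσ h' hs' hσ'
  simp only [if_true] at h1
  by_contra h2
  rw [if_neg (fun h3 => h2 h3.symm)] at h1
  exact one_ne_zero h1

theorem connected [CharP K 2] (hT : S.Top K) {W : Finset V} {G σ σ' : Finset Nd}
    (h : S.int W σ) (hs : G ⊆ σ) (hσ : σ.card = W.card) (h' : S.int W σ') (hs' : G ⊆ σ')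
    (hσ' : σ'.card = W.card) :
    Relation.ReflTransGen (fun α β : Finset Nd => ∃ τ, S.int W τ ∧ G ⊆ τ ∧
      τ.card + 1 = W.card ∧ α ∈ S.up W τ ∧ β ∈ S.up W τ) σ σ' := by
  classical
  set Q : Finset Nd → Finset Nd → Prop := fun α β => ∃ τ, S.int W τ ∧ G ⊆ τ ∧
      τ.card + 1 = W.card ∧ α ∈ S.up W τ ∧ β ∈ S.up W τ with hQ
  have h1 := hT.const W G (inW_sub' h hs)
    (fun ρ => if Relation.ReflTransGen Q σ ρ then (1 : K) else 0) (by
      intro τ ht h5 h6
      obtain ⟨x, y, hxy, h7⟩ := Finset.card_eq_two.1 (up_card_two hT ht h6)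
      have hx : x ∈ S.up W τ := by
        rw [h7]
        exact Finset.mem_insert_self _ _
      have hy : y ∈ S.up W τ := by
        rw [h7]
        exact Finset.mem_insert_of_mem (Finset.mem_singleton_self _)
      have h8 : Relation.ReflTransGen Q σ x ↔ Relation.ReflTransGen Q σ y :=
        ⟨fun h9 => h9.tail ⟨τ, ht, h5, h6, hx, hy⟩, fun h9 => h9.tail ⟨τ, ht, h5, h6, hy, hx⟩⟩
      rw [h7, Finset.sum_pair hxy]
      simp only [h8]
      exact CharTwo.add_self_eq_zero _) σ σ' h hs hσ h' hs' hσ'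
  simp only [if_pos (Relation.ReflTransGen.refl : Relation.ReflTransGen Q σ σ)] at h1
  by_contra h2
  rw [if_neg h2] at h1
  exact one_ne_zero h1

end Sub

end Pool.Agent.LocG
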