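import Mathlib

/-!
# MP_230912_co: local h-vectors; combinatorial subdivisions, graded families, regularity

Paper proof: `/team-store/LHV_proof.md` (helper48).  `Nd` is the set of the vertices of the
subdivision, `V` the vertex set of the simplex, `D = Fintype.card V`.
-/

set_option autoImplicit false

namespace Pool.Agent.LocG

open Finset

/-! ## Subdivisions -/

/-- the combinatorial data of a subdivision of the simplex on `V`: faces (with the empty face) and
carriers of the vertices -/
structure Sub (Nd V : Type) [DecidableEq Nd] [DecidableEq V] where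
  faces : Finset (Finset Nd)
  car : Nd → Finset V
  empty_mem : ∅ ∈ faces
  down : ∀ F ∈ faces, ∀ G, G ⊆ F → G ∈ faces
  card_le : ∀ F ∈ faces, F.card ≤ (F.biUnion car).card

namespace Sub

variable {Nd V : Type} [DecidableEq Nd] [DecidableEq V] (S : Sub Nd V)

/-- the carrier of a set of vertices -/
def c (F : Finset Nd) : Finset V := F.biUnion S.car

/-- the faces of `Γ_W` -/
def inW (W : Finset V) (F : Finset Nd) : Prop := F ∈ S.faces ∧ S.c F ⊆ W

/-- the `W`-interior faces -/
def int (W : Finset V) (F : Finset Nd) : Prop := F ∈ S.faces ∧ S.c F = W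

instance (W : Finset V) (F : Finset Nd) : Decidable (S.inW W F) :=
  inferInstanceAs (Decidable (F ∈ S.faces ∧ S.c F ⊆ W))

instance (W : Finset V) (F : Finset Nd) : Decidable (S.int W F) :=
  inferInstanceAs (Decidable (F ∈ S.faces ∧ S.c F = W))

/-- the `W`-interior faces with one vertex more than `τ` which contain `τ` -/
def up (W : Finset V) (τ : Finset Nd) : Finset (Finset Nd) :=
  S.faces.filter fun σ => S.c σ = W ∧ τ ⊆ σ ∧ σ.card = τ.card + 1

/-- the property (Top): for every `W` and every face `G` of `Γ_W` the complex of the `W`-interior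
faces containing `G` is exact below the top size `|W|`, the top cycles are the constants -/
structure Top (K : Type) [Field K] : Prop where
  exact : ∀ (W : Finset V) (G : Finset Nd), S.inW W G → ∀ j : ℕ, j < W.card → ∀ z : Finset Nd → K,
    (∀ τ, S.int W τ → G ⊆ τ → τ.card + 1 = j → ∑ σ ∈ S.up W τ, z σ = 0) →
    ∃ y : Finset Nd → K, ∀ σ, S.int W σ → G ⊆ σ → σ.card = j → z σ = ∑ ρ ∈ S.up W σ, y ρ
  const : ∀ (W : Finset V) (G : Finset Nd), S.inW W G → ∀ z : Finset Nd → K,
    (∀ τ, S.int W τ → G ⊆ τ → τ.card + 1 = W.card → ∑ σ ∈ S.up W τ, z σ = 0) →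
    ∀ σ σ', S.int W σ → G ⊆ σ → σ.card = W.card → S.int W σ' → G ⊆ σ' → σ'.card = W.card →
      z σ = z σ'
  facet : ∀ (W : Finset V) (G : Finset Nd), S.inW W G →
    ∃ σ, S.int W σ ∧ G ⊆ σ ∧ σ.card = W.card
  even : ∀ (W : Finset V) (τ : Finset Nd), S.int W τ → τ.card + 1 = W.card →
    Even (S.up W τ).card

/-- the h-polynomial of `Γ_W` -/
noncomputable def hW (W : Finset V) : Polynomial ℤ :=
  ∑ F ∈ S.faces.filter (fun F => S.c F ⊆ W),
    Polynomial.X ^ F.card * (1 - Polynomial.X) ^ (W.card - F.card)

/-- the local h-polynomial -/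
noncomputable def lh [Fintype V] : Polynomial ℤ :=
  ∑ W : Finset V, (-1) ^ (Fintype.card V - W.card) * S.hW W

/-- the good monomials: `|C| ≤ 2 deg_C(n)` for all `C ⊆ V`, where `deg_C(n)` is the number of the
vertices of `n` (with multiplicity) whose carrier meets `C` -/
def Good [Fintype Nd] (n : Nd →₀ ℕ) : Prop :=
  ∀ C : Finset V, C.card ≤ 2 * ∑ v ∈ univ.filter (fun v => ¬Disjoint (S.car v) C), n v

end Sub

/-! ## Graded families of subspaces -/

section Fam

variable {K E ι : Type} [Field K] [AddCommGroup E] [Module K E]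

variable (K E) in
/-- graded families of subspaces -/
abbrev Fam : Type := ℕ → Submodule K E

/-- the family `η A`, in degree `n + 1` the image of `A n` -/
def sh (η : E →ₗ[K] E) (A : Fam K E) : Fam K E
  | 0 => ⊥
  | n + 1 => (A n).map η

/-- the family `∑ θ_c A`, `c ∈ P` -/
noncomputable def gn (θ : ι → E →ₗ[K] E) (P : Finset ι) (A : Fam K E) : Fam K E :=
  P.sup fun c => sh (θ c) A

/-- the same for a list of operators -/
noncomputable def gl (l : List (E →ₗ[K] E)) (A : Fam K E) : Fam K E :=
  l.foldr (fun η C => sh η A ⊔ C) ⊥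

/-- `η` is injective on `A / B` -/
def InjQ (η : E →ₗ[K] E) (A B : Fam K E) : Prop := ∀ n, ∀ y ∈ A n, η y ∈ B (n + 1) → y ∈ B n

/-- `A / B` is regular for the `θ_c`, `c ∈ P`, in every order -/
def Reg (θ : ι → E →ₗ[K] E) (P : Finset ι) (A B : Fam K E) : Prop :=
  ∀ Q ⊆ P, ∀ e ∈ P, e ∉ Q → InjQ (θ e) A (B ⊔ gn θ Q A)

/-- `l` is a regular sequence for `A / B` -/
def RegSeq (A : Fam K E) : Fam K E → List (E →ₗ[K] E) → Prop
  | _, [] => True
  | B, η :: l => InjQ η A B ∧ RegSeq A (B ⊔ sh η A) l

/-- all graded pieces are finite dimensional -/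
def Fd (A : Fam K E) : Prop := ∀ n, FiniteDimensional K (A n)

/-- the dimension of `(A / B)_n` -/
noncomputable def dq (A B : Fam K E) (n : ℕ) : ℤ :=
  (Module.finrank K (A n) : ℤ) - Module.finrank K (B n)

end Fam

/-- partial sums -/
def psum (f : ℕ → ℤ) (n : ℕ) : ℤ := ∑ i ∈ range (n + 1), f i

/-! ## Polynomials -/

section Poly

variable {Nd V K : Type} [Fintype Nd] [DecidableEq Nd] [Fintype V] [DecidableEq V] [Field K]

variable (K) in
/-- the polynomials all of whose monomials have degree `n` and support satisfying `p` -/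
def mf (p : Finset Nd → Prop) : Fam K (MvPolynomial Nd K) := fun n =>
  { carrier := {f | ∀ m : Nd →₀ ℕ, f.coeff m ≠ 0 → m.degree = n ∧ p m.support}
    add_mem' := by
      intro f g hf hg m hm
      by_cases h : f.coeff m = 0
      · refine hg m fun h' => hm ?_
        rw [MvPolynomial.coeff_add, h, h', add_zero]
      · exact hf m h
    zero_mem' := by
      intro m hm
      exact absurd (MvPolynomial.coeff_zero m) hm
    smul_mem' := by
      intro r f hf m hm
      refine hf m fun h => hm ?_
      rw [MvPolynomial.coeff_smul, h, smul_zero] }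

/-- a linear form -/
noncomputable def lf (l : Nd → K) : MvPolynomial Nd K :=
  ∑ v, MvPolynomial.C (l v) * MvPolynomial.X v

/-- the linear forms `θ_c` -/
noncomputable def th (a : Nd → V → K) (c : V) : MvPolynomial Nd K := lf fun v => a v c

/-- multiplication by `θ_c` -/
noncomputable def mth (a : Nd → V → K) (c : V) : MvPolynomial Nd K →ₗ[K] MvPolynomial Nd K :=
  LinearMap.mulLeft K (th a c)

/-- the whole polynomial ring -/
def TT (K Nd : Type) [Field K] : Fam K (MvPolynomial Nd K) := mf K fun _ => True

namespace Sub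

variable (S : Sub Nd V)

variable (K) in
/-- the ideal of `Γ_W` -/
def I (W : Finset V) : Fam K (MvPolynomial Nd K) := mf K fun F => ¬S.inW W F

variable (K) in
/-- the ideal `J_U^W`: monomials whose support is not in `Γ_W` or has carrier containing `U` -/
def J (W U : Finset V) : Fam K (MvPolynomial Nd K) := mf K fun F => S.inW W F → U ⊆ S.c F

/-- the matrix `a` has the right zeros, and the vectors `a v`, `v ∈ σ`, are independent for every
face `σ` -/
structure Gen (a : Nd → V → K) : Prop where
  zero : ∀ v c, c ∉ S.car v → a v c = 0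
  minor : ∀ σ ∈ S.faces, ∃ f : σ → V, (Matrix.of fun u v : σ => a v (f u)).det ≠ 0

/-- (Span_i): the interior ideal in degree `D - i` is spanned by good monomials modulo `I + θ T` -/
def SpanI (a : Nd → V → K) (i : ℕ) : Prop :=
  mf K (S.int univ) (Fintype.card V - i) ≤
    Submodule.span K {f | ∃ n : Nd →₀ ℕ, S.Good n ∧ n.degree = Fintype.card V - i ∧
      f = MvPolynomial.monomial n 1} ⊔
    (S.I K univ ⊔ gn (mth a) univ (TT K Nd)) (Fintype.card V - i)

end Sub

end Poly

end Pool.Agent.LocG
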