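import Pool.Agent.LocG.Defs

/-!
# MP_230912_co, file LemR: regular families (pure lattice algebra)

`Fam K E` is the lattice of the graded families `A : ℕ → Submodule K E` (pointwise order, sup, inf),
`sh η A` is the family `η A` shifted by one degree, `gn θ P A = ∑_{c ∈ P} θ_c A`, `InjQ η A B`: `η` is
injective on `A / B`; `Reg θ P A B`: for all `Q ⊆ P` and `e ∈ P \ Q`, `θ_e` is injective on
`A / (B + θ_Q A)`.

PROOFS.
`sh_mono`, `sh_sup`, `sh_bot`: degreewise (`Submodule.map_mono`, `Submodule.map_sup`).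
`sh_comm`: degree `0`, `1`: both are `⊥`; degree `n + 2`: `map η (map η' (A n))`.
`gn_empty`, `gn_insert` (`Finset.sup_insert`), `gn_mono` (in `P` and in `A`), `gn_sup`
(induction on `P`, `sh_sup`), `sh_gn`: `sh η (gn θ P A) = gn θ P (sh η A)` for `η = θ e` (induction on `P`,
`sh_sup`, `sh_comm`).
`gn_le`: if `sh (θ c) A ≤ A` for all `c ∈ P` then `gn θ P A ≤ A` (`Finset.sup_le`).
`mem_sh`: `y ∈ sh η A (n + 1)` iff `y = η x` with `x ∈ A n`.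

`lemR` (Lemma R).  Write `X_Q = B ⊔ sh (θ c) A ⊔ gn θ Q A`.
(R1) By induction on `Q` (`Finset.induction_on`, the statement for all `Q ⊆ P`):
`A' ⊓ X_Q ≤ B ⊔ sh (θ c) A ⊔ gn θ Q A'`.  `Q = ∅`: trivial.  Step `Q + b`: let `y ∈ A' n` and
`y ∈ (X_Q ⊔ sh (θ b) A) n` (`gn_insert`).  If `n = 0` then `sh (θ b) A 0 = ⊥` and the induction
hypothesis applies.  For `n + 1`: `y = x + θ_b z` with `x ∈ X_Q (n+1)`, `z ∈ A n`.  As
`B ⊔ sh (θ c) A ≤ A'`, we get `θ_b z = y - x ∈ (A' ⊔ gn θ Q A) (n+1)`.  `Reg θ P A A'` with `Q`, `b` gives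
`z ∈ (A' ⊔ gn θ Q A) n`, `z = z' + z''`, `z' ∈ A' n`, `z'' ∈ gn θ Q A n`;
`θ_b z'' ∈ sh (θ b) (gn θ Q A) (n+1) = gn θ Q (sh (θ b) A) (n+1) ⊆ gn θ Q A (n+1)` (`sh_gn`, `hA`).  So
`y - θ_b z' = x + θ_b z'' ∈ X_Q (n+1)`, and it is in `A' (n+1)` (`hA'`).  By the induction hypothesis it is
in `B ⊔ sh (θ c) A ⊔ gn θ Q A'`, and `θ_b z' ∈ sh (θ b) A'`.
(R2) `Reg θ P A' (B ⊔ sh (θ c) A)`: let `Q ⊆ P`, `e ∈ P \ Q`, `y ∈ A' n`,
`θ_e y ∈ (B ⊔ sh (θ c) A ⊔ gn θ Q A') (n+1)`.  Then `y ∈ A n`, `θ_e y ∈ (B ⊔ gn θ (insert c Q) A) (n+1)`, and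
`Reg θ (insert c P) A B` with `insert c Q`, `e` (`e ∉ insert c Q` because `c ∉ P`) gives
`y ∈ (B ⊔ gn θ (insert c Q) A) n = X_Q n`; by (R1) `y ∈ (B ⊔ sh (θ c) A ⊔ gn θ Q A') n`.

`lemN`: the same proof without `c`.
`reg_inf`: let `Y_Q = X ⊔ gn θ Q (A ⊔ X) = X ⊔ gn θ Q A` (`gn_sup`, `gn θ Q X ≤ X` by `gn_le`).  If
`y ∈ A n` and `θ_e y ∈ ((A ⊓ X) ⊔ gn θ Q A) (n+1)` then `θ_e y ∈ Y_Q (n+1)`, so `y ∈ Y_Q n` by hypothesis, and
`y ∈ A n`; by the modular law `A ⊓ (X ⊔ gn θ Q A) = (A ⊓ X) ⊔ gn θ Q A` (`gn θ Q A ≤ A`;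
`sup_inf_assoc_of_le` degreewise, `Submodule` is a modular lattice).
-/

set_option autoImplicit false

namespace Pool.Agent.LocG

open Finset

section

variable {K E ι : Type} [Field K] [AddCommGroup E] [Module K E] [DecidableEq ι]

theorem sh_mono (η : E →ₗ[K] E) {A B : Fam K E} (h : A ≤ B) : sh η A ≤ sh η B := by
  intro n
  cases n with
  | zero => exact le_refl _
  | succ n => exact Submodule.map_mono (h n)

theorem sh_sup (η : E →ₗ[K] E) (A B : Fam K E) : sh η (A ⊔ B) = sh η A ⊔ sh η B := by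
  funext n
  cases n with
  | zero =>
    change (⊥ : Submodule K E) = ⊥ ⊔ ⊥
    rw [sup_idem]
  | succ n => exact Submodule.map_sup (A n) (B n) η

theorem sh_bot (η : E →ₗ[K] E) : sh η (⊥ : Fam K E) = ⊥ := by
  funext n
  cases n with
  | zero => rfl
  | succ n => exact Submodule.map_bot η

theorem sh_comm {η η' : E →ₗ[K] E} (h : η ∘ₗ η' = η' ∘ₗ η) (A : Fam K E) :
    sh η (sh η' A) = sh η' (sh η A) := by
  funext n
  match n with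
  | 0 => rfl
  | 1 =>
    change (⊥ : Submodule K E).map η = (⊥ : Submodule K E).map η'
    rw [Submodule.map_bot, Submodule.map_bot]
  | n + 2 =>
    change ((A n).map η').map η = ((A n).map η).map η'
    rw [← Submodule.map_comp, ← Submodule.map_comp, h]

theorem mem_sh {η : E →ₗ[K] E} {A : Fam K E} {n : ℕ} {y : E} :
    y ∈ sh η A (n + 1) ↔ ∃ x ∈ A n, η x = y := by
  exact Submodule.mem_map

theorem gn_empty (θ : ι → E →ₗ[K] E) (A : Fam K E) : gn θ ∅ A = ⊥ := by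
  unfold gn
  exact Finset.sup_empty

theorem gn_insert (θ : ι → E →ₗ[K] E) (c : ι) (P : Finset ι) (A : Fam K E) :
    gn θ (insert c P) A = sh (θ c) A ⊔ gn θ P A := by
  unfold gn
  exact Finset.sup_insert

theorem gn_mono (θ : ι → E →ₗ[K] E) {P Q : Finset ι} (h : P ⊆ Q) {A B : Fam K E} (hA : A ≤ B) :
    gn θ P A ≤ gn θ Q B := by
  unfold gn
  exact (Finset.sup_mono_fun fun b _ => sh_mono (θ b) hA).trans (Finset.sup_mono h)

theorem gn_sup (θ : ι → E →ₗ[K] E) (P : Finset ι) (A B : Fam K E) :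
    gn θ P (A ⊔ B) = gn θ P A ⊔ gn θ P B := by
  induction P using Finset.induction_on with
  | empty => rw [gn_empty, gn_empty, gn_empty, sup_idem]
  | insert c P _ ih =>
    rw [gn_insert, gn_insert, gn_insert, ih, sh_sup]
    exact sup_sup_sup_comm _ _ _ _

theorem gn_le {θ : ι → E →ₗ[K] E} {P : Finset ι} {A B : Fam K E}
    (h : ∀ c ∈ P, sh (θ c) A ≤ B) : gn θ P A ≤ B := by
  unfold gn
  exact Finset.sup_le h

theorem sh_le_gn {θ : ι → E →ₗ[K] E} {P : Finset ι} {A : Fam K E} {c : ι} (h : c ∈ P) :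
    sh (θ c) A ≤ gn θ P A := by
  unfold gn
  exact Finset.le_sup (f := fun c => sh (θ c) A) h

theorem sh_gn {θ : ι → E →ₗ[K] E} (hθ : ∀ i j, θ i ∘ₗ θ j = θ j ∘ₗ θ i) (e : ι) (P : Finset ι)
    (A : Fam K E) : sh (θ e) (gn θ P A) = gn θ P (sh (θ e) A) := by
  induction P using Finset.induction_on with
  | empty => rw [gn_empty, gn_empty, sh_bot]
  | insert c P _ ih =>
    rw [gn_insert, gn_insert, sh_sup, ih, sh_comm (hθ e c)]

/-- the common step of (R1) and of the first half of `lemN` -/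
private theorem step {θ : ι → E →ₗ[K] E} (hθ : ∀ i j, θ i ∘ₗ θ j = θ j ∘ₗ θ i) {A A' C : Fam K E}
    {P : Finset ι} (hA : ∀ b ∈ P, sh (θ b) A ≤ A)
    (hA' : ∀ b ∈ P, sh (θ b) A' ≤ A') (h1 : C ≤ A') (hr' : Reg θ P A A') (Q : Finset ι) :
    Q ⊆ P → A' ⊓ (C ⊔ gn θ Q A) ≤ C ⊔ gn θ Q A' := by
  induction Q using Finset.induction_on with
  | empty =>
    intro _
    rw [gn_empty, gn_empty]
    exact inf_le_right
  | insert b Q hb ih =>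
    intro hQ
    have hbP : b ∈ P := hQ (Finset.mem_insert_self b Q)
    have hQP : Q ⊆ P := (Finset.subset_insert b Q).trans hQ
    have ih' := ih hQP
    rw [gn_insert, gn_insert]
    intro n
    cases n with
    | zero =>
      intro y hy
      have hy1 : y ∈ A' 0 := hy.1
      have hy2 : y ∈ C 0 ⊔ (sh (θ b) A 0 ⊔ gn θ Q A 0) := hy.2
      have e0 : sh (θ b) A 0 = ⊥ := rfl
      rw [e0, bot_sup_eq] at hy2
      have hy3 : y ∈ C 0 ⊔ gn θ Q A' 0 := ih' 0 ⟨hy1, hy2⟩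
      change y ∈ C 0 ⊔ (sh (θ b) A' 0 ⊔ gn θ Q A' 0)
      exact (sup_le_sup_left (le_sup_right) _ : C 0 ⊔ gn θ Q A' 0 ≤ _) hy3
    | succ n =>
      intro y hy
      have hy1 : y ∈ A' (n + 1) := hy.1
      have hy2 : y ∈ C (n + 1) ⊔ (sh (θ b) A (n + 1) ⊔ gn θ Q A (n + 1)) := hy.2
      rw [sup_left_comm, Submodule.mem_sup] at hy2
      obtain ⟨w, hw, x, hx, hwx⟩ := hy2
      obtain ⟨z, hz, hzw⟩ := mem_sh.1 hw
      have k1 : C (n + 1) ⊔ gn θ Q A (n + 1) ≤ A' (n + 1) ⊔ gn θ Q A (n + 1) :=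
        sup_le_sup_right (h1 (n + 1)) _
      have hw2 : θ b z ∈ A' (n + 1) ⊔ gn θ Q A (n + 1) := by
        rw [hzw]
        have : w = y - x := by rw [← hwx]; abel
        rw [this]
        exact Submodule.sub_mem _ ((le_sup_left : A' (n + 1) ≤ _) hy1) (k1 hx)
      have hz2 : z ∈ A' n ⊔ gn θ Q A n := hr' Q hQP b hbP hb n z hz hw2
      obtain ⟨z1, hz1, z2, hz2', hzz⟩ := Submodule.mem_sup.1 hz2
      have k2 : θ b z2 ∈ gn θ Q A (n + 1) := by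
        have k3 : θ b z2 ∈ sh (θ b) (gn θ Q A) (n + 1) := mem_sh.2 ⟨z2, hz2', rfl⟩
        rw [sh_gn hθ] at k3
        exact gn_mono θ (Finset.Subset.refl Q) (hA b hbP) (n + 1) k3
      have k4 : θ b z1 ∈ sh (θ b) A' (n + 1) := mem_sh.2 ⟨z1, hz1, rfl⟩
      have k5 : y - θ b z1 = x + θ b z2 := by
        have : y = θ b z1 + θ b z2 + x := by
          rw [← hwx, ← hzw, ← hzz, map_add]
        rw [this]; abel
      have k6 : y - θ b z1 ∈ A' (n + 1) :=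
        Submodule.sub_mem _ hy1 (hA' b hbP (n + 1) k4)
      have k7 : y - θ b z1 ∈ C (n + 1) ⊔ gn θ Q A (n + 1) := by
        rw [k5]
        exact Submodule.add_mem _ hx ((le_sup_right : gn θ Q A (n + 1) ≤ _) k2)
      have k8 : y - θ b z1 ∈ C (n + 1) ⊔ gn θ Q A' (n + 1) := ih' (n + 1) ⟨k6, k7⟩
      change y ∈ C (n + 1) ⊔ (sh (θ b) A' (n + 1) ⊔ gn θ Q A' (n + 1))
      have k9 : y = θ b z1 + (y - θ b z1) := by abel
      rw [k9, sup_left_comm]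
      exact Submodule.add_mem _ ((le_sup_left : sh (θ b) A' (n + 1) ≤ _) k4)
        ((le_sup_right : C (n + 1) ⊔ gn θ Q A' (n + 1) ≤ _) k8)

/-- Lemma R -/
theorem lemR {θ : ι → E →ₗ[K] E} (hθ : ∀ i j, θ i ∘ₗ θ j = θ j ∘ₗ θ i) {A A' B : Fam K E}
    {c : ι} {P : Finset ι} (hc : c ∉ P) (hA : ∀ b ∈ P, sh (θ b) A ≤ A)
    (hA' : ∀ b ∈ P, sh (θ b) A' ≤ A') (h1 : B ⊔ sh (θ c) A ≤ A') (h2 : A' ≤ A)
    (hr : Reg θ (insert c P) A B) (hr' : Reg θ P A A') :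
    (∀ Q ⊆ P, A' ⊓ (B ⊔ sh (θ c) A ⊔ gn θ Q A) ≤ B ⊔ sh (θ c) A ⊔ gn θ Q A') ∧
      Reg θ P A' (B ⊔ sh (θ c) A) := by
  have r1 : ∀ Q ⊆ P, A' ⊓ (B ⊔ sh (θ c) A ⊔ gn θ Q A) ≤ B ⊔ sh (θ c) A ⊔ gn θ Q A' :=
    fun Q hQ => step hθ hA hA' h1 hr' Q hQ
  refine ⟨r1, ?_⟩
  intro Q hQ e he heQ n y hy hey
  have hyA : y ∈ A n := h2 n hy
  have k1 : B ⊔ sh (θ c) A ⊔ gn θ Q A' ≤ B ⊔ gn θ (insert c Q) A := by
    rw [gn_insert, sup_assoc]
    exact sup_le_sup_left (sup_le_sup_left (gn_mono θ (Finset.Subset.refl Q) h2) _) _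
  have hne : e ∉ insert c Q := by
    intro h
    rcases Finset.mem_insert.1 h with h | h
    · exact hc (h ▸ he)
    · exact heQ h
  have k2 : y ∈ (B ⊔ gn θ (insert c Q) A) n :=
    hr (insert c Q) (Finset.insert_subset_insert c hQ) e (Finset.mem_insert_of_mem he) hne n y hyA
      (k1 (n + 1) hey)
  rw [gn_insert, ← sup_assoc] at k2
  exact r1 Q hQ n ⟨hy, k2⟩

theorem lemN {θ : ι → E →ₗ[K] E} (hθ : ∀ i j, θ i ∘ₗ θ j = θ j ∘ₗ θ i) {A A' B : Fam K E}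
    {P : Finset ι} (hA : ∀ b ∈ P, sh (θ b) A ≤ A) (hA' : ∀ b ∈ P, sh (θ b) A' ≤ A')
    (h1 : B ≤ A') (h2 : A' ≤ A) (hr : Reg θ P A B) (hr' : Reg θ P A A') :
    (∀ Q ⊆ P, A' ⊓ (B ⊔ gn θ Q A) ≤ B ⊔ gn θ Q A') ∧ Reg θ P A' B := by
  have r1 : ∀ Q ⊆ P, A' ⊓ (B ⊔ gn θ Q A) ≤ B ⊔ gn θ Q A' :=
    fun Q hQ => step hθ hA hA' h1 hr' Q hQ
  refine ⟨r1, ?_⟩
  intro Q hQ e he heQ n y hy hey
  have k1 : B ⊔ gn θ Q A' ≤ B ⊔ gn θ Q A :=
    sup_le_sup_left (gn_mono θ (Finset.Subset.refl Q) h2) _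
  exact r1 Q hQ n ⟨hy, hr Q hQ e he heQ n y (h2 n hy) (k1 (n + 1) hey)⟩

theorem reg_inf {θ : ι → E →ₗ[K] E} {A X : Fam K E} {P : Finset ι}
    (hA : ∀ b ∈ P, sh (θ b) A ≤ A) (hX : ∀ b ∈ P, sh (θ b) X ≤ X)
    (hr : Reg θ P (A ⊔ X) X) : Reg θ P A (A ⊓ X) := by
  intro Q hQ e he heQ n y hy hey
  have kX : gn θ Q X ≤ X := gn_le fun b hb => hX b (hQ hb)
  have kA : gn θ Q A ≤ A := gn_le fun b hb => hA b (hQ hb)
  have k1 : X ⊔ gn θ Q (A ⊔ X) = X ⊔ gn θ Q A := by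
    rw [gn_sup, sup_comm (gn θ Q A), ← sup_assoc, sup_eq_left.2 kX]
  have k2 : (A ⊓ X) ⊔ gn θ Q A ≤ X ⊔ gn θ Q (A ⊔ X) := by
    rw [k1]
    exact sup_le_sup_right inf_le_right _
  have k3 : y ∈ (X ⊔ gn θ Q (A ⊔ X)) n :=
    hr Q hQ e he heQ n y ((le_sup_left : A ≤ A ⊔ X) n hy) (k2 (n + 1) hey)
  rw [k1] at k3
  have k4 : y ∈ A n ⊓ (X n ⊔ gn θ Q A n) := ⟨hy, k3⟩
  have k5 : A n ⊓ (X n ⊔ gn θ Q A n) = (A n ⊓ X n) ⊔ gn θ Q A n :=
    (inf_sup_assoc_of_le (X n) (kA n)).symm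
  rw [k5] at k4
  exact k4

end

end Pool.Agent.LocG
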