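import Pool.Agent.LocG.LemR

/-!
# MP_230912_co, file Mono: monomial families

`mf K p n`: polynomials all of whose monomials `m` have degree `n` and `p m.support` (membership is by
definition `∀ m, f.coeff m ≠ 0 → m.degree = n ∧ p m.support`).

PROOFS.
`mono_mem`: `MvPolynomial.coeff_monomial`.
`mf_mono`, `mf_inf`: from the definition.
`mf_sup`: `≥` from `mf_mono`; `≤`... for `f ∈ mf (p ∨ q) n` write
`f = ∑_{m ∈ f.support} monomial m (f.coeff m)` (`MvPolynomial.support_sum_monomial_coeff`), each summand is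
in `mf p n` or in `mf q n` (`Submodule.sum_mem`).
`mf_span`: the same expansion.
`mf_finrank`: the linear map `mf K p n → ({m // m.degree = n ∧ p m.support} → K)`, `f ↦ coefficients` is
injective (all other coefficients vanish) and surjective; the type of the `m` is finite: `m.degree = n`
implies `m v ≤ n` for all `v` (`Finset.Iic` / `Set.Finite.subset` of
`(Finset.univ.finsuppAntidiag n)` or `Finsupp.degree`).  So the family is finite dimensional (`mf_fd`),
with dimension the number of the `m` (`Module.finrank_fintype_fun_eq_card`, `Nat.card`).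
`dq_mf`: `mf q n = mf p n ⊕ mf (q ∧ ¬p) n` (`mf_sup`, `mf_inf` with `p F ∨ (q F ∧ ¬p F) ↔ q F`):
`Submodule.finrank_sup_add_finrank_inf_eq`.
`mth_comm`: commutativity of the multiplication.
`sh_lf`: an element of `mf p n` times `lf l = ∑ v, C (l v) * X v`: a monomial of the product with
non-zero coefficient is `m + single v 1` with `f.coeff m ≠ 0`, `l v ≠ 0`; its degree is `n + 1` and its
support is `insert v m.support`.  (By `mf_span` and linearity it is enough to treat
`monomial m 1 * lf l = ∑ v, monomial (m + single v 1) (l v)`, summands with `l v = 0` vanish.)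
`sh_mth`: the case `l v = a v c`.
-/

set_option autoImplicit false

namespace Pool.Agent.LocG

open Finset

section

variable {Nd V K : Type} [Fintype Nd] [DecidableEq Nd] [Fintype V] [DecidableEq V] [Field K]

omit [Fintype Nd] in
private theorem mf_iff {p : Finset Nd → Prop} {n : ℕ} {f : MvPolynomial Nd K} :
    f ∈ mf K p n ↔ ∀ m : Nd →₀ ℕ, f.coeff m ≠ 0 → m.degree = n ∧ p m.support := Iff.rfl

theorem mono_mem {p : Finset Nd → Prop} {n : ℕ} {m : Nd →₀ ℕ} (h : m.degree = n)
    (hp : p m.support) (r : K) : MvPolynomial.monomial m r ∈ mf K p n := by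
  rw [mf_iff]
  intro m' hm'
  rw [MvPolynomial.coeff_monomial] at hm'
  split_ifs at hm' with h1
  · rw [← h1]
    exact ⟨h, hp⟩
  · exact absurd rfl hm'

theorem mf_mono {p q : Finset Nd → Prop} (h : ∀ F, p F → q F) : mf K p ≤ mf K q := by
  intro n f hf
  rw [mf_iff] at hf ⊢
  exact fun m hm => ⟨(hf m hm).1, h _ (hf m hm).2⟩

theorem mf_congr {p q : Finset Nd → Prop} (h : ∀ F, p F ↔ q F) : mf K p = mf K q :=
  le_antisymm (mf_mono fun F => (h F).1) (mf_mono fun F => (h F).2)

theorem mf_inf (p q : Finset Nd → Prop) : mf K p ⊓ mf K q = mf K fun F => p F ∧ q F := by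
  refine le_antisymm (fun n f hf => ?_) (le_inf (mf_mono fun F h => h.1) (mf_mono fun F h => h.2))
  obtain ⟨h1, h2⟩ := Submodule.mem_inf.mp (show f ∈ mf K p n ⊓ mf K q n from hf)
  rw [mf_iff] at h1 h2 ⊢
  exact fun m hm => ⟨(h1 m hm).1, (h1 m hm).2, (h2 m hm).2⟩

theorem mf_sup (p q : Finset Nd → Prop) : mf K p ⊔ mf K q = mf K fun F => p F ∨ q F := by
  refine le_antisymm (sup_le (mf_mono fun F => Or.inl) (mf_mono fun F => Or.inr))
    (fun n f hf => ?_)
  change f ∈ mf K p n ⊔ mf K q n
  rw [mf_iff] at hf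
  rw [← MvPolynomial.support_sum_monomial_coeff f]
  refine Submodule.sum_mem _ fun m hm => ?_
  obtain ⟨h1, h2⟩ := hf m (MvPolynomial.mem_support_iff.mp hm)
  rcases h2 with h2 | h2
  · exact Submodule.mem_sup_left (mono_mem h1 h2 _)
  · exact Submodule.mem_sup_right (mono_mem h1 h2 _)

theorem mf_false : mf K (fun _ : Finset Nd => False) = ⊥ := by
  refine le_antisymm (fun n f hf => ?_) bot_le
  change f ∈ (⊥ : Submodule K (MvPolynomial Nd K))
  rw [mf_iff] at hf
  rw [Submodule.mem_bot]
  refine MvPolynomial.ext _ _ fun m => ?_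
  rw [MvPolynomial.coeff_zero]
  by_contra h
  exact (hf m h).2

theorem mf_span (p : Finset Nd → Prop) (n : ℕ) :
    mf K p n = Submodule.span K {f | ∃ m : Nd →₀ ℕ, m.degree = n ∧ p m.support ∧
      f = MvPolynomial.monomial m 1} := by
  refine le_antisymm (fun f hf => ?_) (Submodule.span_le.mpr ?_)
  · rw [mf_iff] at hf
    rw [← MvPolynomial.support_sum_monomial_coeff f]
    refine Submodule.sum_mem _ fun m hm => ?_
    obtain ⟨h1, h2⟩ := hf m (MvPolynomial.mem_support_iff.mp hm)
    have h3 : MvPolynomial.monomial m (f.coeff m) =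
        f.coeff m • (MvPolynomial.monomial m 1 : MvPolynomial Nd K) := by
      rw [MvPolynomial.smul_monomial, smul_eq_mul, mul_one]
    rw [h3]
    exact Submodule.smul_mem _ _ (Submodule.subset_span ⟨m, h1, h2, rfl⟩)
  · rintro _ ⟨m, h1, h2, rfl⟩
    exact mono_mem h1 h2 1

omit [Fintype Nd] in
private theorem mf_restrict (p : Finset Nd → Prop) (n : ℕ) :
    mf K p n = MvPolynomial.restrictSupport K {m : Nd →₀ ℕ | m.degree = n ∧ p m.support} := by
  ext f
  rw [mf_iff, MvPolynomial.mem_restrictSupport_iff]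
  constructor
  · intro h m hm
    exact h m (MvPolynomial.mem_support_iff.mp (Finset.mem_coe.mp hm))
  · intro h m hm
    exact h (Finset.mem_coe.mpr (MvPolynomial.mem_support_iff.mpr hm))

omit [DecidableEq Nd] in
private theorem fin_deg (p : Finset Nd → Prop) (n : ℕ) :
    Finite {m : Nd →₀ ℕ | m.degree = n ∧ p m.support} := by
  have h1 : ∀ (m : {m : Nd →₀ ℕ | m.degree = n ∧ p m.support}) (v : Nd), m.1 v < n + 1 := by
    rintro ⟨m, h2, h3⟩ v
    have h4 : m v ≤ m.degree := by
      rw [Finsupp.degree_eq_sum]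
      exact Finset.single_le_sum (f := fun i => m i) (fun _ _ => Nat.zero_le _)
        (Finset.mem_univ v)
    rw [h2] at h4
    exact Nat.lt_succ_of_le h4
  exact Finite.of_injective (β := Nd → Fin (n + 1)) (fun m v => ⟨m.1 v, h1 m v⟩) fun m m' h =>
    Subtype.ext (Finsupp.ext fun v => congrArg Fin.val (congrFun h v))

theorem mf_fd (p : Finset Nd → Prop) : Fd (mf K p) := by
  intro n
  rw [mf_restrict]
  have := fin_deg p n
  exact Module.Finite.of_basis (MvPolynomial.basisRestrictSupport K
    {m : Nd →₀ ℕ | m.degree = n ∧ p m.support})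

theorem mf_finrank (p : Finset Nd → Prop) (n : ℕ) :
    Module.finrank K (mf K p n) = Nat.card {m : Nd →₀ ℕ // m.degree = n ∧ p m.support} := by
  rw [mf_restrict]
  exact Module.finrank_eq_nat_card_basis (MvPolynomial.basisRestrictSupport K
    {m : Nd →₀ ℕ | m.degree = n ∧ p m.support})

theorem dq_mf {p q : Finset Nd → Prop} (h : ∀ F, p F → q F) (n : ℕ) :
    dq (mf K q) (mf K p) n = Module.finrank K (mf K (fun F => q F ∧ ¬p F) n) := by
  have h1 : mf K p n ⊔ mf K (fun F => q F ∧ ¬p F) n = mf K q n := by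
    have h2 := congrFun (mf_sup (K := K) p fun F => q F ∧ ¬p F) n
    have h3 : mf K (fun F => p F ∨ q F ∧ ¬p F) = mf K q := mf_congr fun F => by
      constructor
      · rintro (h4 | h4)
        · exact h F h4
        · exact h4.1
      · intro h4
        by_cases h5 : p F
        · exact Or.inl h5
        · exact Or.inr ⟨h4, h5⟩
    rw [h3] at h2
    exact h2
  have h4 : mf K p n ⊓ mf K (fun F => q F ∧ ¬p F) n = ⊥ := by
    have h2 := congrFun (mf_inf (K := K) p fun F => q F ∧ ¬p F) n
    have h3 : mf K (fun F => p F ∧ q F ∧ ¬p F) = mf K fun _ => False := mf_congr fun F =>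
      ⟨fun h5 => h5.2.2 h5.1, fun h5 => h5.elim⟩
    rw [h3, mf_false] at h2
    exact h2
  have := mf_fd (K := K) p n
  have := mf_fd (K := K) (fun F => q F ∧ ¬p F) n
  have h5 := Submodule.finrank_sup_add_finrank_inf_eq (mf K p n) (mf K (fun F => q F ∧ ¬p F) n)
  rw [h1, h4, finrank_bot, add_zero] at h5
  rw [dq, h5]
  push_cast
  ring

theorem mth_comm (a : Nd → V → K) (b b' : V) : mth a b ∘ₗ mth a b' = mth a b' ∘ₗ mth a b :=
  LinearMap.ext fun x => mul_left_comm (th a b) (th a b') x

theorem sh_lf {l : Nd → K} {p q : Finset Nd → Prop}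
    (h : ∀ F v, p F → l v ≠ 0 → q (insert v F)) :
    sh (LinearMap.mulLeft K (lf l)) (mf K p) ≤ mf K q := by
  intro n
  rcases n with _ | n
  · exact bot_le
  · rintro _ ⟨g, hg, rfl⟩
    have hg' : ∀ m : Nd →₀ ℕ, g.coeff m ≠ 0 → m.degree = n ∧ p m.support := hg
    rw [LinearMap.mulLeft_apply, lf, Finset.sum_mul]
    refine Submodule.sum_mem _ fun v _ => ?_
    rw [mf_iff]
    intro m hm
    rw [mul_assoc, MvPolynomial.coeff_C_mul, MvPolynomial.coeff_X_mul'] at hm
    have h1 : l v ≠ 0 := left_ne_zero_of_mul hm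
    have h2 := right_ne_zero_of_mul hm
    have h3 : v ∈ m.support := by
      by_contra h4
      rw [if_neg h4] at h2
      exact h2 rfl
    rw [if_pos h3] at h2
    obtain ⟨h5, h6⟩ := hg' _ h2
    have h7 : m - Finsupp.single v 1 + Finsupp.single v 1 = m := by
      refine tsub_add_cancel_of_le ?_
      rw [Finsupp.single_le_iff]
      exact Nat.one_le_iff_ne_zero.mpr (Finsupp.mem_support_iff.mp h3)
    generalize m - Finsupp.single v 1 = m' at h5 h6 h7
    subst h7
    refine ⟨?_, ?_⟩
    · rw [map_add, h5, Finsupp.degree_single]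
    · have h8 : (m' + Finsupp.single v 1).support = insert v m'.support := by
        ext w
        rw [Finset.mem_insert, Finsupp.mem_support_iff, Finsupp.mem_support_iff,
          Finsupp.add_apply, Finsupp.single_apply]
        by_cases hw : v = w
        · simp [hw]
        · have hw' : w ≠ v := fun h => hw h.symm
          simp [hw, hw']
      rw [h8]
      exact h _ v h6 h1

theorem sh_mth {a : Nd → V → K} {b : V} {p q : Finset Nd → Prop}
    (h : ∀ F v, p F → a v b ≠ 0 → q (insert v F)) : sh (mth a b) (mf K p) ≤ mf K q :=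
  sh_lf (l := fun v => a v b) h

end

end Pool.Agent.LocG
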