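import Pool.Agent.LocG.SubM

/-!
# MP_230912_co, file P3A: the submodules `K(W, U, Q)` (lattice algebra)

`S.KU a W U Q = I^W + ∑_{b ∈ U} θ_b J_{(U - b) ∪ Q}^W`.

PROOFS (`sh_mono`, `sh_sup`, `sh_comm`, `mth_comm` of LemR.lean / Mono.lean; `sh_J`, `sh_I`,
`J_anti`,
`J_erase`, `I_erase` of SubM.lean; `Finset.sup_le`, `Finset.le_sup`).
`KU_empty`: `Finset.sup_empty`.
`KU_le_J`: `S.I ≤ S.J`; for `b ∈ U`: `sh_J` gives `J W (insert b (U.erase b ∪ Q)) = J W (U ∪ Q)`.
`KU_anti`: `J_anti`.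
`sh_KU`: `sh (mth a e) (S.I K W) ≤ S.I K W`;
`sh (mth a e) (sh (mth a b) (J X)) = sh (mth a b) (sh (mth a e) (J X))` (`sh_comm`), and
`sh (mth a e) (J X) ≤ J (insert e X) ≤ J X`.
`sh_KU_insert`: the same with `J (insert e X)`, `insert e (U.erase b ∪ Q) = U.erase b ∪ insert e Q`.
`KU_insert` (`b ∉ U`): `Finset.sup_insert`; the term of `b` is `J W ((insert b U).erase b ∪ Q) = J
W (U ∪ Q)`;
for `b' ∈ U`, `(insert b U).erase b' ∪ Q = U.erase b' ∪ insert b Q` (`b' ≠ b`).
`KU_erase`: by `I_erase`, `J_erase` and `sh_sup`,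
`KU (W.erase c) U Q = J W {c} ⊔ ⨆_b (sh θ_b (J W X_b) ⊔ sh θ_b (J W {c}))`, and
`sh θ_b (J W {c}) ≤ J W {c}`, `S.I K W ≤ J W {c}`.
`X_le_J`: `S.X a W U = KU W U ∅ ⊔ gn (W \ U) (J W U)`; `KU_le_J`, `gn_le`.
-/

set_option autoImplicit false

namespace Pool.Agent.LocG

open Finset

namespace Sub

variable {Nd V K : Type} [Fintype Nd] [DecidableEq Nd] [Fintype V] [DecidableEq V] [Field K]

/-- `K(W, U, Q) = I^W + ∑_{b ∈ U} θ_b J_{(U - b) ∪ Q}^W` -/
noncomputable def KU (S : Sub Nd V) (a : Nd → V → K) (W U Q : Finset V) :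
    Fam K (MvPolynomial Nd K) :=
  S.I K W ⊔ U.sup fun b => sh (mth a b) (S.J K W (U.erase b ∪ Q))

/-- `K(W, U, ∅) + ∑_{b ∈ W - U} θ_b J_U^W` -/
noncomputable def XU (S : Sub Nd V) (a : Nd → V → K) (W U : Finset V) :
    Fam K (MvPolynomial Nd K) :=
  S.KU a W U ∅ ⊔ gn (mth a) (W \ U) (S.J K W U)

variable {S : Sub Nd V} {a : Nd → V → K}

private theorem sh_fsup {K' E ι : Type} [Field K'] [AddCommGroup E] [Module K' E]
    [DecidableEq ι] (η : E →ₗ[K'] E) (U : Finset ι) (f : ι → Fam K' E) :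
    sh η (U.sup f) = U.sup fun b => sh η (f b) := by
  induction U using Finset.induction_on with
  | empty => rw [Finset.sup_empty, Finset.sup_empty, sh_bot]
  | insert c U _ ih => rw [Finset.sup_insert, Finset.sup_insert, sh_sup, ih]

theorem KU_empty (a : Nd → V → K) (W Q : Finset V) : S.KU a W ∅ Q = S.I K W := by
  unfold KU
  rw [Finset.sup_empty, sup_bot_eq]

theorem I_le_KU (a : Nd → V → K) (W U Q : Finset V) : S.I K W ≤ S.KU a W U Q := by
  exact le_sup_left

theorem KU_le_J (hg : S.Gen a) (W U Q : Finset V) : S.KU a W U Q ≤ S.J K W (U ∪ Q) := by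
  refine sup_le (S.I_le_J W (U ∪ Q)) (Finset.sup_le fun b hb => ?_)
  refine (S.sh_J hg W (U.erase b ∪ Q) b).trans ?_
  rw [← Finset.insert_union, Finset.insert_erase hb]

theorem KU_anti (a : Nd → V → K) (W U : Finset V) {Q Q' : Finset V} (h : Q ⊆ Q') :
    S.KU a W U Q' ≤ S.KU a W U Q := by
  refine sup_le le_sup_left (Finset.sup_le fun b hb => ?_)
  refine le_trans (sh_mono (mth a b) (S.J_anti W (Finset.union_subset_union_right h))) ?_
  exact le_sup_of_le_right
    (Finset.le_sup (f := fun b => sh (mth a b) (S.J K W (U.erase b ∪ Q))) hb)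

theorem sh_KU_insert (hg : S.Gen a) (W U Q : Finset V) (e : V) :
    sh (mth a e) (S.KU a W U Q) ≤ S.KU a W U (insert e Q) := by
  unfold KU
  rw [sh_sup, sh_fsup]
  refine sup_le ((S.sh_I a W e).trans le_sup_left) (Finset.sup_le fun b hb => ?_)
  rw [sh_comm (mth_comm a e b)]
  refine le_trans (sh_mono (mth a b) (S.sh_J hg W (U.erase b ∪ Q) e)) ?_
  rw [← Finset.union_insert]
  exact le_sup_of_le_right
    (Finset.le_sup (f := fun b => sh (mth a b) (S.J K W (U.erase b ∪ insert e Q))) hb)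

theorem sh_KU (hg : S.Gen a) (W U Q : Finset V) (e : V) :
    sh (mth a e) (S.KU a W U Q) ≤ S.KU a W U Q := by
  exact (sh_KU_insert hg W U Q e).trans (KU_anti a W U (Finset.subset_insert e Q))

theorem KU_insert (a : Nd → V → K) (W : Finset V) {U : Finset V} {b : V} (hb : b ∉ U)
    (Q : Finset V) :
    S.KU a W (insert b U) Q = sh (mth a b) (S.J K W (U ∪ Q)) ⊔ S.KU a W U (insert b Q) := by
  unfold KU
  rw [Finset.sup_insert, Finset.erase_insert hb, sup_left_comm]
  congr 2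
  refine Finset.sup_congr rfl fun b' hb' => ?_
  have hne : b ≠ b' := fun h => hb (h ▸ hb')
  rw [Finset.erase_insert_of_ne hne, Finset.insert_union, Finset.union_insert]

theorem KU_erase (hg : S.Gen a) (W U Q : Finset V) (e : V) :
    S.KU a (W.erase e) U Q = S.J K W {e} ⊔ S.KU a W U Q := by
  unfold KU
  rw [S.I_erase]
  refine le_antisymm (sup_le le_sup_left (Finset.sup_le fun b hb => ?_))
    (sup_le le_sup_left (sup_le ((S.I_le_J W {e}).trans le_sup_left)
      (Finset.sup_le fun b hb => ?_)))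
  · rw [S.J_erase, sh_sup]
    refine sup_le (le_sup_of_le_right (le_sup_of_le_right
      (Finset.le_sup (f := fun b => sh (mth a b) (S.J K W (U.erase b ∪ Q))) hb))) ?_
    exact ((S.sh_J hg W {e} b).trans (S.J_anti W (Finset.subset_insert b {e}))).trans le_sup_left
  · refine le_trans (sh_mono (mth a b) (S.J_erase_le W (U.erase b ∪ Q) e)) ?_
    exact le_sup_of_le_right
      (Finset.le_sup (f := fun b => sh (mth a b) (S.J K (W.erase e) (U.erase b ∪ Q))) hb)

theorem XU_le_J (hg : S.Gen a) (W U : Finset V) : S.XU a W U ≤ S.J K W U := by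
  refine sup_le ?_ (gn_le fun b _ => ?_)
  · have h := KU_le_J (S := S) hg W U ∅
    rwa [Finset.union_empty] at h
  · exact (S.sh_J hg W U b).trans (S.J_anti W (Finset.subset_insert b U))

end Sub

end Pool.Agent.LocG
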