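import Pool.Agent.LocG.P3A

/-!
# MP_230912_co, file P3B: the statement (beta)

`Alpha S a W U`: `J_U^W / K(W, U, ∅)` is regular for `W \ U`.
`Beta S a W U Q e`: `J_{U ∪ Q + e}^W ∩ K(W, U, Q) ⊆ K(W, U, Q + e)`.

PROOFS.
`beta_iter`: induction on `Q` (`Finset.induction_on`), `Q ⊆ W \ U`:
`J W (U ∪ insert e Q) ⊓ KU ∅ ≤ J W (insert e (U ∪ Q)) ⊓ (J W (U ∪ Q) ⊓ KU ∅)
≤ J W (insert e (U ∪ Q)) ⊓ KU Q ≤ KU (insert e Q)` (`J_anti`, induction hypothesis, `Beta`).
`alpha'`: let `y ∈ J W (U ∪ Q) n`, `θ_b y ∈ KU W U Q (n+1) ⊆ KU W U ∅ (n+1)` (`KU_anti`);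
`y ∈ J W U n` (`J_anti`); `Alpha` with the empty subset and `b ∈ W \ U` gives `y ∈ KU W U ∅ n`
(`gn_empty`), so `y ∈ KU W U Q n` by `beta_iter`.
`beta_step`.  Notation: `U''= U`, `U' = insert b U`, `b ∉ U`.  Hypotheses for `U` and all `W`.  Let
`y ∈ J W (insert e (U' ∪ Q)) n`, `y ∈ KU W U' Q n`.  If `n = 0`: all `sh ..` are `⊥` in degree `0`, so
`y ∈ I W 0 ⊆ KU W U' (insert e Q) 0`.  Let `n = k + 1`.  By `KU_insert`:
`y = θ_b z + w`, `z ∈ J W (U ∪ Q) k`, `w ∈ KU W U (insert b Q) (k+1)`.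
(1) `y ∈ J W {e} (k+1) = I (W.erase e) (k+1)` (`J_anti`, `I_erase`), and
`w ∈ KU W U (insert b Q) ≤ KU W U Q ≤ KU (W.erase e) U Q` (`KU_anti`, `KU_erase`); so
`θ_b z = y - w ∈ KU (W.erase e) U Q (k+1)` (`I_le_KU`).
(2) `z ∈ J (W.erase e) (U ∪ Q) k` (`J_erase_le`), and `b ∈ W.erase e`, `b ∉ U ∪ Q`, `U ∪ Q ⊆ W.erase e`; so
`alpha'` for `W.erase e` gives `z ∈ KU (W.erase e) U Q k = (J W {e} ⊔ KU W U Q) k` (`KU_erase`):
`z = z' + z''`, `z' ∈ J W {e} k`, `z'' ∈ KU W U Q k`.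
(3) `z' = z - z'' ∈ J W (U ∪ Q) k` (`KU_le_J`), so `z' ∈ J W (insert e (U ∪ Q)) k` (`J_inf`).  Hence
`θ_b z' ∈ sh θ_b (J W (U ∪ insert e Q)) (k+1) ⊆ KU W U' (insert e Q) (k+1)` (`KU_insert`).
(4) `y - θ_b z' = θ_b z'' + w ∈ KU W U (insert b Q) (k+1)` (`sh_KU_insert`), and
`y - θ_b z' ∈ J W (insert e (U ∪ insert b Q)) (k+1)` (`sh_J`, `J_anti`; `insert e (U' ∪ Q)` is the same set).
`Beta S a W U (insert b Q) e` gives `y - θ_b z' ∈ KU W U (insert e (insert b Q)) (k+1)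
⊆ KU W U' (insert e Q) (k+1)` (`KU_insert`, `Finset.insert_comm`).
So `y ∈ KU W U' (insert e Q) (k+1)`.
-/

set_option autoImplicit false

namespace Pool.Agent.LocG

open Finset

namespace Sub

variable {Nd V K : Type} [Fintype Nd] [DecidableEq Nd] [Fintype V] [DecidableEq V] [Field K]

/-- `J_U^W / K(W, U, ∅)` is regular for `W \ U` -/
def Alpha (S : Sub Nd V) (a : Nd → V → K) (W U : Finset V) : Prop :=
  Reg (mth a) (W \ U) (S.J K W U) (S.KU a W U ∅)

/-- `J_{U ∪ Q + e}^W ∩ K(W, U, Q) ⊆ K(W, U, Q + e)` -/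
def Beta (S : Sub Nd V) (a : Nd → V → K) (W U Q : Finset V) (e : V) : Prop :=
  S.J K W (insert e (U ∪ Q)) ⊓ S.KU a W U Q ≤ S.KU a W U (insert e Q)

variable {S : Sub Nd V} {a : Nd → V → K}

theorem beta_iter {W U : Finset V}
    (hβ : ∀ Q e, Q ⊆ W \ U → e ∈ W → e ∉ U → e ∉ Q → S.Beta a W U Q e) (Q : Finset V)
    (hQ : Q ⊆ W \ U) : S.J K W (U ∪ Q) ⊓ S.KU a W U ∅ ≤ S.KU a W U Q := by
  induction Q using Finset.induction_on with
  | empty => exact inf_le_right
  | insert e Q he ih =>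
    have h1 := hQ (Finset.mem_insert_self e Q)
    rw [Finset.mem_sdiff] at h1
    have hQ' := (Finset.subset_insert e Q).trans hQ
    refine le_trans (le_inf ?_ ?_) (hβ Q e hQ' h1.1 h1.2 he)
    · rw [Finset.union_insert]
      exact inf_le_left
    · refine le_trans (inf_le_inf_right _ (S.J_anti W ?_)) (ih hQ')
      exact Finset.union_subset_union_right (Finset.subset_insert e Q)

theorem alpha' {W U : Finset V} (hα : S.Alpha a W U)
    (hβ : ∀ Q e, Q ⊆ W \ U → e ∈ W → e ∉ U → e ∉ Q → S.Beta a W U Q e) {Q : Finset V}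
    (hQ : Q ⊆ W \ U) {b : V} (hb : b ∈ W) (hbU : b ∉ U) :
    InjQ (mth a b) (S.J K W (U ∪ Q)) (S.KU a W U Q) := by
  intro n y hy h1
  have h2 : y ∈ S.J K W U n := S.J_anti W Finset.subset_union_left n hy
  have h3 : mth a b y ∈ (S.KU a W U ∅ ⊔ gn (mth a) ∅ (S.J K W U)) (n + 1) := by
    rw [gn_empty, sup_bot_eq]
    exact KU_anti a W U (Finset.empty_subset Q) (n + 1) h1
  have h4 := hα ∅ (Finset.empty_subset _) b (Finset.mem_sdiff.2 ⟨hb, hbU⟩)
    (Finset.notMem_empty b) n y h2 h3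
  rw [gn_empty, sup_bot_eq] at h4
  exact beta_iter hβ Q hQ n ⟨hy, h4⟩

private theorem KU_zero (a : Nd → V → K) (W U Q : Finset V) :
    S.KU a W U Q 0 ≤ S.I K W 0 := by
  induction U using Finset.induction_on generalizing Q with
  | empty => rw [KU_empty]
  | insert b U hb ih =>
    rw [KU_insert a W hb]
    exact sup_le bot_le (ih (insert b Q))

theorem beta_step (hg : S.Gen a) {U : Finset V} {b : V} (hb : b ∉ U)
    (hα : ∀ W, U ⊆ W → S.Alpha a W U)
    (hβ : ∀ W Q e, U ⊆ W → Q ⊆ W \ U → e ∈ W → e ∉ U → e ∉ Q → S.Beta a W U Q e)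
    {W Q : Finset V} {e : V} (hW : insert b U ⊆ W) (hQ : Q ⊆ W \ insert b U) (he : e ∈ W)
    (heU : e ∉ insert b U) (heQ : e ∉ Q) : S.Beta a W (insert b U) Q e := by
  have hbW : b ∈ W := hW (Finset.mem_insert_self b U)
  have hUW : U ⊆ W := (Finset.subset_insert b U).trans hW
  have heb : e ≠ b := fun h => heU (h ▸ Finset.mem_insert_self b U)
  have heU' : e ∉ U := fun h => heU (Finset.mem_insert_of_mem h)
  have hQ1 : Q ⊆ W \ U := fun q hq => by
    have h := Finset.mem_sdiff.1 (hQ hq)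
    exact Finset.mem_sdiff.2 ⟨h.1, fun h' => h.2 (Finset.mem_insert_of_mem h')⟩
  intro n y hy
  have hy1 : y ∈ S.J K W (insert e (insert b U ∪ Q)) n := hy.1
  have hy2 : y ∈ S.KU a W (insert b U) Q n := hy.2
  cases n with
  | zero => exact I_le_KU a W (insert b U) (insert e Q) 0 (KU_zero a W (insert b U) Q hy2)
  | succ k =>
    rw [KU_insert a W hb] at hy2
    obtain ⟨u, hu, w, hw, huw⟩ := Submodule.mem_sup.1 hy2
    obtain ⟨z, hz, hzu⟩ := mem_sh.1 hu
    have hWe : U ⊆ W.erase e := Finset.subset_erase.2 ⟨hUW, heU'⟩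
    have h1 : y ∈ S.I K (W.erase e) (k + 1) := by
      rw [I_erase]
      exact S.J_anti W (Finset.singleton_subset_iff.2 (Finset.mem_insert_self e _)) (k + 1) hy1
    have h2 : w ∈ S.KU a (W.erase e) U Q (k + 1) := by
      rw [KU_erase hg]
      exact (le_sup_right : S.KU a W U Q ≤ S.J K W {e} ⊔ S.KU a W U Q) (k + 1)
        (KU_anti a W U (Finset.subset_insert b Q) (k + 1) hw)
    have h3 : mth a b z ∈ S.KU a (W.erase e) U Q (k + 1) := by
      have h4 : mth a b z = y - w := by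
        rw [hzu, ← huw]
        abel
      rw [h4]
      exact Submodule.sub_mem _ (I_le_KU a _ U Q (k + 1) h1) h2
    have h4 : z ∈ S.J K (W.erase e) (U ∪ Q) k := S.J_erase_le W (U ∪ Q) e k hz
    have hQe : Q ⊆ W.erase e \ U := fun q hq => by
      have h := Finset.mem_sdiff.1 (hQ1 hq)
      exact Finset.mem_sdiff.2 ⟨Finset.mem_erase.2 ⟨fun h' => heQ (h' ▸ hq), h.1⟩, h.2⟩
    have h5 : z ∈ S.KU a (W.erase e) U Q k :=
      alpha' (hα _ hWe) (fun Q' e' j1 j2 j3 j4 => hβ _ Q' e' hWe j1 j2 j3 j4) hQe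
        (Finset.mem_erase.2 ⟨heb.symm, hbW⟩) hb k z h4 h3
    rw [KU_erase hg] at h5
    obtain ⟨z1, hz1, z2, hz2, hzz⟩ := Submodule.mem_sup.1 h5
    have h6 : z1 ∈ S.J K W (U ∪ Q) k := by
      have h7 : z1 = z - z2 := by
        rw [← hzz]
        abel
      rw [h7]
      exact Submodule.sub_mem _ hz (KU_le_J hg W U Q k hz2)
    have h7 : z1 ∈ S.J K W (U ∪ insert e Q) k := by
      have h8 : S.J K W (U ∪ Q) ⊓ S.J K W {e} = S.J K W (U ∪ insert e Q) := by
        rw [J_inf]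
        congr 1
        ext x
        simp only [Finset.mem_union, Finset.mem_insert, Finset.mem_singleton]
        tauto
      rw [← h8]
      exact ⟨h6, hz1⟩
    have h9 : mth a b z1 ∈ sh (mth a b) (S.J K W (U ∪ insert e Q)) (k + 1) :=
      mem_sh.2 ⟨z1, h7, rfl⟩
    have h10 : y - mth a b z1 = mth a b z2 + w := by
      rw [← huw, ← hzu, ← hzz, map_add]
      abel
    have h11 : mth a b z2 ∈ S.KU a W U (insert b Q) (k + 1) :=
      sh_KU_insert hg W U Q b (k + 1) (mem_sh.2 ⟨z2, hz2, rfl⟩)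
    have h12 : y - mth a b z1 ∈ S.KU a W U (insert b Q) (k + 1) := by
      rw [h10]
      exact Submodule.add_mem _ h11 hw
    have h13 : y - mth a b z1 ∈ S.J K W (insert e (U ∪ insert b Q)) (k + 1) := by
      have e1 : insert e (insert b U ∪ Q) = insert e (U ∪ insert b Q) := by
        ext x
        simp only [Finset.mem_union, Finset.mem_insert]
        tauto
      rw [← e1]
      refine Submodule.sub_mem _ hy1 ?_
      have h14 := S.sh_J hg W (U ∪ insert e Q) b (k + 1) h9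
      have e2 : insert b (U ∪ insert e Q) = insert e (insert b U ∪ Q) := by
        ext x
        simp only [Finset.mem_union, Finset.mem_insert]
        tauto
      rwa [e2] at h14
    have hQb : insert b Q ⊆ W \ U := Finset.insert_subset (Finset.mem_sdiff.2 ⟨hbW, hb⟩) hQ1
    have heQb : e ∉ insert b Q := fun h => by
      rcases Finset.mem_insert.1 h with h | h
      · exact heb h
      · exact heQ h
    have h15 : y - mth a b z1 ∈ S.KU a W U (insert e (insert b Q)) (k + 1) :=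
      hβ W (insert b Q) e hUW hQb he heU' heQb (k + 1) ⟨h13, h12⟩
    rw [KU_insert a W hb, Finset.insert_comm b e]
    have h16 : y = mth a b z1 + (y - mth a b z1) := by abel
    rw [h16]
    exact Submodule.add_mem_sup h9 h15

end Sub

end Pool.Agent.LocG
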