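import Pool.Agent.LocG.P3B
import Pool.Agent.LocG.Hilb

/-!
# MP_230912_co, file P3C: the statement (alpha), the induction step, and the dimensions

General lemmas (pure linear algebra).
`dq_inf` (second isomorphism theorem): for families `A, X`, stable under `θ b`, `b ∈ P`,
`dq (A ⊔ X) (X ⊔ gn θ P (A ⊔ X)) n = dq A ((A ⊓ X) ⊔ gn θ P A) n`.  Proof: put
`Y = X ⊔ gn θ P (A ⊔ X) = X ⊔ gn θ P A` (`gn_sup`, `gn_le`).  `A ⊔ Y = A ⊔ X` (`gn θ P A ≤ A`) and
`A ⊓ Y = (A ⊓ X) ⊔ gn θ P A` (modular law), and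
`dim (A + Y)_n - dim Y_n = dim A_n - dim (A ∩ Y)_n`.

THE STEP.  Let `U ⊆ W`, `e ∈ W \ U`, `P = W \ insert e U`, so `W \ U = insert e P`,
`(W.erase e) \ U = P`.  Notation `A = J W U`, `B = KU W U ∅`, `A₁ = J W (insert e U)`,
`A' = A₁ ⊔ B`.
(a) `Reg θ P A A'`: `Alpha (W.erase e) U` is `Reg θ P (J (W.erase e) U) (KU (W.erase e) U ∅)`; with
`X = KU (W.erase e) U ∅ = J W {e} ⊔ B` (`KU_erase`) we have `J (W.erase e) U = A ⊔ J W {e} = A ⊔ X`
(`J_erase`, `B ≤ A`) and `A ⊓ X = (A ⊓ J W {e}) ⊔ B = A₁ ⊔ B = A'` (modular law, `B ≤ A`, `J_inf`);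
`reg_inf` (LemR.lean).
(b) `B ⊔ sh (θ e) A ≤ A'` (`sh_J`), `A' ≤ A`.  `lemR` with `c = e`, `hr = Alpha W U` (rewritten with
`W \ U = insert e P`) gives for `Q ⊆ P`: `A' ⊓ (B ⊔ sh θ_e A ⊔ gn θ Q A) ≤ B ⊔ sh θ_e A ⊔ gn θ Q A'`
and `Reg θ P A' (B ⊔ sh θ_e A)`.
(c) Put `X' = B ⊔ sh θ_e A`.  `A' = A₁ ⊔ X'` and `A₁ ⊓ X' = sh θ_e A ⊔ (A₁ ⊓ B)` (modular law,
`sh θ_e A ≤ A₁`) `= sh θ_e A ⊔ KU W U {e}` (`hβ`, i.e. `A₁ ⊓ B ≤ KU W U {e}`, and `KU W U {e} ≤ A₁ ⊓ B`)
`= KU W (insert e U) ∅` (`KU_insert` with `Q = ∅`).  `reg_inf` with `A := A₁`, `X := X'` gives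
`Reg θ P A₁ (KU W (insert e U) ∅)`: `alpha_step`.
(d) `inf_XU`: `A₁ ⊓ XU W U ≤ XU W (insert e U)`: `XU W U = B ⊔ sh θ_e A ⊔ gn θ P A`
(`gn_insert`); `A₁ ≤ A'`, so by (b) with `Q = P`, `A₁ ⊓ XU W U ≤ A₁ ⊓ (X' ⊔ gn θ P A')`;
`gn θ P A' = gn θ P A₁ ⊔ gn θ P B ≤ gn θ P A₁ ⊔ B` so this is
`≤ A₁ ⊓ (X' ⊔ gn θ P A₁) = (A₁ ⊓ X') ⊔ gn θ P A₁ = KU W (insert e U) ∅ ⊔ gn θ P A₁`.
(e) `dq_step'`: let `Y = XU W U = X' ⊔ gn θ P A`.  From (b): `A' ⊓ Y = X' ⊔ gn θ P A'` (`≥` is clear) and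
`A' ⊔ Y = A' ⊔ gn θ P A` (`X' ≤ A'`).  So
`dim A' - dim (X' + θ_P A') = dim (A' + Y) - dim Y = (dim A - dim Y) - (dim A - dim (A' + θ_P A))`,
i.e. `dq A' (X' ⊔ gn θ P A') = dq A Y - dq A (A' ⊔ gn θ P A)`.
The left side is `dq A₁ (KU W (insert e U) ∅ ⊔ gn θ P A₁)` by `dq_inf` for `A₁, X'`
(`A₁ ⊔ X' = A'`), and `dq A (A' ⊔ gn θ P A) = dq (J (W.erase e) U) (XU (W.erase e) U)` by `dq_inf` for `A`
and `X = KU (W.erase e) U ∅`.
-/

set_option autoImplicit false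

namespace Pool.Agent.LocG

open Finset

private theorem fam_mod {K E : Type} [Field K] [AddCommGroup E] [Module K E]
    {A X G : Fam K E} (h : G ≤ A) : A ⊓ X ⊔ G = A ⊓ (X ⊔ G) :=
  funext fun n => inf_sup_assoc_of_le (X n) (h n)

private theorem fr_sup {K E : Type} [Field K] [AddCommGroup E] [Module K E]
    {A B : Submodule K E} [FiniteDimensional K A] [FiniteDimensional K B] :
    (Module.finrank K (A ⊔ B : Submodule K E) : ℤ) + Module.finrank K (A ⊓ B : Submodule K E) =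
      Module.finrank K A + Module.finrank K B := by
  exact_mod_cast Submodule.finrank_sup_add_finrank_inf_eq A B

theorem dq_inf {K E ι : Type} [Field K] [AddCommGroup E] [Module K E] [DecidableEq ι]
    {θ : ι → E →ₗ[K] E} {A X : Fam K E} {P : Finset ι} (hA : ∀ b ∈ P, sh (θ b) A ≤ A)
    (hX : ∀ b ∈ P, sh (θ b) X ≤ X) (hf : Fd (A ⊔ X)) (n : ℕ) :
    dq (A ⊔ X) (X ⊔ gn θ P (A ⊔ X)) n = dq A ((A ⊓ X) ⊔ gn θ P A) n := by
  have kX : gn θ P X ≤ X := gn_le hX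
  have kA : gn θ P A ≤ A := gn_le hA
  have k1 : X ⊔ gn θ P (A ⊔ X) = X ⊔ gn θ P A := by
    rw [gn_sup, sup_comm (gn θ P A), ← sup_assoc, sup_eq_left.2 kX]
  rw [k1, fam_mod kA]
  have k2 : A ⊔ (X ⊔ gn θ P A) = A ⊔ X := by
    rw [← sup_assoc]
    exact sup_eq_left.2 (kA.trans le_sup_left)
  have hfn : FiniteDimensional K ((A ⊔ X) n) := hf n
  have f1 : FiniteDimensional K (A n) :=
    Submodule.finiteDimensional_of_le ((le_sup_left : A ≤ A ⊔ X) n)
  have f2 : FiniteDimensional K ((X ⊔ gn θ P A) n) :=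
    Submodule.finiteDimensional_of_le
      ((sup_le le_sup_right (kA.trans le_sup_left) : X ⊔ gn θ P A ≤ A ⊔ X) n)
  have k3 := fr_sup (A := A n) (B := (X ⊔ gn θ P A) n)
  have k4 : (A n ⊔ (X ⊔ gn θ P A) n : Submodule K E) = (A ⊔ X) n := congrFun k2 n
  have k5 : (A n ⊓ (X ⊔ gn θ P A) n : Submodule K E) = (A ⊓ (X ⊔ gn θ P A)) n := rfl
  rw [k4, k5] at k3
  unfold dq
  linarith

namespace Sub

variable {Nd V K : Type} [Fintype Nd] [DecidableEq Nd] [Fintype V] [DecidableEq V] [Field K]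
  {S : Sub Nd V} {a : Nd → V → K}

private theorem er_sd (W U : Finset V) (e : V) : W.erase e \ U = W \ insert e U := by
  ext x
  simp only [Finset.mem_sdiff, Finset.mem_erase, Finset.mem_insert, not_or]
  tauto

private theorem in_sd {W U : Finset V} {e : V} (he : e ∈ W) (heU : e ∉ U) :
    insert e (W \ insert e U) = W \ U := by
  ext x
  simp only [Finset.mem_sdiff, Finset.mem_insert, not_or]
  constructor
  · rintro (rfl | h)
    · exact ⟨he, heU⟩
    · exact ⟨h.1, h.2.2⟩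
  · intro h
    by_cases hx : x = e
    · exact Or.inl hx
    · exact Or.inr ⟨h.1, hx, h.2⟩

private theorem shJ (hg : S.Gen a) (W U : Finset V) (b : V) :
    sh (mth a b) (S.J K W U) ≤ S.J K W U :=
  (S.sh_J hg W U b).trans (S.J_anti W (Finset.subset_insert b U))

private theorem B_le (hg : S.Gen a) (W U : Finset V) : S.KU a W U ∅ ≤ S.J K W U := by
  have h := KU_le_J hg W U ∅
  rwa [Finset.union_empty] at h

private theorem inf_B (hg : S.Gen a) {W U : Finset V} {e : V} (hβ : S.Beta a W U ∅ e) :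
    S.J K W (insert e U) ⊓ S.KU a W U ∅ = S.KU a W U (insert e ∅) := by
  refine le_antisymm ?_ (le_inf ?_ (KU_anti a W U (Finset.empty_subset _)))
  · have h := hβ
    unfold Beta at h
    rwa [Finset.union_empty] at h
  · refine (KU_le_J hg W U (insert e ∅)).trans (S.J_anti W ?_)
    intro x hx
    rcases Finset.mem_insert.1 hx with h | h
    · exact Finset.mem_union_right _ (Finset.mem_insert.2 (Or.inl h))
    · exact Finset.mem_union_left _ h

private theorem inf_X (hg : S.Gen a) {W U : Finset V} {e : V} (heU : e ∉ U)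
    (hβ : S.Beta a W U ∅ e) :
    S.J K W (insert e U) ⊓ (S.KU a W U ∅ ⊔ sh (mth a e) (S.J K W U)) =
      S.KU a W (insert e U) ∅ := by
  rw [← fam_mod (S.sh_J hg W U e), inf_B hg hβ, KU_insert a W heU, Finset.union_empty,
    sup_comm]

private theorem sup_X (hg : S.Gen a) (W U : Finset V) (e : V) :
    S.J K W (insert e U) ⊔ (S.KU a W U ∅ ⊔ sh (mth a e) (S.J K W U)) =
      S.J K W (insert e U) ⊔ S.KU a W U ∅ := by
  rw [← sup_assoc]
  exact sup_eq_left.2 ((S.sh_J hg W U e).trans le_sup_left)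

private theorem er_sup (hg : S.Gen a) (W U : Finset V) (e : V) :
    S.J K W U ⊔ S.KU a (W.erase e) U ∅ = S.J K (W.erase e) U := by
  rw [KU_erase hg, S.J_erase, sup_comm (S.J K W {e}), ← sup_assoc, sup_eq_left.2 (B_le hg W U)]

private theorem er_inf (hg : S.Gen a) (W U : Finset V) (e : V) :
    S.J K W U ⊓ S.KU a (W.erase e) U ∅ = S.J K W (insert e U) ⊔ S.KU a W U ∅ := by
  rw [KU_erase hg, ← fam_mod (B_le hg W U), S.J_inf]
  congr 2
  rw [Finset.union_comm]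
  rfl

private theorem regA (hg : S.Gen a) {W U : Finset V} {e : V}
    (hα' : S.Alpha a (W.erase e) U) :
    Reg (mth a) (W \ insert e U) (S.J K W U) (S.J K W (insert e U) ⊔ S.KU a W U ∅) := by
  rw [← er_inf hg W U e]
  refine reg_inf (fun b _ => shJ hg W U b) (fun b _ => sh_KU hg (W.erase e) U ∅ b) ?_
  rw [er_sup hg W U e, ← er_sd W U e]
  exact hα'

private theorem shA' (hg : S.Gen a) (W U : Finset V) (e b : V) :
    sh (mth a b) (S.J K W (insert e U) ⊔ S.KU a W U ∅) ≤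
      S.J K W (insert e U) ⊔ S.KU a W U ∅ := by
  rw [sh_sup]
  exact sup_le_sup (shJ hg W (insert e U) b) (sh_KU hg W U ∅ b)

private theorem shX' (hg : S.Gen a) (W U : Finset V) (e b : V) :
    sh (mth a b) (S.KU a W U ∅ ⊔ sh (mth a e) (S.J K W U)) ≤
      S.KU a W U ∅ ⊔ sh (mth a e) (S.J K W U) := by
  rw [sh_sup, sh_comm (mth_comm a b e)]
  exact sup_le_sup (sh_KU hg W U ∅ b) (sh_mono _ (shJ hg W U b))

private theorem A'_le (hg : S.Gen a) (W U : Finset V) (e : V) :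
    S.J K W (insert e U) ⊔ S.KU a W U ∅ ≤ S.J K W U :=
  sup_le (S.J_anti W (Finset.subset_insert e U)) (B_le hg W U)

private theorem X'_le (hg : S.Gen a) (W U : Finset V) (e : V) :
    S.KU a W U ∅ ⊔ sh (mth a e) (S.J K W U) ≤ S.J K W (insert e U) ⊔ S.KU a W U ∅ :=
  sup_le le_sup_right ((S.sh_J hg W U e).trans le_sup_left)

private theorem lem (hg : S.Gen a) {W U : Finset V} {e : V} (he : e ∈ W)
    (heU : e ∉ U) (hα : S.Alpha a W U) (hα' : S.Alpha a (W.erase e) U) :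
    (∀ Q ⊆ W \ insert e U, (S.J K W (insert e U) ⊔ S.KU a W U ∅) ⊓
      (S.KU a W U ∅ ⊔ sh (mth a e) (S.J K W U) ⊔ gn (mth a) Q (S.J K W U)) ≤
      S.KU a W U ∅ ⊔ sh (mth a e) (S.J K W U) ⊔
        gn (mth a) Q (S.J K W (insert e U) ⊔ S.KU a W U ∅)) ∧
      Reg (mth a) (W \ insert e U) (S.J K W (insert e U) ⊔ S.KU a W U ∅)
        (S.KU a W U ∅ ⊔ sh (mth a e) (S.J K W U)) := by
  refine lemR (mth_comm a) (fun h => (Finset.mem_sdiff.1 h).2 (Finset.mem_insert_self e U))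
    (fun b _ => shJ hg W U b) (fun b _ => shA' hg W U e b) (X'_le hg W U e) (A'_le hg W U e)
    ?_ (regA hg hα')
  rw [in_sd he heU]
  exact hα

theorem alpha_step (hg : S.Gen a) {W U : Finset V} {e : V} (hU : U ⊆ W) (he : e ∈ W)
    (heU : e ∉ U) (hα : S.Alpha a W U) (hα' : S.Alpha a (W.erase e) U)
    (hβ : S.Beta a W U ∅ e) : S.Alpha a W (insert e U) := by
  unfold Alpha
  rw [← inf_X hg heU hβ]
  refine reg_inf (fun b _ => shJ hg W (insert e U) b) (fun b _ => shX' hg W U e b) ?_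
  rw [sup_X hg W U e]
  exact (lem hg he heU hα hα').2

private theorem XU_eq {W U : Finset V} {e : V} (he : e ∈ W) (heU : e ∉ U) :
    S.XU a W U = S.KU a W U ∅ ⊔ sh (mth a e) (S.J K W U) ⊔
      gn (mth a) (W \ insert e U) (S.J K W U) := by
  unfold XU
  rw [← in_sd he heU, gn_insert, sup_assoc]

private theorem gnA' (hg : S.Gen a) (W U : Finset V) (e : V) :
    S.KU a W U ∅ ⊔ sh (mth a e) (S.J K W U) ⊔
        gn (mth a) (W \ insert e U) (S.J K W (insert e U) ⊔ S.KU a W U ∅) =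
      S.KU a W U ∅ ⊔ sh (mth a e) (S.J K W U) ⊔
        gn (mth a) (W \ insert e U) (S.J K W (insert e U)) := by
  refine le_antisymm (sup_le le_sup_left ?_) (sup_le_sup_left ?_ _)
  · rw [gn_sup]
    refine sup_le le_sup_right (le_trans ?_ (le_sup_left.trans le_sup_left))
    exact gn_le fun b _ => sh_KU hg W U ∅ b
  · exact gn_mono _ (Finset.Subset.refl _) le_sup_left

theorem inf_XU (hg : S.Gen a) {W U : Finset V} {e : V} (hU : U ⊆ W) (he : e ∈ W)
    (heU : e ∉ U) (hα : S.Alpha a W U) (hα' : S.Alpha a (W.erase e) U)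
    (hβ : S.Beta a W U ∅ e) : S.J K W (insert e U) ⊓ S.XU a W U ≤ S.XU a W (insert e U) := by
  have h1 : S.J K W (insert e U) ⊓ S.XU a W U ≤ S.J K W (insert e U) ⊓
      (S.KU a W U ∅ ⊔ sh (mth a e) (S.J K W U) ⊔
        gn (mth a) (W \ insert e U) (S.J K W (insert e U))) := by
    refine le_inf inf_le_left ?_
    rw [← gnA' hg W U e, XU_eq he heU]
    exact (inf_le_inf_right _ le_sup_left).trans
      ((lem hg he heU hα hα').1 _ (Finset.Subset.refl _))
  refine h1.trans ?_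
  rw [← fam_mod (gn_le fun b _ => shJ hg W (insert e U) b), inf_X hg heU hβ]
  exact le_refl _

theorem dq_XU (hg : S.Gen a) {W U : Finset V} {e : V} (hU : U ⊆ W) (he : e ∈ W)
    (heU : e ∉ U) (hα : S.Alpha a W U) (hα' : S.Alpha a (W.erase e) U)
    (hβ : S.Beta a W U ∅ e) (n : ℕ) :
    dq (S.J K W (insert e U)) (S.XU a W (insert e U)) n =
      dq (S.J K W U) (S.XU a W U) n - dq (S.J K (W.erase e) U) (S.XU a (W.erase e) U) n := by
  have hfA : Fd (S.J K W U) := mf_fd _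
  have hfA' : Fd (S.J K W (insert e U) ⊔ S.KU a W U ∅) := fun n => by
    have := hfA n
    exact Submodule.finiteDimensional_of_le (A'_le hg W U e n)
  -- the left side
  have h1 := dq_inf (θ := mth a) (A := S.J K W (insert e U))
    (X := S.KU a W U ∅ ⊔ sh (mth a e) (S.J K W U)) (P := W \ insert e U)
    (fun b _ => shJ hg W (insert e U) b) (fun b _ => shX' hg W U e b)
    (by rw [sup_X hg W U e]; exact hfA') n
  rw [sup_X hg W U e, inf_X hg heU hβ] at h1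
  -- the restriction
  have h2 := dq_inf (θ := mth a) (A := S.J K W U)
    (X := S.KU a (W.erase e) U ∅) (P := W \ insert e U)
    (fun b _ => shJ hg W U b) (fun b _ => sh_KU hg (W.erase e) U ∅ b)
    (by rw [er_sup hg W U e]; exact mf_fd _) n
  rw [er_sup hg W U e, er_inf hg W U e] at h2
  have e1 : S.XU a W (insert e U) = S.KU a W (insert e U) ∅ ⊔
      gn (mth a) (W \ insert e U) (S.J K W (insert e U)) := rfl
  have e2 : S.XU a (W.erase e) U = S.KU a (W.erase e) U ∅ ⊔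
      gn (mth a) (W \ insert e U) (S.J K (W.erase e) U) := by
    unfold XU
    rw [er_sd]
  rw [e1, e2, ← h1, h2, XU_eq he heU]
  -- the lattice identity
  set A := S.J K W U
  set A' := S.J K W (insert e U) ⊔ S.KU a W U ∅
  set X' := S.KU a W U ∅ ⊔ sh (mth a e) A
  set G := gn (mth a) (W \ insert e U) A
  set G' := gn (mth a) (W \ insert e U) A'
  have k1 : A' ⊓ (X' ⊔ G) = X' ⊔ G' := by
    refine le_antisymm ((lem hg he heU hα hα').1 _ (Finset.Subset.refl _)) ?_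
    refine le_inf (sup_le (X'_le hg W U e) (gn_le fun b _ => shA' hg W U e b)) ?_
    exact sup_le_sup_left (gn_mono _ (Finset.Subset.refl _) (A'_le hg W U e)) _
  have k2 : A' ⊔ (X' ⊔ G) = A' ⊔ G := by
    rw [← sup_assoc, sup_eq_left.2 (X'_le hg W U e)]
  have f0 := hfA n
  have f1 := hfA' n
  have f2 : FiniteDimensional K ((X' ⊔ G) n) := Submodule.finiteDimensional_of_le
    ((sup_le ((X'_le hg W U e).trans (A'_le hg W U e))
      (gn_le fun b _ => shJ hg W U b) : X' ⊔ G ≤ A) n)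
  have k3 := fr_sup (A := A' n) (B := (X' ⊔ G) n)
  have k4 : (A' n ⊔ (X' ⊔ G) n : Submodule K (MvPolynomial Nd K)) = (A' ⊔ G) n := congrFun k2 n
  have k5 : (A' n ⊓ (X' ⊔ G) n : Submodule K (MvPolynomial Nd K)) = (X' ⊔ G') n :=
    congrFun k1 n
  rw [k4, k5] at k3
  unfold dq
  linarith

end Sub

end Pool.Agent.LocG
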