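import Pool.Agent.LocG.Mono

/-!
# MP_230912_co, file SubM: the ideals `I^W`, `J_U^W`; independence of the vectors `a v`

`S.I K W = mf K (fun F => ¬S.inW W F)`, `S.J K W U = mf K (fun F => S.inW W F → U ⊆ S.c F)`.

PROOFS.  Everything follows from `mf_mono`, `mf_congr`, `mf_inf`, `mf_sup`, `sh_mth` of Mono.lean and
propositional logic for a set `F` of vertices.
`I_erase`: `¬S.inW (W.erase b) F ↔ (S.inW W F → {b} ⊆ S.c F)`: if `S.inW W F` then
`S.inW (W.erase b) F ↔ b ∉ S.c F`.
`J_erase`: distinguish `¬S.inW W F`; `S.inW W F ∧ b ∈ S.c F`; `S.inW W F ∧ b ∉ S.c F`.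
`sh_J`: `sh_mth`; let `S.inW W F → U ⊆ S.c F`, `a v b ≠ 0`, so `b ∈ S.car v` (`Gen.zero`); if
`S.inW W (insert v F)` then `S.inW W F` (`S.down`, `S.c` is monotone), `U ⊆ S.c F ⊆ S.c (insert v F)` and
`b ∈ S.car v ⊆ S.c (insert v F)`.
`sh_I`: a set containing a set which is not in `Γ_W` is not in `Γ_W` (no `Gen` needed).
`sh_T`: `b ∉ W`, `a v b ≠ 0`: `b ∈ S.c (insert v F)`, so `insert v F` is not in `Γ_W`.
`J_top`: `(S.inW univ F → univ ⊆ S.c F) ↔ (¬S.inW univ F ∨ S.int univ F)`.
`indep`: let `f` be given by `Gen.minor`.  If `∑_{v ∈ σ} x_v a_v = 0` then `∑_v x_v a v (f u) = 0` for all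
`u ∈ σ`, so `x` is in the left kernel of an invertible matrix (`Matrix.det ≠ 0`,
`Matrix.eq_zero_of_vecMul_eq_zero` or `mulVec`), `x = 0`.
`gen_map`: apply the field homomorphism to `a v c = 0` and to the determinant
(`RingHom.map_det`, injectivity).
-/

set_option autoImplicit false

namespace Pool.Agent.LocG

open Finset

namespace Sub

variable {Nd V K : Type} [Fintype Nd] [DecidableEq Nd] [Fintype V] [DecidableEq V] [Field K]
  (S : Sub Nd V)

theorem c_mono {F G : Finset Nd} (h : F ⊆ G) : S.c F ⊆ S.c G := by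
  exact Finset.biUnion_subset_biUnion_of_subset_left _ h

private theorem inW_erase {W : Finset V} {b : V} {F : Finset Nd} :
    S.inW (W.erase b) F ↔ S.inW W F ∧ b ∉ S.c F := by
  unfold inW
  rw [Finset.subset_erase, and_assoc]

theorem J_empty (W : Finset V) : S.J K W ∅ = TT K Nd := by
  exact mf_congr fun F => ⟨fun _ => trivial, fun _ _ => Finset.empty_subset _⟩

theorem I_le_J (W U : Finset V) : S.I K W ≤ S.J K W U := by
  exact mf_mono fun F h1 h2 => absurd h2 h1

theorem J_le_T (W U : Finset V) : S.J K W U ≤ TT K Nd := by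
  exact mf_mono fun F _ => trivial

theorem J_anti (W : Finset V) {U U' : Finset V} (h : U ⊆ U') : S.J K W U' ≤ S.J K W U := by
  exact mf_mono fun F h1 h2 => h.trans (h1 h2)

theorem J_inf (W U U' : Finset V) : S.J K W U ⊓ S.J K W U' = S.J K W (U ∪ U') := by
  refine (mf_inf _ _).trans (mf_congr fun F => ?_)
  exact ⟨fun h1 h2 => Finset.union_subset (h1.1 h2) (h1.2 h2),
    fun h1 => ⟨fun h2 => (Finset.union_subset_iff.1 (h1 h2)).1,
      fun h2 => (Finset.union_subset_iff.1 (h1 h2)).2⟩⟩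

theorem I_erase (W : Finset V) (b : V) : S.I K (W.erase b) = S.J K W {b} := by
  refine mf_congr fun F => ?_
  rw [inW_erase, Finset.singleton_subset_iff]
  tauto

theorem J_erase (W U : Finset V) (b : V) :
    S.J K (W.erase b) U = S.J K W U ⊔ S.J K W {b} := by
  refine Eq.trans ?_ (mf_sup _ _).symm
  refine mf_congr fun F => ?_
  rw [inW_erase, Finset.singleton_subset_iff]
  tauto

theorem J_erase_le (W U : Finset V) (b : V) : S.J K W U ≤ S.J K (W.erase b) U := by
  rw [J_erase]
  exact le_sup_left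

theorem I_erase_le (W : Finset V) (b : V) : S.I K W ≤ S.I K (W.erase b) := by
  rw [I_erase]
  exact S.I_le_J W {b}

private theorem inW_insert {W : Finset V} {v : Nd} {F : Finset Nd}
    (h : S.inW W (insert v F)) : S.inW W F :=
  ⟨S.down _ h.1 _ (Finset.subset_insert v F), (S.c_mono (Finset.subset_insert v F)).trans h.2⟩

private theorem mem_c_insert {a : Nd → V → K} (hg : S.Gen a) {v : Nd} {b : V} (h : a v b ≠ 0)
    (F : Finset Nd) : b ∈ S.c (insert v F) := by
  have h1 : b ∈ S.car v := by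
    by_contra h2
    exact h (hg.zero v b h2)
  exact Finset.mem_biUnion.2 ⟨v, Finset.mem_insert_self v F, h1⟩

theorem sh_J {a : Nd → V → K} (hg : S.Gen a) (W U : Finset V) (b : V) :
    sh (mth a b) (S.J K W U) ≤ S.J K W (insert b U) := by
  refine sh_mth fun F v h1 h2 h3 => ?_
  refine Finset.insert_subset (S.mem_c_insert hg h2 F) ?_
  exact (h1 (S.inW_insert h3)).trans (S.c_mono (Finset.subset_insert v F))

theorem sh_I (a : Nd → V → K) (W : Finset V) (b : V) :
    sh (mth a b) (S.I K W) ≤ S.I K W := by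
  exact sh_mth fun F v h1 _ h3 => h1 (S.inW_insert h3)

theorem sh_T {a : Nd → V → K} (hg : S.Gen a) {W : Finset V} {b : V} (hb : b ∉ W) :
    sh (mth a b) (TT K Nd) ≤ S.I K W := by
  exact sh_mth fun F v _ h2 h3 => hb (h3.2 (S.mem_c_insert hg h2 F))

theorem J_top : S.J K univ univ = S.I K univ ⊔ mf K (S.int univ) := by
  refine Eq.trans ?_ (mf_sup _ _).symm
  refine mf_congr fun F => ?_
  constructor
  · intro h
    by_cases h1 : S.inW univ F
    · exact Or.inr ⟨h1.1, Finset.univ_subset_iff.1 (h h1)⟩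
    · exact Or.inl h1
  · rintro (h | h) h1
    · exact absurd h1 h
    · exact Finset.univ_subset_iff.2 h.2

theorem indep {a : Nd → V → K} (hg : S.Gen a) {σ : Finset Nd} (hσ : σ ∈ S.faces) :
    LinearIndependent K fun v : σ => a v := by
  obtain ⟨f, hf⟩ := hg.minor σ hσ
  have h1 := Matrix.linearIndependent_cols_of_det_ne_zero hf
  exact LinearIndependent.of_comp (LinearMap.funLeft K K f) h1

theorem gen_map {L : Type} [Field L] {a : Nd → V → K} (hg : S.Gen a) (i : K →+* L) :
    S.Gen fun v b => i (a v b) := by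
  refine ⟨fun v c hc => by rw [hg.zero v c hc, map_zero], fun σ hσ => ?_⟩
  obtain ⟨f, hf⟩ := hg.minor σ hσ
  refine ⟨f, ?_⟩
  have h1 : (Matrix.of fun u v : σ => i (a v (f u))) =
      i.mapMatrix (Matrix.of fun u v : σ => a v (f u)) := rfl
  rw [h1, ← RingHom.map_det]
  exact (map_ne_zero i).2 hf

end Sub

end Pool.Agent.LocG
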